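import Mathlib
import Pool.Agent.H73.PZ.G1
import Pool.Agent.H73.PZ.G7
import Pool.Agent.H23.DM.Coc

/-!
MP_d9606f_gt, full answer (paper `/team-store/h67_n3.md`).  COMMON DEFINITIONS (helper67).

* `AZ n`: the integer vectors with sum zero, written multiplicatively; `dgh p n a = diag(p ^ a_i)`.
* `rt i j a = a_j - a_i`: the root `(i, j)`;
  `dgh a * EE (i,j) x = EE (i,j) (p ^ (- rt i j a) x) * dgh a`.
* `Base Γ F`: the compact homogeneous space `G/Γ` as a compact open fundamental domain `F`, with the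
  cocycle `al g f ∈ Γ`.
* `Fib Γ M`: the functions `ψ` (embedding), the exact continuous cocycle `J`, and for every `r` the
  jets of order `r` (`Jet`), a bounded measurable exact cocycle.
* `Sus Γ F M`: both, with the actions of `G` and of `AZ n` on `F × M`:
  `g (f, m) = (g f, al g f m)`.
* `Inv g μ`, `UInv i j μ`, `OvH S μ`, `Sst i j μ` (the set `Σ*` of the paper), `GB S μ a c`.
-/

set_option linter.unusedSectionVars false

open MeasureTheory Filter Matrix
open scoped Topology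
open Pool.Agent.H73.PZ
open Pool.Agent.H23.DM

namespace Pool.Agent.H67.LX

noncomputable section

/-! ### The group `A` -/

/-- Integer vectors with sum zero. -/
def sz0 (n : ℕ) : AddSubgroup (Fin n → ℤ) where
  carrier := {a | ∑ i, a i = 0}
  add_mem' {a b} ha hb := by
    have h1 : ∑ i, a i = 0 := ha
    have h2 : ∑ i, b i = 0 := hb
    change ∑ i, (a + b) i = 0
    simp only [Pi.add_apply, Finset.sum_add_distrib, h1, h2, add_zero]
  zero_mem' := by
    change ∑ i : Fin n, (0 : Fin n → ℤ) i = 0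
    simp
  neg_mem' {a} ha := by
    have h1 : ∑ i, a i = 0 := ha
    change ∑ i, (-a) i = 0
    simp only [Pi.neg_apply, Finset.sum_neg_distrib, h1, neg_zero]

/-- The abelian group `A` (multiplicative). -/
abbrev AZ (n : ℕ) : Type := Multiplicative (sz0 n)

/-- The exponents of an element of `A`. -/
def ex {n : ℕ} (a : AZ n) : Fin n → ℤ := (Multiplicative.toAdd a).1

theorem ex_sum {n : ℕ} (a : AZ n) : ∑ i, ex a i = 0 := (Multiplicative.toAdd a).2

theorem ex_mul {n : ℕ} (a b : AZ n) : ex (a * b) = fun i => ex a i + ex b i := rfl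

theorem ex_one {n : ℕ} : ex (1 : AZ n) = fun _ => 0 := rfl

theorem ex_inv {n : ℕ} (a : AZ n) : ex a⁻¹ = fun i => -ex a i := rfl

/-- The element of `A` with given exponents. -/
def mkA {n : ℕ} (a : Fin n → ℤ) (h : ∑ i, a i = 0) : AZ n := Multiplicative.ofAdd ⟨a, h⟩

theorem ex_mkA {n : ℕ} (a : Fin n → ℤ) (h : ∑ i, a i = 0) : ex (mkA a h) = a := rfl

theorem ex_ext {n : ℕ} {a b : AZ n} (h : ∀ i, ex a i = ex b i) : a = b := by
  apply Multiplicative.toAdd.injective
  apply Subtype.ext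
  funext i
  exact h i

/-- The homomorphism `a ↦ diag(p ^ a_i)`. -/
def dgh (p : ℕ) [Fact p.Prime] (n : ℕ) : AZ n →* SLn p n where
  toFun a := dg p (ex a)
  map_one' := by
    rw [ex_one]
    exact dg_zero
  map_mul' a b := by
    rw [ex_mul]
    exact dg_add (ex_sum a) (ex_sum b)

theorem dgh_apply (p : ℕ) [Fact p.Prime] (n : ℕ) (a : AZ n) : dgh p n a = dg p (ex a) := rfl

/-- The root `(i, j)`: `rt i j a > 0` means that `a` expands `U^(i,j)`. -/
def rt {n : ℕ} (i j : Fin n) (a : AZ n) : ℤ := ex a j - ex a i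

theorem rt_mul {n : ℕ} (i j : Fin n) (a b : AZ n) : rt i j (a * b) = rt i j a + rt i j b := by
  unfold rt
  rw [ex_mul]
  ring

theorem rt_one {n : ℕ} (i j : Fin n) : rt i j (1 : AZ n) = 0 := by
  unfold rt
  rw [ex_one]
  ring

theorem rt_inv {n : ℕ} (i j : Fin n) (a : AZ n) : rt i j a⁻¹ = -rt i j a := by
  unfold rt
  rw [ex_inv]
  ring

theorem rt_pow {n : ℕ} (i j : Fin n) (a : AZ n) (t : ℕ) : rt i j (a ^ t) = t * rt i j a := by
  induction t with
  | zero => rw [pow_zero, rt_one]; push_cast; ring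
  | succ t ih => rw [pow_succ, rt_mul, ih]; push_cast; ring

theorem rt_swap {n : ℕ} (i j : Fin n) (a : AZ n) : rt j i a = -rt i j a := by
  unfold rt
  ring

theorem rt_add {n : ℕ} (i j k : Fin n) (a : AZ n) : rt i j a + rt j k a = rt i k a := by
  unfold rt
  ring

/-- Conjugation of a root group element. -/
theorem dgh_conj {p : ℕ} [Fact p.Prime] {n : ℕ} (a : AZ n) {i j : Fin n} (h : i ≠ j) (x : ℚ_[p]) :
    dgh p n a * EE h x = EE h ((p : ℚ_[p]) ^ (-rt i j a) * x) * dgh p n a := by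
  rw [dgh_apply, dg_conj (ex_sum a) h x]
  congr 3
  unfold rt
  congr 1
  ring

/-- The element of `A` with exponent `1` at `j` and `-1` at `i`. -/
def tA {n : ℕ} (i j : Fin n) : AZ n :=
  mkA (fun k => (Pi.single j 1 : Fin n → ℤ) k - (Pi.single i 1 : Fin n → ℤ) k) (by
    rw [Finset.sum_sub_distrib]
    simp)

/-! ### The base -/

/-- The compact homogeneous space `G/Γ`, modelled on a compact open fundamental domain. -/
structure Base {p : ℕ} [Fact p.Prime] {n : ℕ} (Γ : Subgroup (SLn p n)) (F : Type)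
    [TopologicalSpace F] [MeasurableSpace F] [MulAction (SLn p n) F] where
  /-- the cocycle -/
  al : SLn p n → F → Γ
  al_mul : ∀ g h f, al (g * h) f = al g (h • f) * al h f
  al_K : ∀ k ∈ KM p n 2, ∀ f, al k f = 1
  cont : Continuous fun x : SLn p n × F => x.1 • x.2
  al_lc : ∀ g, IsLocallyConstant (al g)
  trans : ∀ f f' : F, ∃ g : SLn p n, g • f = f'
  /-- the orbits of the congruence subgroups are open -/
  orbit_open : ∀ (l : ℕ) (f : F), IsOpen {f' : F | ∃ k ∈ KM p n l, f' = k • f}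
  /-- the invariant probability measure -/
  h : Measure F
  prob : IsProbabilityMeasure h
  inv : ∀ g : SLn p n, MeasurePreserving (fun f : F => g • f) h h
  full : ∀ U : Set F, IsOpen U → U.Nonempty → h U ≠ 0
  /-- a base point whose stabiliser is `Γ` -/
  pt : ∃ (f0 : F) (C : ℝ), ∀ γ : Γ, ∃ g : SLn p n, g • f0 = f0 ∧ al g f0 = γ ∧
    size g ≤ C * size (γ : SLn p n)

/-! ### The fibre -/

/-- The distance given by the functions `ψ`. -/
def dist0 {M κ : Type} [Fintype κ] (ψ : κ → M → ℝ) (m m' : M) : ℝ :=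
  vn fun i => ψ i m' - ψ i m

/-- Jets of order `r` in piecewise charts: `D γ m` is the matrix of the jet of `γ` at `m`, acting on
the monomials of degree `1, …, r`; `V m m'` is the vector of the monomials of the chart difference
of `m'` and `m` (zero if `m'` is not close to `m`); `P` is the projection on the monomials of degree
one. -/
structure Jet (Γ : Type) [Group Γ] (M : Type) [MeasurableSpace M] [MulAction Γ M] {κ : Type}
    [Fintype κ] (ψ : κ → M → ℝ) (J : Γ → M → Matrix κ κ ℝ) (lam : Γ → ℝ) (r : ℕ) where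
  ι : Type
  fin : Fintype ι
  dec : DecidableEq ι
  D : Γ → M → Matrix ι ι ℝ
  meas : ∀ γ, MM (D γ)
  bdd : ∀ γ, ∃ C : ℝ, ∀ m, fn (D γ m) ≤ C
  mul : ∀ γ γ' m, D (γ * γ') m = D γ (γ' • m) * D γ' m
  one : ∀ m, D 1 m = 1
  P : Matrix ι ι ℝ
  P_symm : Pᵀ = P
  P_idem : P * P = P
  P_inv : ∀ γ m, P * (D γ m * P) = D γ m * P
  lam_le : ∀ γ m, fn (D γ m * P) ≤ lam γ
  V : M → M → ι → ℝ
  V_err : ∀ γ, ∃ C : ℝ, ∀ m m',
    vn (V (γ • m) (γ • m') - D γ m *ᵥ V m m') ≤ C * dist0 ψ m m' ^ (r + 1)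
  V_le : ∃ C : ℝ, ∀ m m', vn (V m m') ≤ C * dist0 ψ m m'
  V_quad : ∃ C : ℝ, ∀ m m', vn (V m m' - P *ᵥ V m m') ≤ C * dist0 ψ m m' ^ 2
  V_ge : ∃ C δ : ℝ, 0 < δ ∧ ∀ m m', dist0 ψ m m' ≤ δ → dist0 ψ m m' ≤ C * vn (P *ᵥ V m m')
  J_le : ∃ C : ℝ, ∀ γ m, fn (J γ m) ≤ C * fn (D γ m * P)

attribute [instance] Jet.fin Jet.dec

/-- The fibre of the suspension. -/
structure Fib (Γ : Type) [Group Γ] (M : Type) [TopologicalSpace M] [MeasurableSpace M]
    [MulAction Γ M] where
  κ : Type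
  finκ : Fintype κ
  decκ : DecidableEq κ
  ψ : κ → M → ℝ
  ψ_cont : ∀ i, Continuous (ψ i)
  ψ_sep : ∀ m m', (∀ i, ψ i m = ψ i m') → m = m'
  smul_cont : ∀ γ : Γ, Continuous fun m : M => γ • m
  /-- the exact continuous cocycle -/
  J : Γ → M → Matrix κ κ ℝ
  J_cont : ∀ γ i j, Continuous fun m => J γ m i j
  J_mul : ∀ γ γ' m, J (γ * γ') m = J γ (γ' • m) * J γ' m
  J_one : ∀ m, J 1 m ≠ 0
  J_err : ∀ γ, ∃ C : ℝ, ∀ m m',
    vn ((fun i => ψ i (γ • m') - ψ i (γ • m)) - J γ m *ᵥ fun i => ψ i m' - ψ i m) ≤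
      C * dist0 ψ m m' ^ 2
  lam : Γ → ℝ
  jet : ∀ r : ℕ, 1 ≤ r → Jet Γ M ψ J lam r

attribute [instance] Fib.finκ Fib.decκ

/-! ### The suspension -/

/-- The suspension `F × M` of the action of `Γ` on `M`. -/
structure Sus {p : ℕ} [Fact p.Prime] {n : ℕ} (Γ : Subgroup (SLn p n)) (F M : Type)
    [TopologicalSpace F] [MeasurableSpace F] [MulAction (SLn p n) F]
    [TopologicalSpace M] [MeasurableSpace M] [MulAction Γ M]
    [MulAction (SLn p n) (F × M)] [MulAction (AZ n) (F × M)] where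
  B : Base Γ F
  V : Fib Γ M
  smul_def : ∀ (g : SLn p n) (x : F × M), g • x = (g • x.1, B.al g x.1 • x.2)
  smul_A : ∀ (a : AZ n) (x : F × M), a • x = dgh p n a • x

/-- The map `x ↦ g x` preserves `μ`. -/
def Inv {p : ℕ} [Fact p.Prime] {n : ℕ} {X : Type} [MeasurableSpace X] [MulAction (SLn p n) X]
    (g : SLn p n) (μ : Measure X) : Prop := MeasurePreserving (fun x : X => g • x) μ μ

/-- `μ` is invariant under the root group `U^(i,j)`. -/
def UInv (p : ℕ) [Fact p.Prime] {n : ℕ} {X : Type} [MeasurableSpace X] [MulAction (SLn p n) X]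
    (i j : Fin n) (μ : Measure X) : Prop := ∀ (h : i ≠ j) (x : ℚ_[p]), Inv (EE h x) μ

/-- The set `E` is invariant under `g` up to null sets. -/
def SInv {p : ℕ} [Fact p.Prime] {n : ℕ} {X : Type} [MeasurableSpace X] [MulAction (SLn p n) X]
    (μ : Measure X) (g : SLn p n) (E : Set X) : Prop := (fun x : X => g • x) ⁻¹' E =ᵐ[μ] E

/-- The root `(i,j)` is in `Σ*`: `μ` is invariant under `U^(i,j)`, and `U^(i,j)` acts trivially on
the sets that are invariant under the kernel of the root in `A`. -/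
def Sst (p : ℕ) [Fact p.Prime] {n : ℕ} {X : Type} [MeasurableSpace X] [MulAction (SLn p n) X]
    (i j : Fin n) (μ : Measure X) : Prop :=
  UInv p i j μ ∧ ∀ E : Set X, MeasurableSet E →
    (∀ a : AZ n, rt i j a = 0 → SInv μ (dgh p n a) E) →
    ∀ (h : i ≠ j) (x : ℚ_[p]), SInv μ (EE h x) E

namespace Sus

variable {p : ℕ} [Fact p.Prime] {n : ℕ} {Γ : Subgroup (SLn p n)} {F M : Type}
    [TopologicalSpace F] [MeasurableSpace F] [MulAction (SLn p n) F]
    [TopologicalSpace M] [MeasurableSpace M] [MulAction Γ M]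
    [MulAction (SLn p n) (F × M)] [MulAction (AZ n) (F × M)]

/-- `μ` projects to the invariant measure of the base. -/
def OvH (S : Sus Γ F M) (μ : Measure (F × M)) : Prop := μ.map Prod.fst = S.B.h

/-- `μ` is invariant under `A`. -/
def AInv (_S : Sus Γ F M) (μ : Measure (F × M)) : Prop := ∀ a : AZ n, Inv (dgh p n a) μ

/-- The continuous cocycle over the suspension. -/
def C (S : Sus Γ F M) (g : SLn p n) (x : F × M) : Matrix S.V.κ S.V.κ ℝ :=
  S.V.J (S.B.al g x.1) x.2

/-- The jet cocycle over the suspension. -/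
def D (S : Sus Γ F M) (r : ℕ) (hr : 1 ≤ r) (g : SLn p n) (x : F × M) :
    Matrix (S.V.jet r hr).ι (S.V.jet r hr).ι ℝ :=
  (S.V.jet r hr).D (S.B.al g x.1) x.2

/-- The distance in the fibre. -/
def d (S : Sus Γ F M) (m m' : M) : ℝ := dist0 S.V.ψ m m'

/-- The logarithm of the norm of the continuous cocycle. -/
def L (S : Sus Γ F M) (g : SLn p n) (x : F × M) : ℝ := Real.log (fn (S.C g x))

/-- `κ_a(μ) ≥ c`, where `κ_a(μ) = inf_T (1/T) ∫ L(a^T) dμ`. -/
def GB (S : Sus Γ F M) (μ : Measure (F × M)) (a : AZ n) (c : ℝ) : Prop :=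
  ∀ T : ℕ, c * T ≤ ∫ x, S.L (dgh p n a ^ T) x ∂μ

/-- `κ_a(μ) ≤ 0`. -/
def NG (S : Sus Γ F M) (μ : Measure (F × M)) (a : AZ n) : Prop := ∀ c : ℝ, 0 < c → ¬ S.GB μ a c

/-- Convergence in probability of the growth rate.  The continuous cocycle has subexponential
growth along `a`, in probability. -/
def Upp (S : Sus Γ F M) (μ : Measure (F × M)) (a : AZ n) : Prop :=
  ∀ ε : ℝ, 0 < ε → WP μ fun t => {x | ε * t < S.L (dgh p n a ^ t) x}

end Sus

end

end Pool.Agent.H67.LX
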