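import Mathlib
import Pool.Agent.H67.LX.Defs

/-!
Basic lemmas on `Inv`, `UInv`, `SInv`, `OvH` (helper67, proved).
-/

set_option linter.unusedSectionVars false

open MeasureTheory Filter Matrix
open scoped Topology
open Pool.Agent.H73.PZ
open Pool.Agent.H23.DM

namespace Pool.Agent.H67.LX

variable {p : ℕ} [Fact p.Prime] {n : ℕ} {Γ : Subgroup (SLn p n)} {F M : Type}
    [TopologicalSpace F] [CompactSpace F] [T2Space F] [SecondCountableTopology F]
    [MeasurableSpace F] [BorelSpace F] [MulAction (SLn p n) F]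
    [TopologicalSpace M] [CompactSpace M] [T2Space M] [SecondCountableTopology M]
    [MeasurableSpace M] [BorelSpace M] [MulAction Γ M]
    [MulAction (SLn p n) (F × M)] [MulAction (AZ n) (F × M)]

section Gen

variable {p : ℕ} [Fact p.Prime] {n : ℕ} {X : Type} [MeasurableSpace X] [MulAction (SLn p n) X]
  {μ : Measure X}

theorem Inv.mul {g h : SLn p n} (hg : Inv g μ) (hh : Inv h μ) : Inv (g * h) μ := by
  have h1 : (fun x : X => (g * h) • x) = (fun x : X => g • x) ∘ fun x : X => h • x := by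
    funext x
    exact mul_smul g h x
  unfold Inv
  rw [h1]
  exact MeasurePreserving.comp hg hh

theorem Inv.one : Inv (1 : SLn p n) μ := by
  have h1 : (fun x : X => (1 : SLn p n) • x) = id := by
    funext x
    exact one_smul _ x
  unfold Inv
  rw [h1]
  exact MeasurePreserving.id μ

theorem Inv.inv {g : SLn p n} (hg : Inv g μ) (hm : Measurable fun x : X => g⁻¹ • x) :
    Inv g⁻¹ μ := by
  refine ⟨hm, ?_⟩
  have h1 : μ = μ.map fun x : X => g • x := hg.map_eq.symm
  conv_lhs => rw [h1]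
  rw [Measure.map_map hm hg.measurable]
  have h2 : (fun x : X => g⁻¹ • x) ∘ (fun x : X => g • x) = id := by
    funext x
    exact inv_smul_smul g x
  rw [h2, Measure.map_id]

theorem SInv.mul {g h : SLn p n} {E : Set X} (hg : SInv μ g E) (hh : SInv μ h E)
    (hh' : Inv h μ) : SInv μ (g * h) E := by
  have h1 : (fun x : X => (g * h) • x) ⁻¹' E = (fun x : X => h • x) ⁻¹' ((fun x : X => g • x) ⁻¹' E) := by
    ext x
    simp only [Set.mem_preimage, mul_smul]
  unfold SInv
  rw [h1]
  exact (hh'.quasiMeasurePreserving.preimage_ae_eq hg).trans hh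

theorem SInv.inv {g : SLn p n} {E : Set X} (hg : SInv μ g E) (hg' : Inv g⁻¹ μ) :
    SInv μ g⁻¹ E := by
  have h1 : (fun x : X => g⁻¹ • x) ⁻¹' ((fun x : X => g • x) ⁻¹' E) = E := by
    ext x
    simp only [Set.mem_preimage, smul_inv_smul]
  unfold SInv
  have h2 := hg'.quasiMeasurePreserving.preimage_ae_eq hg
  rw [h1] at h2
  exact h2.symm

end Gen

namespace Sus

theorem fst_smul (S : Sus Γ F M) (g : SLn p n) (x : F × M) : (g • x).1 = g • x.1 := by
  rw [S.smul_def]

theorem snd_smul (S : Sus Γ F M) (g : SLn p n) (x : F × M) : (g • x).2 = S.B.al g x.1 • x.2 := by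
  rw [S.smul_def]

theorem continuous_smulF (S : Sus Γ F M) (g : SLn p n) : Continuous fun f : F => g • f :=
  S.B.cont.comp (continuous_const.prodMk continuous_id)

theorem continuous_smul (S : Sus Γ F M) (g : SLn p n) : Continuous fun x : F × M => g • x := by
  have h0 : (fun x : F × M => g • x) = fun x : F × M => (g • x.1, S.B.al g x.1 • x.2) := by
    funext x
    exact S.smul_def g x
  rw [h0]
  refine ((S.continuous_smulF g).comp continuous_fst).prodMk ?_
  rw [continuous_iff_continuousAt]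
  intro x
  have h1 : IsOpen {f : F | S.B.al g f = S.B.al g x.1} := (S.B.al_lc g).isOpen_fiber _
  have h2 : (fun y : F × M => S.B.al g y.1 • y.2) =ᶠ[𝓝 x] fun y : F × M => S.B.al g x.1 • y.2 := by
    have h3 : ∀ᶠ y : F × M in 𝓝 x, y.1 ∈ {f : F | S.B.al g f = S.B.al g x.1} :=
      continuous_fst.continuousAt.eventually (h1.mem_nhds rfl)
    filter_upwards [h3] with y hy
    rw [show S.B.al g y.1 = S.B.al g x.1 from hy]
  refine ContinuousAt.congr ?_ h2.symm
  exact ((S.V.smul_cont _).comp continuous_snd).continuousAt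

theorem measurable_smul (S : Sus Γ F M) (g : SLn p n) : Measurable fun x : F × M => g • x :=
  (S.continuous_smul g).measurable

theorem inv_inv (S : Sus Γ F M) {μ : Measure (F × M)} {g : SLn p n} (h : Inv g μ) : Inv g⁻¹ μ :=
  h.inv (S.measurable_smul g⁻¹)

theorem inv_fst (S : Sus Γ F M) {μ : Measure (F × M)} {g : SLn p n} (h : Inv g μ) :
    Inv g (μ.map Prod.fst) := by
  have hc := (S.continuous_smulF g).measurable
  refine ⟨hc, ?_⟩
  rw [Measure.map_map hc measurable_fst]
  have h1 : (fun f : F => g • f) ∘ (Prod.fst : F × M → F) =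
      Prod.fst ∘ fun x : F × M => g • x := by
    funext x
    exact (S.fst_smul g x).symm
  rw [h1, ← Measure.map_map measurable_fst h.measurable, h.map_eq]

theorem ainv_of_sys (S : Sus Γ F M) {μ : Measure (F × M)} (hE : Sys (AZ n) (F × M) μ) :
    S.AInv μ := by
  intro a
  have h := hE.mp a
  have h1 : (fun x : F × M => a • x) = fun x : F × M => dgh p n a • x := by
    funext x
    exact S.smul_A a x
  rw [h1] at h
  exact h

theorem prob_fst {μ : Measure (F × M)} [IsProbabilityMeasure μ] :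
    IsProbabilityMeasure (μ.map Prod.fst) :=
  Measure.isProbabilityMeasure_map measurable_fst.aemeasurable

/-- `U^(i,k)` and `U^(k,j)` generate `U^(i,j)`. -/
theorem uinv_comm (S : Sus Γ F M) {μ : Measure (F × M)} {i k j : Fin n} (hik : i ≠ k)
    (hkj : k ≠ j) (h1 : UInv p i k μ) (h2 : UInv p k j μ) : UInv p i j μ := by
  intro hij x
  have e1 : EE hij x = ((EE hkj 1 * EE hik x)⁻¹ * (EE hik x * EE hkj 1) : SLn p n) := by
    rw [EE_heis hik hkj hij x 1, mul_one]
    group
  rw [e1]
  exact (S.inv_inv ((h2 hkj 1).mul (h1 hik x))).mul ((h1 hik x).mul (h2 hkj 1))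

theorem sinv_comm (S : Sus Γ F M) {μ : Measure (F × M)} {i k j : Fin n} (hik : i ≠ k)
    (hkj : k ≠ j) (h1 : UInv p i k μ) (h2 : UInv p k j μ) {E : Set (F × M)}
    (hE1 : ∀ x : ℚ_[p], SInv μ (EE hik x) E) (hE2 : ∀ x : ℚ_[p], SInv μ (EE hkj x) E)
    (hij : i ≠ j) (x : ℚ_[p]) : SInv μ (EE hij x) E := by
  have e1 : EE hij x = ((EE hkj 1 * EE hik x)⁻¹ * (EE hik x * EE hkj 1) : SLn p n) := by
    rw [EE_heis hik hkj hij x 1, mul_one]
    group
  rw [e1]
  have i1 := (h2 hkj 1).mul (h1 hik x)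
  have i2 := (h1 hik x).mul (h2 hkj 1)
  have s1 : SInv μ (EE hkj 1 * EE hik x : SLn p n) E := (hE2 1).mul (hE1 x) (h1 hik x)
  have s2 : SInv μ (EE hik x * EE hkj 1 : SLn p n) E := (hE1 x).mul (hE2 1) (h2 hkj 1)
  exact (s1.inv (S.inv_inv i1)).mul s2 i2

end Sus

end Pool.Agent.H67.LX
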