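import Mathlib
import Pool.Agent.H67.LX.Defs
import Pool.Agent.H67.LX.Bas
import Pool.Agent.H23.DM.Av2
import Pool.Agent.H23.DM.Av3

/-!
PART averages (helper67; proofs by helper45 from the modules Av1, Av2, Av3, Kp1 of `H23.DM`).  Paper
(S2), (S3), first half.

`exists_ainv`: `x_T` with `c T ≤ L (a^T) x_T`; empirical measures `(1/T) ∑_{r<T} δ_{a^r x_T}`; a weak
limit is invariant under `a` and satisfies `GB`; then Markov-Kakutani for the (commuting) elements
of `A`.
`average_root`: Markov-Kakutani for `U^(i,j)`, then for `A`, on the closed convex set of the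
`dgh w`-invariant probability measures with `GB · w c`, which is stable under the centraliser of `w`.
-/

set_option linter.unusedSectionVars false

open MeasureTheory Filter Matrix
open scoped Topology
open Pool.Agent.H73.PZ
open Pool.Agent.H23.DM

namespace Pool.Agent.H67.LX

variable {p : ℕ} [Fact p.Prime] {n : ℕ} {Γ : Subgroup (SLn p n)} {F M : Type}
    [TopologicalSpace F] [CompactSpace F] [T2Space F] [SecondCountableTopology F]
    [MeasurableSpace F] [BorelSpace F] [MulAction (SLn p n) F]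
    [TopologicalSpace M] [CompactSpace M] [T2Space M] [SecondCountableTopology M]
    [MeasurableSpace M] [BorelSpace M] [MulAction Γ M]
    [MulAction (SLn p n) (F × M)] [MulAction (AZ n) (F × M)]

/-! ### The suspension as a continuous action with a subadditive cocycle -/

/-- The cocycle of the base is locally constant in both variables. -/
theorem Base.al_near (B : Base Γ F) (g0 : SLn p n) (f0 : F) :
    ∀ᶠ q : SLn p n × F in 𝓝 (g0, f0), B.al q.1 q.2 = B.al g0 f0 := by
  have h1 : IsOpen {f : F | B.al g0 f = B.al g0 f0} := (B.al_lc g0).isOpen_fiber _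
  have h2 : ∀ᶠ q : SLn p n × F in 𝓝 (g0, f0), q.2 ∈ {f : F | B.al g0 f = B.al g0 f0} :=
    continuous_snd.continuousAt.eventually (h1.mem_nhds rfl)
  have h3 : IsOpen ((fun g : SLn p n => g * g0⁻¹) ⁻¹' (KM p n 2 : Set (SLn p n))) :=
    (isOpen_KM 2).preimage (continuous_mul_const g0⁻¹)
  have h4 : ∀ᶠ q : SLn p n × F in 𝓝 (g0, f0),
      q.1 ∈ ((fun g : SLn p n => g * g0⁻¹) ⁻¹' (KM p n 2 : Set (SLn p n))) := by
    refine continuous_fst.continuousAt.eventually (h3.mem_nhds ?_)
    change g0 * g0⁻¹ ∈ KM p n 2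
    rw [mul_inv_cancel]
    exact one_mem _
  filter_upwards [h2, h4] with q hq hq'
  have h5 : q.1 = (q.1 * g0⁻¹) * g0 := by group
  have h6 : B.al (q.1 * g0⁻¹) (g0 • q.2) = 1 := B.al_K _ hq' _
  rw [h5, B.al_mul, h6, one_mul]
  exact hq

namespace Sus

theorem contSMul (S : Sus Γ F M) : ContinuousSMul (SLn p n) (F × M) := by
  refine ⟨?_⟩
  have h0 : (fun q : SLn p n × (F × M) => q.1 • q.2) =
      fun q : SLn p n × (F × M) => (q.1 • q.2.1, S.B.al q.1 q.2.1 • q.2.2) := by
    funext q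
    exact S.smul_def q.1 q.2
  rw [h0]
  refine (S.B.cont.comp (continuous_fst.prodMk (continuous_fst.comp continuous_snd))).prodMk ?_
  rw [continuous_iff_continuousAt]
  intro q0
  have h1 : Tendsto (fun q : SLn p n × (F × M) => (q.1, q.2.1)) (𝓝 q0) (𝓝 (q0.1, q0.2.1)) :=
    (continuous_fst.prodMk (continuous_fst.comp continuous_snd)).continuousAt
  have h2 := h1.eventually (S.B.al_near q0.1 q0.2.1)
  have h3 : (fun q : SLn p n × (F × M) => S.B.al q0.1 q0.2.1 • q.2.2) =ᶠ[𝓝 q0]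
      fun q : SLn p n × (F × M) => S.B.al q.1 q.2.1 • q.2.2 := by
    filter_upwards [h2] with q hq
    rw [show S.B.al q.1 q.2.1 = S.B.al q0.1 q0.2.1 from hq]
  refine ContinuousAt.congr ?_ h3
  exact ((S.V.smul_cont _).comp (continuous_snd.comp continuous_snd)).continuousAt

theorem J_ne (S : Sus Γ F M) (γ : Γ) (m : M) : S.V.J γ m ≠ 0 := by
  intro h
  have h1 := S.V.J_mul γ⁻¹ γ m
  rw [inv_mul_cancel, h, mul_zero] at h1
  exact S.V.J_one m h1

theorem C_mul (S : Sus Γ F M) (g g' : SLn p n) (x : F × M) :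
    S.C (g * g') x = S.C g (g' • x) * S.C g' x := by
  unfold Sus.C
  rw [S.B.al_mul, S.V.J_mul, S.fst_smul, S.snd_smul]

theorem fn_C_pos (S : Sus Γ F M) (g : SLn p n) (x : F × M) : 0 < fn (S.C g x) := by
  refine lt_of_le_of_ne (fn_nonneg _) fun h => ?_
  exact S.J_ne _ _ (fn_eq_zero.1 h.symm)

theorem L_one_nonneg (S : Sus Γ F M) (x : F × M) : 0 ≤ S.L 1 x := by
  have h1 : S.C 1 x = S.C 1 x * S.C 1 x := by
    have h2 := S.C_mul 1 1 x
    rw [mul_one, one_smul] at h2
    exact h2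
  have h2 : fn (S.C 1 x) ≤ fn (S.C 1 x) * fn (S.C 1 x) := by
    conv_lhs => rw [h1]
    exact fn_mul_le _ _
  have h3 := S.fn_C_pos 1 x
  have h4 : 1 ≤ fn (S.C 1 x) := by
    by_contra h5
    push Not at h5
    nlinarith
  exact Real.log_nonneg h4

theorem sub1 (S : Sus Γ F M) : Sub1 (fun (g : SLn p n) (x : F × M) => S.L g x) where
  cont := by
    have h1 : Continuous fun q : SLn p n × (F × M) => fn (S.C q.1 q.2) := by
      unfold fn
      refine Real.continuous_sqrt.comp (continuous_finset_sum _ fun i _ =>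
        continuous_finset_sum _ fun j _ => Continuous.pow ?_ 2)
      rw [continuous_iff_continuousAt]
      intro q0
      have h1 : Tendsto (fun q : SLn p n × (F × M) => (q.1, q.2.1)) (𝓝 q0)
          (𝓝 (q0.1, q0.2.1)) :=
        (continuous_fst.prodMk (continuous_fst.comp continuous_snd)).continuousAt
      have h2 := h1.eventually (S.B.al_near q0.1 q0.2.1)
      have h3 : (fun q : SLn p n × (F × M) => S.V.J (S.B.al q0.1 q0.2.1) q.2.2 i j) =ᶠ[𝓝 q0]
          fun q : SLn p n × (F × M) => S.C q.1 q.2 i j := by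
        filter_upwards [h2] with q hq
        unfold Sus.C
        rw [show S.B.al q.1 q.2.1 = S.B.al q0.1 q0.2.1 from hq]
      refine ContinuousAt.congr ?_ h3
      exact ((S.V.J_cont _ i j).comp (continuous_snd.comp continuous_snd)).continuousAt
    exact h1.log fun q => (S.fn_C_pos q.1 q.2).ne'
  sub := by
    intro g g' y
    change Real.log (fn (S.C (g * g') y)) ≤
      Real.log (fn (S.C g (g' • y))) + Real.log (fn (S.C g' y))
    rw [← Real.log_mul (S.fn_C_pos g (g' • y)).ne' (S.fn_C_pos g' y).ne']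
    refine Real.log_le_log (S.fn_C_pos _ _) ?_
    rw [S.C_mul]
    exact fn_mul_le _ _

theorem gb_iff (S : Sus Γ F M) (μ : ProbabilityMeasure (F × M)) (a : AZ n) (c : ℝ) :
    S.GB (μ : Measure (F × M)) a c ↔
      c ≤ kap (fun (g : SLn p n) (x : F × M) => S.L g x) (dgh p n a) (μ : Measure (F × M)) := by
  have hc := S.contSMul
  rw [le_kap_iff S.sub1]
  constructor
  · intro h T
    have h1 := h (T + 1)
    push_cast at h1
    exact h1
  · intro h T
    rcases T with _ | T
    · rw [Nat.cast_zero, mul_zero, pow_zero]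
      exact integral_nonneg fun x => S.L_one_nonneg x
    · push_cast
      exact h T

theorem ainv_iff (S : Sus Γ F M) (μ : Measure (F × M)) :
    S.AInv μ ↔ Pool.Agent.H23.DM.AInv p n μ := by
  constructor
  · intro h a
    obtain ⟨v, hv, hav⟩ := a.2
    have h1 := h (mkA v hv)
    have h2 : (fun y : F × M => a • y) = fun y : F × M => dgh p n (mkA v hv) • y := by
      funext y
      change (a : SLn p n) • y = dgh p n (mkA v hv) • y
      rw [dgh_apply, ex_mkA, hav]
    rw [h2]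
    exact h1
  · intro h a
    exact h ⟨dgh p n a, ex a, ex_sum a, rfl⟩

end Sus

theorem exists_ainv (S : Sus Γ F M) (a : AZ n) {c : ℝ} (hc : 0 < c)
    (h : ∀ T : ℕ, ∃ x : F × M, c * T ≤ S.L (dgh p n a ^ T) x) :
    ∃ μ : Measure (F × M), IsProbabilityMeasure μ ∧ S.AInv μ ∧ S.GB μ a c := by
  have hC := S.contSMul
  obtain ⟨ν, h1, h2⟩ := exists_start S.sub1 (⟨dgh p n a, ex a, ex_sum a, rfl⟩ : AA p n)
    (c := c) (fun T _ => h T)
  exact ⟨(ν : Measure (F × M)), inferInstance, (S.ainv_iff _).2 h1, (S.gb_iff ν a c).2 h2⟩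

private theorem AvgA_map_mul (S : Sus Γ F M) (g u : SLn p n) (ν : Measure (F × M)) :
    Measure.map (fun y : F × M => g • y) (Measure.map (fun y : F × M => u • y) ν) =
      Measure.map (fun y : F × M => (g * u) • y) ν := by
  rw [Measure.map_map (S.measurable_smul g) (S.measurable_smul u)]
  congr 1
  funext y
  simp only [Function.comp_apply, mul_smul]

/-- Invariance of a push-forward. -/
private theorem AvgA_inv_psh (S : Sus Γ F M) {g u g' : SLn p n} (e : g * u = u * g')
    {ν : Measure (F × M)} (hν : Inv g' ν) :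
    Inv g (ν.map fun y : F × M => u • y) := by
  refine ⟨S.measurable_smul g, ?_⟩
  rw [AvgA_map_mul S, e, ← AvgA_map_mul S, hν.map_eq]

private theorem AvgA_EE_comm {i j k l : Fin n} (hij : i ≠ j) (hkl : k ≠ l) (hjk : j ≠ k)
    (hli : l ≠ i) (x y : ℚ_[p]) :
    (EE hkl y : SLn p n) * EE hij x = EE hij x * EE hkl y := by
  apply Subtype.ext
  simp only [Matrix.SpecialLinearGroup.coe_mul, Matrix.SpecialLinearGroup.transvection_coe,
    mul_add, add_mul, mul_one, one_mul,
    Matrix.single_mul_single_of_ne _ _ _ _ hjk, Matrix.single_mul_single_of_ne _ _ _ _ hli,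
    add_zero]
  abel

private theorem AvgA_EE_zero {i j : Fin n} (hij : i ≠ j) :
    (EE hij (0 : ℚ_[p]) : SLn p n) = 1 := by
  apply Subtype.ext
  simp

private theorem AvgA_Q (S : Sus Γ F M) {μ : Measure (F × M)} {i j : Fin n} (hij : i ≠ j)
    (Q : Set (Fin n × Fin n)) (hQ : ∀ q ∈ Q, UInv p q.1 q.2 μ)
    (h1 : (j, i) ∉ Q) (h2 : ∀ l, (j, l) ∈ Q → (i, l) ∈ Q) (h3 : ∀ k, (k, i) ∈ Q → (k, j) ∈ Q)
    (x : ℚ_[p]) (q : Fin n × Fin n) (hq : q ∈ Q) :
    UInv p q.1 q.2 (μ.map fun y : F × M => (EE hij x : SLn p n) • y) := by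
  obtain ⟨k, l⟩ := q
  intro hkl y
  change k ≠ l at hkl
  change Inv (EE hkl y) _
  have hu : Inv (EE hkl y : SLn p n) μ := hQ _ hq hkl y
  by_cases hjk : j = k
  · subst hjk
    have hil : i ≠ l := by
      rintro rfl
      exact h1 hq
    have hv : Inv (EE hil (-(x * y)) : SLn p n) μ := hQ _ (h2 l hq) hil _
    refine AvgA_inv_psh S (g' := EE hkl y * EE hil (-(x * y))) ?_ (hu.mul hv)
    rw [← mul_assoc, EE_heis hij hkl hil x y, mul_assoc _ (EE hil (x * y)), ← EE_add,
      add_neg_cancel, AvgA_EE_zero, mul_one]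
  · by_cases hli : l = i
    · subst hli
      have hkj : k ≠ j := fun h => hjk h.symm
      have hv : Inv (EE hkj (y * x) : SLn p n) μ := hQ _ (h3 k hq) hkj _
      refine AvgA_inv_psh S (g' := EE hkl y * EE hkj (y * x)) ?_ (hu.mul hv)
      rw [← mul_assoc]
      exact EE_heis hkl hij hkj y x
    · exact AvgA_inv_psh S (AvgA_EE_comm hij hkl hjk hli x y) hu

/-- Averaging over the root group `U^(i,j)`, where `w ∈ A` is in the kernel of the root. -/
theorem average_root (S : Sus Γ F M) {μ : Measure (F × M)} [IsProbabilityMeasure μ]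
    (hA : S.AInv μ) {w : AZ n} {c : ℝ} (hg : S.GB μ w c) {i j : Fin n} (hij : i ≠ j)
    (hw : rt i j w = 0) (Q : Set (Fin n × Fin n)) (hQ : ∀ q ∈ Q, UInv p q.1 q.2 μ)
    (h1 : (j, i) ∉ Q) (h2 : ∀ l, (j, l) ∈ Q → (i, l) ∈ Q) (h3 : ∀ k, (k, i) ∈ Q → (k, j) ∈ Q) :
    ∃ μ' : Measure (F × M), IsProbabilityMeasure μ' ∧ S.AInv μ' ∧ S.GB μ' w c ∧
      UInv p i j μ' ∧ ∀ q ∈ Q, UInv p q.1 q.2 μ' := by
  have hC := S.contSMul
  obtain ⟨ν', hν'A, hν'U, hν'N⟩ := root_avg (⟨μ, inferInstance⟩ : ProbabilityMeasure (F × M))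
    ((S.ainv_iff μ).1 hA) hij
  have hwc : ∀ x : ℚ_[p], dgh p n w * EE hij x = EE hij x * dgh p n w := by
    intro x
    rw [dgh_conj w hij x, hw, neg_zero, zpow_zero, one_mul]
  let N : Set (ProbabilityMeasure (F × M)) :=
    {σ | Inv1 (fun y : F × M => dgh p n w • y) σ} ∩
      ({σ : ProbabilityMeasure (F × M) | c ≤ kap (fun (g : SLn p n) (x : F × M) => S.L g x)
          (dgh p n w) (σ : Measure (F × M))} ∩
        ⋂ (q : Fin n × Fin n) (_ : q ∈ Q) (h : q.1 ≠ q.2) (x : ℚ_[p]),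
          {σ | Inv1 (fun y : F × M => (EE h x : SLn p n) • y) σ})
  have hmem : ∀ σ : ProbabilityMeasure (F × M), σ ∈ N ↔
      Inv1 (fun y : F × M => dgh p n w • y) σ ∧
      c ≤ kap (fun (g : SLn p n) (x : F × M) => S.L g x) (dgh p n w) (σ : Measure (F × M)) ∧
      ∀ q ∈ Q, UInv p q.1 q.2 (σ : Measure (F × M)) := by
    intro σ
    simp only [N, Set.mem_inter_iff, Set.mem_iInter, Set.mem_ofPred_eq]
    rfl
  have hcl : IsClosed N := by
    refine (isClosed_inv (continuous_const_smul (dgh p n w))).inter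
      ((isClosed_kap S.sub1 _ _).inter ?_)
    refine isClosed_iInter fun q => isClosed_iInter fun _ => isClosed_iInter fun h =>
      isClosed_iInter fun x => ?_
    exact isClosed_inv (continuous_const_smul _)
  have hcv : Cvx N := by
    intro σ σ' τ t ha hb ht hτ
    rw [hmem] at ha hb ⊢
    refine ⟨cvx_inv (continuous_const_smul (dgh p n w)) σ σ' τ t ha.1 hb.1 ht hτ,
      cvx_kap S.sub1 _ c σ σ' τ t ha.2.1 hb.2.1 ht hτ, fun q hq h x => ?_⟩
    exact cvx_inv (continuous_const_smul (EE h x : SLn p n)) σ σ' τ t (ha.2.2 q hq h x)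
      (hb.2.2 q hq h x) ht hτ
  have hst : ∀ σ ∈ N, ∀ x : ℚ_[p],
      psh (fun y : F × M => (EE hij x : SLn p n) • y) (continuous_const_smul _) σ ∈ N := by
    intro σ hσ x
    rw [hmem] at hσ ⊢
    refine ⟨AvgA_inv_psh S (hwc x) hσ.1, ?_, fun q hq => ?_⟩
    · rw [kap_psh S.sub1 (hwc x) σ hσ.1]
      exact hσ.2.1
    · exact AvgA_Q S hij Q hσ.2.2 h1 h2 h3 x q hq
  have h4 := hν'N N hcl hcv hst ((hmem _).2 ⟨hA w, (S.gb_iff _ w c).1 hg, hQ⟩)
  rw [hmem] at h4
  refine ⟨(ν' : Measure (F × M)), inferInstance, (S.ainv_iff _).2 hν'A, (S.gb_iff ν' w c).2 h4.2.1,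
    fun _ x => hν'U x, h4.2.2⟩

end Pool.Agent.H67.LX
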