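import Mathlib
import Pool.Agent.H67.LX.Defs
import Pool.Agent.H73.PZ.R4
import Pool.Agent.H68.SU.Main

/-!
PART base (helper68, bridge by helper88).  Existence of the base (paper 0.2), from `H68.SU.exists_susp`.
-/

set_option linter.unusedSectionVars false

open MeasureTheory Filter Matrix
open scoped Topology
open Pool.Agent.H73.PZ
open Pool.Agent.H23.DM

namespace Pool.Agent.H67.LX

theorem exists_base {p : ℕ} [Fact p.Prime] {n : ℕ} (hn : 2 ≤ n) {Γ : Subgroup (SLn p n)}
    (hΓ : IsLattice Γ) :
    ∃ (F : Type) (_ : TopologicalSpace F) (_ : CompactSpace F) (_ : T2Space F)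
      (_ : SecondCountableTopology F) (_ : MeasurableSpace F) (_ : BorelSpace F)
      (_ : MulAction (SLn p n) F), Nonempty (Base Γ F) := by
  obtain ⟨F, i1, i2, i3, i4, i5, i6, i7, i8, h, al, f0, C, hS⟩ :=
    Pool.Agent.H68.SU.exists_susp hn hΓ
  refine ⟨F, i1, i2, i3, i4, i5, i6, i7, ⟨?_⟩⟩
  exact
    { al := al
      al_mul := hS.mul
      al_K := hS.one
      cont := i8.continuous_smul
      al_lc := fun g => by
        rw [IsLocallyConstant.iff_eventually_eq]
        intro f
        have h1 := hS.loc g f
        have h2 : Tendsto (fun f' : F => (g, f')) (𝓝 f) (𝓝 (g, f)) :=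
          (continuous_const.prodMk continuous_id).tendsto f
        exact h2.eventually h1
      trans := hS.hsp.trans
      orbit_open := hS.hsp.orb
      h := h
      prob := hS.hsp.prob
      inv := hS.hsp.inv
      full := fun U h1 h2 => (hS.hsp.supp U h1 h2).ne'
      pt := ⟨f0, C, hS.base⟩ }

end Pool.Agent.H67.LX
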