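import Mathlib
import Pool.Agent.H67.LX.Bas

/-!
Continuity of the action, density of the multiples of `p^(-2m) z` (helper67, proved).
-/

set_option linter.unusedSectionVars false

open MeasureTheory Filter Matrix
open scoped Topology BoundedContinuousFunction
open Pool.Agent.H73.PZ
open Pool.Agent.H23.DM

namespace Pool.Agent.H67.LX

variable {p : ℕ} [Fact p.Prime] {n : ℕ} {Γ : Subgroup (SLn p n)} {F M : Type}
    [TopologicalSpace F] [CompactSpace F] [T2Space F] [SecondCountableTopology F]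
    [MeasurableSpace F] [BorelSpace F] [MulAction (SLn p n) F]
    [TopologicalSpace M] [CompactSpace M] [T2Space M] [SecondCountableTopology M]
    [MeasurableSpace M] [BorelSpace M] [MulAction Γ M]
    [MulAction (SLn p n) (F × M)] [MulAction (AZ n) (F × M)]

namespace Sus

theorem continuous_smul2 (S : Sus Γ F M) :
    Continuous fun q : SLn p n × (F × M) => q.1 • q.2 := by
  rw [continuous_iff_continuousAt]
  rintro ⟨g₀, x₀⟩
  have hU : IsOpen {g : SLn p n | g * g₀⁻¹ ∈ KM p n 2} :=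
    (isOpen_KM (p := p) (n := n) 2).preimage (continuous_id.mul continuous_const)
  have hV : IsOpen {f : F | S.B.al g₀ f = S.B.al g₀ x₀.1} := (S.B.al_lc g₀).isOpen_fiber _
  have h1 : ∀ᶠ q : SLn p n × (F × M) in 𝓝 (g₀, x₀), q.1 ∈ {g : SLn p n | g * g₀⁻¹ ∈ KM p n 2} :=
    continuous_fst.continuousAt.eventually (hU.mem_nhds (by
      change g₀ * g₀⁻¹ ∈ KM p n 2
      rw [mul_inv_cancel]
      exact one_mem _))
  have h2 : ∀ᶠ q : SLn p n × (F × M) in 𝓝 (g₀, x₀),
      q.2.1 ∈ {f : F | S.B.al g₀ f = S.B.al g₀ x₀.1} :=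
    (continuous_fst.comp continuous_snd).continuousAt.eventually (hV.mem_nhds rfl)
  have h3 : (fun q : SLn p n × (F × M) => q.1 • q.2) =ᶠ[𝓝 (g₀, x₀)]
      fun q => (q.1 • q.2.1, S.B.al g₀ x₀.1 • q.2.2) := by
    filter_upwards [h1, h2] with q hq1 hq2
    rw [S.smul_def]
    have h4 : S.B.al q.1 q.2.1 = S.B.al g₀ x₀.1 := by
      have h5 : q.1 = q.1 * g₀⁻¹ * g₀ := by group
      rw [h5, S.B.al_mul, S.B.al_K _ hq1, one_mul]
      exact hq2
    rw [h4]
  refine ContinuousAt.congr ?_ h3.symm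
  have h6 : Continuous fun q : SLn p n × (F × M) => (q.1 • q.2.1 : F) :=
    S.B.cont.comp (continuous_fst.prodMk (continuous_fst.comp continuous_snd))
  have h7 : Continuous fun q : SLn p n × (F × M) => (S.B.al g₀ x₀.1 • q.2.2 : M) :=
    (S.V.smul_cont _).comp (continuous_snd.comp continuous_snd)
  exact (h6.prodMk h7).continuousAt

end Sus

theorem Inv.integral {X : Type} [TopologicalSpace X] [MeasurableSpace X] [BorelSpace X]
    [MulAction (SLn p n) X] {μ : Measure X} {g : SLn p n} (hg : Inv g μ) {f : X → ℝ}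
    (hf : AEStronglyMeasurable f μ) : ∫ x, f (g • x) ∂μ = ∫ x, f x ∂μ := by
  have h1 := hg.map_eq
  conv_rhs => rw [← h1]
  rw [integral_map hg.measurable.aemeasurable (by rw [h1]; exact hf)]

/-- The multiples `N p^(-2m) z` are dense. -/
theorem dense_mul {p : ℕ} [Fact p.Prime] {z : ℚ_[p]} (hz : z ≠ 0) (x : ℚ_[p]) (l : ℕ) :
    ∃ m N : ℕ, ‖x - (N : ℚ_[p]) * ((p : ℚ_[p]) ^ (-(2 * (m : ℤ))) * z)‖ ≤ (p : ℝ) ^ (-(l : ℤ)) := by
  have hp1 : (1 : ℝ) < p := by exact_mod_cast (Fact.out : p.Prime).one_lt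
  have hp0 : (0 : ℝ) < p := by linarith
  have hz0 : 0 < ‖z‖ := norm_pos_iff.2 hz
  obtain ⟨m, hm⟩ : ∃ m : ℕ, ‖x‖ / ‖z‖ < (p : ℝ) ^ m := pow_unbounded_of_one_lt _ hp1
  have hm2 : ‖x‖ / ‖z‖ ≤ (p : ℝ) ^ (2 * m) :=
    hm.le.trans (pow_le_pow_right₀ hp1.le (by omega))
  have hpn : ∀ k : ℤ, ‖(p : ℚ_[p]) ^ k‖ = (p : ℝ) ^ (-k) := fun k => norm_p_zpow k
  set y : ℚ_[p] := x * (p : ℚ_[p]) ^ (2 * (m : ℤ)) * z⁻¹ with hy
  have hyn : ‖y‖ ≤ 1 := by
    rw [hy, norm_mul, norm_mul, hpn, norm_inv]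
    have h1 : ‖x‖ * (p : ℝ) ^ (-(2 * (m : ℤ))) * ‖z‖⁻¹ = ‖x‖ / ‖z‖ / (p : ℝ) ^ (2 * m) := by
      rw [_root_.zpow_neg]
      have : (p : ℝ) ^ (2 * (m : ℤ)) = (p : ℝ) ^ (2 * m) := by
        rw [← zpow_natCast]; push_cast; rfl
      rw [this]
      field_simp
    rw [h1, div_le_one (by positivity)]
    exact hm2
  obtain ⟨n, hn⟩ : ∃ n : ℕ, (p : ℝ) ^ (2 * m) * ‖z‖ * (p : ℝ) ^ l < (p : ℝ) ^ n :=
    pow_unbounded_of_one_lt _ hp1
  obtain ⟨Y, hY⟩ : ∃ Y : ℤ_[p], (Y : ℚ_[p]) = y := ⟨⟨y, hyn⟩, rfl⟩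
  refine ⟨m, Y.appr n, ?_⟩
  have h2 : ‖Y - (Y.appr n : ℤ_[p])‖ ≤ (p : ℝ) ^ (-(n : ℤ)) :=
    (PadicInt.norm_le_pow_iff_mem_span_pow _ _).2 (PadicInt.appr_spec n _)
  have h3 : ‖y - ((Y.appr n : ℕ) : ℚ_[p])‖ ≤ (p : ℝ) ^ (-(n : ℤ)) := by
    rw [← hY]
    have h7 := h2
    rw [PadicInt.norm_def] at h7
    push_cast at h7
    exact h7
  have h4 : x - ((Y.appr n : ℕ) : ℚ_[p]) * ((p : ℚ_[p]) ^ (-(2 * (m : ℤ))) * z) =
      (y - ((Y.appr n : ℕ) : ℚ_[p])) * ((p : ℚ_[p]) ^ (-(2 * (m : ℤ))) * z) := by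
    rw [sub_mul]
    congr 1
    rw [hy]
    have h5 : (p : ℚ_[p]) ^ (2 * (m : ℤ)) * (p : ℚ_[p]) ^ (-(2 * (m : ℤ))) = 1 := by
      rw [← zpow_add₀ pne, add_neg_cancel, zpow_zero]
    calc x = x * ((p : ℚ_[p]) ^ (2 * (m : ℤ)) * (p : ℚ_[p]) ^ (-(2 * (m : ℤ)))) * (z⁻¹ * z) := by
          rw [h5, inv_mul_cancel₀ hz]; ring
      _ = _ := by ring
  rw [h4, norm_mul, norm_mul, hpn, neg_neg]
  have h6 : (p : ℝ) ^ (2 * (m : ℤ)) = (p : ℝ) ^ (2 * m) := by
    rw [← zpow_natCast]; push_cast; rfl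
  rw [h6]
  calc ‖y - ((Y.appr n : ℕ) : ℚ_[p])‖ * ((p : ℝ) ^ (2 * m) * ‖z‖)
      ≤ (p : ℝ) ^ (-(n : ℤ)) * ((p : ℝ) ^ (2 * m) * ‖z‖) := by gcongr
    _ ≤ (p : ℝ) ^ (-(l : ℤ)) := by
        rw [_root_.zpow_neg, _root_.zpow_neg, zpow_natCast, zpow_natCast]
        rw [inv_mul_le_iff₀ (by positivity)]
        rw [← div_eq_mul_inv, le_div_iff₀ (by positivity)]
        exact hn.le

theorem approx_ind {X : Type} [TopologicalSpace X] [CompactSpace X] [T2Space X]
    [SecondCountableTopology X] [MeasurableSpace X] [BorelSpace X] (μ : Measure X)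
    [IsProbabilityMeasure μ] {E : Set X} (hE : MeasurableSet E) {ε : ℝ} (hε : 0 < ε) :
    ∃ f : X → ℝ, Continuous f ∧ (∀ x, 0 ≤ f x ∧ f x ≤ 1) ∧
      ∫ x, |f x - E.indicator (fun _ => (1 : ℝ)) x| ∂μ ≤ ε := by
  have : TopologicalSpace.MetrizableSpace X :=
    TopologicalSpace.metrizableSpace_of_t3_secondCountable X
  have hint : Integrable (E.indicator fun _ => (1 : ℝ)) μ := (integrable_const 1).indicator hE
  obtain ⟨g, hg, hg'⟩ := hint.exists_boundedContinuous_integral_sub_le hε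
  refine ⟨fun x => max 0 (min 1 (g x)), continuous_const.max (continuous_const.min g.continuous),
    fun x => ⟨le_max_left _ _, max_le zero_le_one (min_le_left _ _)⟩, ?_⟩
  refine le_trans (integral_mono_of_nonneg (Eventually.of_forall fun x => abs_nonneg _)
    (hint.sub hg').norm (Eventually.of_forall fun x => ?_)) hg
  change |max 0 (min 1 (g x)) - E.indicator (fun _ => (1 : ℝ)) x| ≤
    ‖E.indicator (fun _ => (1 : ℝ)) x - g x‖
  rw [Real.norm_eq_abs, abs_sub_comm (E.indicator (fun _ => (1 : ℝ)) x)]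
  by_cases hx : x ∈ E
  · rw [Set.indicator_of_mem hx]
    rcases le_total 1 (g x) with h | h
    · rw [min_eq_left h, max_eq_right zero_le_one, sub_self, abs_zero]
      exact abs_nonneg _
    · rw [min_eq_right h]
      rcases le_total 0 (g x) with h' | h'
      · rw [max_eq_right h']
      · rw [max_eq_left h', abs_of_nonpos (by norm_num), abs_of_nonpos (by linarith)]
        linarith
  · rw [Set.indicator_of_notMem hx]
    rcases le_total 1 (g x) with h | h
    · rw [min_eq_left h, max_eq_right zero_le_one, abs_of_nonneg (by norm_num),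
        abs_of_nonneg (by linarith)]
      linarith
    · rw [min_eq_right h]
      rcases le_total 0 (g x) with h' | h'
      · rw [max_eq_right h']
      · rw [max_eq_left h', sub_self, abs_zero]
        exact abs_nonneg _

theorem inv_of_integrals {X : Type} [TopologicalSpace X] [CompactSpace X] [T2Space X]
    [SecondCountableTopology X] [MeasurableSpace X] [BorelSpace X] (μ : Measure X)
    [IsProbabilityMeasure μ] {h : X → X} (hc : Continuous h)
    (hi : ∀ f : X → ℝ, Continuous f → ∫ x, f (h x) ∂μ = ∫ x, f x ∂μ) :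
    MeasurePreserving h μ μ := by
  have : TopologicalSpace.MetrizableSpace X :=
    TopologicalSpace.metrizableSpace_of_t3_secondCountable X
  refine ⟨hc.measurable, ?_⟩
  have : IsProbabilityMeasure (μ.map h) := Measure.isProbabilityMeasure_map hc.aemeasurable
  refine ext_of_forall_integral_eq_of_IsFiniteMeasure fun f => ?_
  rw [integral_map hc.aemeasurable f.continuous.aestronglyMeasurable]
  exact hi f f.continuous

theorem continuous_EE {p : ℕ} [Fact p.Prime] {n : ℕ} {i j : Fin n} (h : i ≠ j) :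
    Continuous fun x : ℚ_[p] => (EE h x : SLn p n) := by
  refine Continuous.subtype_mk ?_ _
  refine continuous_pi fun a => continuous_pi fun b => ?_
  have : (fun x : ℚ_[p] => (Matrix.transvection i j x) a b) = fun x =>
      (1 : Matrix (Fin n) (Fin n) ℚ_[p]) a b + if i = a ∧ j = b then x else 0 := by
    funext x
    rw [Matrix.transvection, Matrix.add_apply, Matrix.single_apply]
  change Continuous fun x : ℚ_[p] => (Matrix.transvection i j x) a b
  rw [this]
  refine continuous_const.add ?_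
  split_ifs
  · exact continuous_id
  · exact continuous_const

end Pool.Agent.H67.LX
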