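import Mathlib
import Pool.Agent.H67.LX.Cnt
import Pool.Agent.H23.DM.Mau

/-!
PART mautner (helper67; proved by helper74 from helper23's `tc_fun` and `mautner`).  Paper h23 0.4, 0.5.

`transl_cont`: `s` is approximated in probability by a continuous function; `u y → y` uniformly as `u → 1`; `μ` is invariant
under `u`.
`mautner`: `u_x E △ E` has the same measure as `u_{x'} E △ E` with `x' = p^(k e) x → 0`.
-/

set_option linter.unusedSectionVars false

open MeasureTheory Filter Matrix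
open scoped Topology
open Pool.Agent.H73.PZ
open Pool.Agent.H23.DM

namespace Pool.Agent.H67.LX

variable {p : ℕ} [Fact p.Prime] {n : ℕ} {Γ : Subgroup (SLn p n)} {F M : Type}
    [TopologicalSpace F] [CompactSpace F] [T2Space F] [SecondCountableTopology F]
    [MeasurableSpace F] [BorelSpace F] [MulAction (SLn p n) F]
    [TopologicalSpace M] [CompactSpace M] [T2Space M] [SecondCountableTopology M]
    [MeasurableSpace M] [BorelSpace M] [MulAction Γ M]
    [MulAction (SLn p n) (F × M)] [MulAction (AZ n) (F × M)]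

private theorem Mau_csmul (S : Sus Γ F M) : ContinuousSMul (SLn p n) (F × M) :=
  ⟨S.continuous_smul2⟩

theorem transl_cont (S : Sus Γ F M) {μ : Measure (F × M)} [IsProbabilityMeasure μ]
    {i j : Fin n} (hij : i ≠ j) (hU : UInv p i j μ) {s : F × M → ℝ} (hs : Measurable s) :
    ∀ ε : ℝ, 0 < ε → ∃ l : ℕ, ∀ x : ℚ_[p], ‖x‖ ≤ (p : ℝ) ^ (-(l : ℤ)) →
      μ {y | ε ≤ |s (EE hij x • y) - s y|} ≤ ENNReal.ofReal ε := by
  intro ε hε
  have := Mau_csmul S
  have h1 := tc_fun μ hij (fun x => hU hij x) hs (half_pos hε)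
  have h2 := (ENNReal.tendsto_nhds_zero.1 h1) (ENNReal.ofReal ε) (ENNReal.ofReal_pos.2 hε)
  rw [Metric.eventually_nhds_iff] at h2
  obtain ⟨δ, hδ, h2⟩ := h2
  have hp1 : (1 : ℝ) < p := by exact_mod_cast (Fact.out : p.Prime).one_lt
  have hp0 : (0 : ℝ) < p := by linarith
  obtain ⟨l, hl⟩ : ∃ l : ℕ, δ⁻¹ < (p : ℝ) ^ l := pow_unbounded_of_one_lt _ hp1
  refine ⟨l, fun x hx => ?_⟩
  have h3 : dist x 0 < δ := by
    rw [dist_zero_right]
    refine lt_of_le_of_lt hx ?_
    rw [_root_.zpow_neg, zpow_natCast]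
    rw [inv_lt_comm₀ (by positivity) hδ]
    exact hl
  refine le_trans (measure_mono fun y hy => ?_) (h2 h3)
  have hy' : ε ≤ |s (EE hij x • y) - s y| := hy
  change ε / 2 < |s (EE hij x • y) - s y|
  linarith

theorem mautner (S : Sus Γ F M) {μ : Measure (F × M)} [IsProbabilityMeasure μ]
    {i j : Fin n} (hU : UInv p i j μ) {a : AZ n} (ha : Inv (dgh p n a) μ) (hr : rt i j a ≠ 0)
    {E : Set (F × M)} (hE : MeasurableSet E) (h : SInv μ (dgh p n a) E) (hij : i ≠ j)
    (x : ℚ_[p]) : SInv μ (EE hij x) E := by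
  have := Mau_csmul S
  have h1 : ex a i ≠ ex a j := by
    intro h2
    apply hr
    unfold rt
    rw [h2, sub_self]
  exact Pool.Agent.H23.DM.mautner μ hij (fun y => hU hij y) (ex_sum a) h1 ha hE h x

end Pool.Agent.H67.LX
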