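import Mathlib
import Pool.Agent.H67.LX.Mau
import Pool.Agent.H23.BR.Mx

/-!
PART averages (helper23; proved).  Paper (S3), ergodic choice: on the compact convex set of the probability measures
invariant under `A` and the `U^q`, `q ∈ Q`, maximise `κ_b`, then the strictly convex function `∑ 2^(-i) (∫ g_i dμ)²`: an
extreme point of the face; by Mautner it is ergodic under `A`.
-/

set_option linter.unusedSectionVars false

open MeasureTheory Filter Matrix
open scoped Topology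
open Pool.Agent.H73.PZ
open Pool.Agent.H23.DM

namespace Pool.Agent.H67.LX

variable {p : ℕ} [Fact p.Prime] {n : ℕ} {Γ : Subgroup (SLn p n)} {F M : Type}
    [TopologicalSpace F] [CompactSpace F] [T2Space F] [SecondCountableTopology F]
    [MeasurableSpace F] [BorelSpace F] [MulAction (SLn p n) F]
    [TopologicalSpace M] [CompactSpace M] [T2Space M] [SecondCountableTopology M]
    [MeasurableSpace M] [BorelSpace M] [MulAction Γ M]
    [MulAction (SLn p n) (F × M)] [MulAction (AZ n) (F × M)]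

theorem rt_tA {i j : Fin n} (h : i ≠ j) : rt i j (tA i j) = 2 := by
  unfold rt tA
  rw [ex_mkA]
  simp [h, h.symm]

theorem exists_ergodic (S : Sus Γ F M) (Q : Set (Fin n × Fin n)) {μ : Measure (F × M)}
    [IsProbabilityMeasure μ] (hA : S.AInv μ) (hQ : ∀ q ∈ Q, q.1 ≠ q.2 ∧ UInv p q.1 q.2 μ)
    {b : AZ n} {c : ℝ} (hc : 0 < c) (hg : S.GB μ b c) :
    ∃ μ' : Measure (F × M), Sys (AZ n) (F × M) μ' ∧ S.AInv μ' ∧
      (∀ q ∈ Q, UInv p q.1 q.2 μ') ∧ S.GB μ' b c := by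
  have hcs := Pool.Agent.H23.BR.csX S
  let H : Set (SLn p n) := {g | g ∈ AA p n ∨ ∃ (q : Fin n × Fin n) (_ : q ∈ Q) (h : q.1 ≠ q.2)
    (x : ℚ_[p]), g = EE h x}
  have hHa : ∀ a : AZ n, dgh p n a ∈ H := fun a => Or.inl (Pool.Agent.H23.BR.toA p a).2
  have hHu : ∀ q ∈ Q, ∀ (h : q.1 ≠ q.2) (x : ℚ_[p]), (EE h x : SLn p n) ∈ H :=
    fun q hq h x => Or.inr ⟨q, hq, h, x, rfl⟩
  obtain ⟨σ, hσ1, hσ2, hσ3⟩ := Pool.Agent.H23.BR.exists_maxc (Pool.Agent.H23.BR.sub1 S) H
    (dgh p n b) (hHa b) c ⟨⟨μ, inferInstance⟩, by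
      rintro g (hg' | ⟨q, hq, h, x, rfl⟩)
      · obtain ⟨a, rfl⟩ := Pool.Agent.H23.BR.exists_AZ' hg'
        exact hA a
      · exact (hQ q hq).2 h x, (Pool.Agent.H23.BR.GB_iff S ⟨μ, inferInstance⟩ b c).1 hg⟩
  have hA' : S.AInv (σ : Measure (F × M)) := fun a => hσ1 _ (hHa a)
  have hU' : ∀ q ∈ Q, UInv p q.1 q.2 (σ : Measure (F × M)) := fun q hq h x =>
    hσ1 _ (hHu q hq h x)
  have hf : ∀ a : AZ n, (fun x : F × M => a • x) = fun x : F × M => dgh p n a • x := fun a => by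
    funext x
    exact S.smul_A a x
  refine ⟨σ, ⟨inferInstance, fun a => ?_, fun E hE hEa => hσ3 E hE ?_⟩, hA', hU',
    (Pool.Agent.H23.BR.GB_iff S σ b c).2 hσ2⟩
  · rw [hf a]
    exact hA' a
  · rintro g (hg' | ⟨q, hq, h, x, rfl⟩)
    · obtain ⟨a, rfl⟩ := Pool.Agent.H23.BR.exists_AZ' hg'
      rw [← hf a]
      exact hEa a
    · have h1 : SInv (σ : Measure (F × M)) (dgh p n (tA q.1 q.2)) E := by
        unfold SInv
        rw [← hf]
        exact hEa _
      exact mautner S (hU' q hq) (hA' _) (by rw [rt_tA h]; norm_num) hE h1 h x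

end Pool.Agent.H67.LX
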