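import Mathlib
import Pool.Agent.H67.LX.Rate
import Pool.Agent.H23.DM.Co2
import Pool.Agent.H23.DM.Sp5

/-!
PART rates (helper93).  Paper h23 2.0-2.5 (soft Oseledets splitting), with the twist by a character.

`Eqv c s`: the matrix function `s` commutes with the cocycle.  `LeM c s a r`: `fn (D (a^t) x * s x) ≤ exp (r t)` with
probability tending to one.
-/

set_option linter.unusedSectionVars false

open MeasureTheory Filter Matrix
open scoped Topology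
open Pool.Agent.H73.PZ
open Pool.Agent.H23.DM

namespace Pool.Agent.H67.LX

/-- A measurable matrix function commuting with the cocycle. -/
def Eqv {A X ι : Type} [CommGroup A] [MulAction A X] [Fintype ι] [DecidableEq ι]
    [MeasurableSpace X] {μ : Measure X} (c : Coc A X ι μ) (s : X → Matrix ι ι ℝ) : Prop :=
  MM s ∧ (∀ a, ∀ᵐ x ∂μ, s (a • x) * c.D a x = c.D a x * s x) ∧
    (∀ᵐ x ∂μ, c.D 1 x * s x = s x) ∧ ∀ᵐ x ∂μ, s x * s x = s x

/-- Growth of the cocycle on the range of `s`. -/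
def LeM {A X ι : Type} [CommGroup A] [MulAction A X] [Fintype ι] [DecidableEq ι]
    [MeasurableSpace X] {μ : Measure X} (c : Coc A X ι μ) (s : X → Matrix ι ι ℝ) (a : A)
    (r : ℝ) : Prop :=
  WP μ fun t => {x | Real.exp (r * t) < fn (c.D (a ^ t) x * s x)}

/-- Splitting in an unstable and a centre-stable part. -/
theorem split2 {A X ι : Type} [CommGroup A] [MulAction A X] [Fintype ι] [DecidableEq ι]
    [MeasurableSpace X] {μ : Measure X} (hE : Sys A X μ) (c : Coc A X ι μ) (b : A) :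
    ∃ s : X → Matrix ι ι ℝ, Eqv c s ∧ (∃ δ : ℝ, 0 < δ ∧ LeM c s b⁻¹ (-δ)) ∧
      ∀ ε : ℝ, 0 < ε → LeM c (fun x => c.D 1 x - s x) b ε := by
  have : IsProbabilityMeasure μ := hE.prob
  obtain ⟨s⟩ := Coc.exists_split2 hE c b
  have h1 : ∀ᵐ x ∂μ, s.u x * s.u x = s.u x := by
    filter_upwards [s.Su, s.uS] with x g1 g2
    nth_rewrite 2 [← g1]
    rw [← Matrix.mul_assoc, g2, g1]
  have h2 : ∀ᵐ x ∂μ, c.D 1 x * s.u x = s.u x := by
    filter_upwards [s.S.le, s.Su] with x g1 g2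
    rw [← g2, ← Matrix.mul_assoc, g1]
  refine ⟨s.u, ⟨s.mu, fun a => ?_, h2, h1⟩, ?_, fun ε hε => ?_⟩
  · filter_upwards [s.eu a] with x hx
    exact hx.symm
  · obtain ⟨δ, hδ, h⟩ := s.dn
    refine ⟨δ / 2, by linarith, ?_⟩
    exact Coc.Rt_congr s.Su (Coc.Rt_mul_right (c := c) s.mu (by linarith : -δ < -(δ / 2)) h)
  · have h := Coc.Rt_congr s.Tv (Coc.Rt_mul_right (c := c) s.mv (by linarith : ε / 2 < ε)
      (s.up (ε / 2) (by linarith)))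
    refine Coc.Rt_congr ?_ h
    filter_upwards [s.sum] with x hx
    rw [← hx, add_sub_cancel_left]

/-- Splitting in the parts with exponents `< 0`, `= 0`, in `(0, Λ]` and `> Λ`. -/
theorem split4 {A X ι : Type} [CommGroup A] [MulAction A X] [Fintype ι] [DecidableEq ι]
    [MeasurableSpace X] {μ : Measure X} (hE : Sys A X μ) (c : Coc A X ι μ) (χ : A → ℝ)
    (hχ : ∀ a b, χ (a * b) = χ a + χ b) {b : A} (hb : χ b = 1) {Λ : ℝ} (hΛ : 0 ≤ Λ) :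
    ∃ s₁ s₂ s₃ s₄ : X → Matrix ι ι ℝ, (Eqv c s₁ ∧ Eqv c s₂ ∧ Eqv c s₃ ∧ Eqv c s₄) ∧
      (∀ᵐ x ∂μ, s₁ x + s₂ x + s₃ x + s₄ x = c.D 1 x) ∧
      ∃ δ : ℝ, 0 < δ ∧ LeM c s₁ b (-δ) ∧ (∀ ε : ℝ, 0 < ε → LeM c s₂ b ε ∧ LeM c s₂ b⁻¹ ε) ∧
        LeM c s₃ b⁻¹ (-δ) ∧ (∀ ε : ℝ, 0 < ε → LeM c s₃ b (Λ + ε)) ∧
        LeM c s₄ b⁻¹ (-(Λ + δ)) := by
  have _ := hΛ
  obtain ⟨s⟩ := Coc.exists_split4 hE c b ⟨χ, hχ⟩ hb Λ
  have hone : ∀ᵐ x ∂μ, c.D 1 x * s.m x = s.m x ∧ c.D 1 x * s.z x = s.z x ∧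
      c.D 1 x * s.p x = s.p x ∧ c.D 1 x * s.g x = s.g x := by
    filter_upwards [s.sum, s.mz, s.mp, s.mg, s.zp, s.zg, s.pg, s.em.idem, s.ez.idem, s.ep.idem,
      s.eg.idem] with x h0 h1 h2 h3 h4 h5 h6 k1 k2 k3 k4
    rw [← h0]
    simp only [Matrix.add_mul]
    rw [h1.1, h1.2, h2.1, h2.2, h3.1, h3.2, h4.1, h4.2, h5.1, h5.2, h6.1, h6.2, k1, k2, k3, k4]
    simp
  obtain ⟨δ1, hδ1, r1⟩ := s.rm
  obtain ⟨δ2, hδ2, r2⟩ := s.rp
  obtain ⟨δ3, hδ3, r3⟩ := s.rg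
  refine ⟨s.m, s.z, s.p, s.g, ⟨⟨s.em.meas, fun a => ?_, ?_, s.em.idem⟩,
    ⟨s.ez.meas, fun a => ?_, ?_, s.ez.idem⟩, ⟨s.ep.meas, fun a => ?_, ?_, s.ep.idem⟩,
    ⟨s.eg.meas, fun a => ?_, ?_, s.eg.idem⟩⟩, s.sum, min δ1 (min δ2 δ3),
    lt_min hδ1 (lt_min hδ2 hδ3), ?_, fun ε hε => ⟨s.rz ε hε, s.rz' ε hε⟩, ?_, s.rp', ?_⟩
  · filter_upwards [s.em.comm a] with x hx
    exact hx.symm
  · filter_upwards [hone] with x hx
    exact hx.1
  · filter_upwards [s.ez.comm a] with x hx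
    exact hx.symm
  · filter_upwards [hone] with x hx
    exact hx.2.1
  · filter_upwards [s.ep.comm a] with x hx
    exact hx.symm
  · filter_upwards [hone] with x hx
    exact hx.2.2.1
  · filter_upwards [s.eg.comm a] with x hx
    exact hx.symm
  · filter_upwards [hone] with x hx
    exact hx.2.2.2
  · exact Coc.Rt_mono r1 (neg_le_neg (min_le_left _ _))
  · exact Coc.Rt_mono r2 (neg_le_neg ((min_le_right _ _).trans (min_le_left _ _)))
  · have h := (min_le_right δ1 (min δ2 δ3)).trans (min_le_right δ2 δ3)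
    exact Coc.Rt_mono r3 (neg_le_neg (by linarith))

end Pool.Agent.H67.LX
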