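import Mathlib
import Pool.Agent.H67.LX.Mau
import Pool.Agent.H67.LX.Split
import Pool.Agent.H93.DI.I3

/-!
PART invariant sections (helper93).  Paper (I3): measurable sections that commute with the jet cocycle over `A` commute
with `U^(i,j)` for a root in `Σ*`.
-/

set_option linter.unusedSectionVars false

open MeasureTheory Filter Matrix
open scoped Topology
open Pool.Agent.H73.PZ
open Pool.Agent.H23.DM

namespace Pool.Agent.H67.LX

variable {p : ℕ} [Fact p.Prime] {n : ℕ} {Γ : Subgroup (SLn p n)} {F M : Type}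
    [TopologicalSpace F] [CompactSpace F] [T2Space F] [SecondCountableTopology F]
    [MeasurableSpace F] [BorelSpace F] [MulAction (SLn p n) F]
    [TopologicalSpace M] [CompactSpace M] [T2Space M] [SecondCountableTopology M]
    [MeasurableSpace M] [BorelSpace M] [MulAction Γ M]
    [MulAction (SLn p n) (F × M)] [MulAction (AZ n) (F × M)]

namespace Sus

/-- the cocycle at the identity -/
theorem al_one (S : Sus Γ F M) (f : F) : S.B.al 1 f = 1 := S.B.al_K 1 (one_mem _) f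

theorem al_fin (S : Sus Γ F M) (g : SLn p n) : (Set.range (S.B.al g)).Finite :=
  (S.B.al_lc g).range_finite

/-- measurability of functions of the cocycle and of the fibre point -/
theorem meas_al (S : Sus Γ F M) (g : SLn p n) {G : Γ → M → ℝ} (hG : ∀ γ, Measurable (G γ)) :
    Measurable fun x : F × M => G (S.B.al g x.1) x.2 := by
  have hfin := S.al_fin g
  intro U hU
  have h1 : (fun x : F × M => G (S.B.al g x.1) x.2) ⁻¹' U =
      ⋃ γ ∈ Set.range (S.B.al g), ((S.B.al g ⁻¹' {γ}) ×ˢ (G γ ⁻¹' U)) := by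
    ext x
    simp only [Set.mem_preimage, Set.mem_iUnion, Set.mem_prod, Set.mem_singleton_iff, exists_prop,
      Set.mem_range]
    constructor
    · intro hx
      exact ⟨S.B.al g x.1, ⟨x.1, rfl⟩, rfl, hx⟩
    · rintro ⟨γ, _, h2, h3⟩
      rw [h2]
      exact h3
  rw [h1]
  refine hfin.measurableSet_biUnion fun γ _ => ?_
  exact ((S.B.al_lc g).isOpen_fiber γ).measurableSet.prod (hG γ hU)

theorem D_mul (S : Sus Γ F M) (r : ℕ) (hr : 1 ≤ r) (g h : SLn p n) (x : F × M) :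
    S.D r hr (g * h) x = S.D r hr g (h • x) * S.D r hr h x := by
  unfold Sus.D
  rw [S.B.al_mul, (S.V.jet r hr).mul, S.smul_def]

theorem D_one (S : Sus Γ F M) (r : ℕ) (hr : 1 ≤ r) (x : F × M) :
    S.D r hr (1 : SLn p n) x = 1 := by
  unfold Sus.D
  rw [S.al_one, (S.V.jet r hr).one]

theorem D_K (S : Sus Γ F M) (r : ℕ) (hr : 1 ≤ r) {k : SLn p n} (hk : k ∈ KM p n 2) (x : F × M) :
    S.D r hr k x = 1 := by
  unfold Sus.D
  rw [S.B.al_K k hk, (S.V.jet r hr).one]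

/-- The cocycle at a translate by a small element. -/
theorem D_transl (S : Sus Γ F M) (r : ℕ) (hr : 1 ≤ r) {g k k' : SLn p n} (hk : k ∈ KM p n 2)
    (hk' : k' ∈ KM p n 2) (h : g * k = k' * g) (x : F × M) :
    S.D r hr g (k • x) = S.D r hr g x := by
  have h1 := S.D_mul r hr g k x
  rw [h, S.D_mul, S.D_K r hr hk', S.D_K r hr hk, one_mul, mul_one] at h1
  exact h1.symm

end Sus

/-- The jet cocycle as a cocycle over the action of `A`. -/
noncomputable def jc (S : Sus Γ F M) {μ : Measure (F × M)} (hE : Sys (AZ n) (F × M) μ) (r : ℕ)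
    (hr : 1 ≤ r) : Coc (AZ n) (F × M) (S.V.jet r hr).ι μ where
  D a x := S.D r hr (dgh p n a) x
  meas a := by
    have _ := hE
    intro i j
    exact S.meas_al (dgh p n a) (G := fun γ m => (S.V.jet r hr).D γ m i j)
      fun γ => (S.V.jet r hr).meas γ i j
  bdd a := by
    choose C hC using (S.V.jet r hr).bdd
    have hfin := S.al_fin (dgh p n a)
    refine ⟨∑ γ ∈ hfin.toFinset, |C γ|, Eventually.of_forall fun x => ?_⟩
    refine (hC (S.B.al (dgh p n a) x.1) x.2).trans ((le_abs_self _).trans ?_)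
    exact Finset.single_le_sum (f := fun γ => |C γ|) (fun γ _ => abs_nonneg _)
      (hfin.mem_toFinset.2 ⟨x.1, rfl⟩)
  mul a b := by
    refine Eventually.of_forall fun x => ?_
    rw [map_mul, S.D_mul, S.smul_A]
  symm := by
    refine Eventually.of_forall fun x => ?_
    rw [map_one, S.D_one, Matrix.transpose_one]

theorem jc_D (S : Sus Γ F M) {μ : Measure (F × M)} (hE : Sys (AZ n) (F × M) μ) (r : ℕ)
    (hr : 1 ≤ r) (a : AZ n) (x : F × M) : (jc S hE r hr).D a x = S.D r hr (dgh p n a) x := rfl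

/-- Invariance of functions from the invariance of sets. -/
theorem fun_inv {X : Type} [MeasurableSpace X] {μ : Measure X} {T : X → X} {f : X → ℝ}
    (h : ∀ q : ℚ, T ⁻¹' {x | (q : ℝ) < f x} =ᵐ[μ] {x | (q : ℝ) < f x}) :
    ∀ᵐ x ∂μ, f (T x) = f x := by
  have h1 : ∀ᵐ x ∂μ, ∀ q : ℚ, ((q : ℝ) < f (T x) ↔ (q : ℝ) < f x) := by
    rw [ae_all_iff]
    intro q
    filter_upwards [h q] with x hx
    exact iff_of_eq hx
  filter_upwards [h1] with x hx
  refine le_antisymm (le_of_forall_rat_lt_imp_le fun q hq => ((hx q).1 hq).le)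
    (le_of_forall_rat_lt_imp_le fun q hq => ((hx q).2 hq).le)

/-- The kernel of the root `(i, j)`. -/
def kerRt (n : ℕ) (i j : Fin n) : Subgroup (AZ n) where
  carrier := {a | rt i j a = 0}
  mul_mem' {a b} ha hb := by
    have h1 : rt i j a = 0 := ha
    have h2 : rt i j b = 0 := hb
    change rt i j (a * b) = 0
    rw [rt_mul, h1, h2, add_zero]
  one_mem' := rt_one i j
  inv_mem' {a} ha := by
    have h1 : rt i j a = 0 := ha
    change rt i j a⁻¹ = 0
    rw [rt_inv, h1, neg_zero]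

theorem rt_tA {i j : Fin n} (hij : i ≠ j) : rt i j (tA i j : AZ n) = 2 := by
  unfold rt tA
  rw [ex_mkA]
  rw [Pi.single_eq_same, Pi.single_eq_same, Pi.single_eq_of_ne hij.symm, Pi.single_eq_of_ne hij]
  norm_num

/-- the powers of the translation -/
theorem iter_EE {X : Type} [MulAction (SLn p n) X] {i j : Fin n} (hij : i ≠ j) (z : ℚ_[p])
    (t : ℕ) (y : X) : (fun y : X => EE hij z • y)^[t] y = EE hij ((t : ℚ_[p]) * z) • y := by
  induction t with
  | zero =>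
    rw [Function.iterate_zero, id_eq]
    have h : EE hij (((0 : ℕ) : ℚ_[p]) * z) = 1 := by
      have h1 := EE_add hij (0 : ℚ_[p]) 0
      rw [add_zero] at h1
      have h2 : EE hij (0 : ℚ_[p]) = 1 := by
        have h3 := congrArg (fun g => (EE hij (0 : ℚ_[p]))⁻¹ * g) h1
        simp only [inv_mul_cancel, inv_mul_cancel_left] at h3
        exact h3.symm
      rw [Nat.cast_zero, zero_mul, h2]
    rw [h, one_smul]
  | succ t ih =>
    rw [Function.iterate_succ_apply', ih, smul_smul, ← EE_add]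
    congr 2
    push_cast
    ring

theorem norm_p2 {x : ℚ_[p]} (k : ℕ) (hx : ‖x‖ ≤ 1) :
    ‖(p : ℚ_[p]) ^ k * x‖ ≤ (p : ℝ) ^ (-(k : ℤ)) := by
  rw [norm_mul, Padic.norm_p_pow]
  exact mul_le_of_le_one_right (by positivity) hx

theorem norm_nat_le (t : ℕ) : ‖(t : ℚ_[p])‖ ≤ 1 := by
  have h := Padic.norm_int_le_one (p := p) (t : ℤ)
  simpa using h

/-- The translates by the integral multiples of `p ^ 2`. -/
theorem section_nat (S : Sus Γ F M) {μ : Measure (F × M)} (hE : Sys (AZ n) (F × M) μ)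
    (r : ℕ) (hr : 1 ≤ r) {i j : Fin n} (hij : i ≠ j) (hst : Sst p i j μ)
    {s : F × M → Matrix (S.V.jet r hr).ι (S.V.jet r hr).ι ℝ} (hm : MM s)
    (heq : ∀ a : AZ n, ∀ᵐ x ∂μ, s (a • x) * S.D r hr (dgh p n a) x =
      S.D r hr (dgh p n a) x * s x) :
    ∀ᵐ y ∂μ, ∀ t : ℕ, s (EE hij ((t : ℚ_[p]) * (p : ℚ_[p]) ^ 2) • y) = s y := by
  have : IsProbabilityMeasure μ := hE.prob
  have hT : MeasurePreserving (fun y : F × M => EE hij ((p : ℚ_[p]) ^ 2) • y) μ μ :=
    hst.1 hij _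
  have hK : ∀ t : ℕ, EE hij ((t : ℚ_[p]) * (p : ℚ_[p]) ^ 2) ∈ KM p n 2 := by
    intro t
    refine EE_mem_KM hij ?_
    rw [mul_comm]
    exact norm_p2 2 (norm_nat_le t)
  have hconj : ∀ (a : AZ n) (t t' : ℕ), (p : ℚ_[p]) ^ (-rt i j a) * ((t : ℚ_[p]) * (p : ℚ_[p]) ^ 2)
      = (t' : ℚ_[p]) * (p : ℚ_[p]) ^ 2 → ∀ x : F × M,
      S.D r hr (dgh p n a) (EE hij ((t : ℚ_[p]) * (p : ℚ_[p]) ^ 2) • x) =
        S.D r hr (dgh p n a) x := by
    intro a t t' h x
    refine S.D_transl r hr (hK t) (hK t') ?_ x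
    rw [dgh_conj, h]
  have h := Pool.Agent.H93.DI.I3 hE (jc S hE r hr) hm ?_ ?_ hT (kerRt n i j) ?_ ?_ ?_ (p ^ 2) ?_
    (tA i j) ?_ ?_ ?_
  · filter_upwards [h] with y hy t
    have h1 := hy t
    rw [iter_EE] at h1
    exact h1
  · intro a
    filter_upwards [heq a] with x hx
    exact hx.symm
  · refine Eventually.of_forall fun x => ?_
    rw [jc_D, map_one, S.D_one, mul_one]
  · intro a ha x
    have ha' : rt i j a = 0 := ha
    rw [S.smul_A, S.smul_A, smul_smul, smul_smul, dgh_conj, ha', neg_zero, zpow_zero, one_mul]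
  · intro a ha
    have ha' : rt i j a = 0 := ha
    refine Eventually.of_forall fun x t => ?_
    rw [jc_D, jc_D, iter_EE]
    exact hconj a t t (by rw [ha', neg_zero, zpow_zero, one_mul]) x
  · intro f hf _ hinv
    refine fun_inv fun q => ?_
    refine hst.2 {x | (q : ℝ) < f x} (measurableSet_lt measurable_const hf) ?_ hij _
    intro a ha
    have h1 := hinv a ha
    change (fun x : F × M => dgh p n a • x) ⁻¹' {x | (q : ℝ) < f x} =ᵐ[μ] {x | (q : ℝ) < f x}
    filter_upwards [h1] with x hx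
    rw [S.smul_A] at hx
    refine propext ?_
    change (q : ℝ) < f (dgh p n a • x) ↔ (q : ℝ) < f x
    rw [hx]
  · intro f hf ε hε
    obtain ⟨l, hl⟩ := transl_cont S hij hst.1 hf ε hε
    refine ⟨l, fun k hk t => ?_⟩
    refine le_trans (measure_mono ?_) (hl (((p ^ 2) ^ k * t : ℕ) * (p : ℚ_[p]) ^ 2) ?_)
    · intro x hx
      have h1 : ε < |f ((fun y : F × M => EE hij ((p : ℚ_[p]) ^ 2) • y)^[(p ^ 2) ^ k * t] x) - f x| :=
        hx
      rw [iter_EE] at h1
      exact h1.le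
    · have e : (((p ^ 2) ^ k * t : ℕ) : ℚ_[p]) * (p : ℚ_[p]) ^ 2 =
          (p : ℚ_[p]) ^ (2 * k + 2) * (t : ℚ_[p]) := by
        push_cast
        ring
      rw [e]
      refine (norm_p2 _ (norm_nat_le t)).trans ?_
      refine zpow_le_zpow_right₀ ?_ (by omega)
      exact_mod_cast (Fact.out : p.Prime).one_lt.le
  · intro x
    rw [iter_EE, S.smul_A, S.smul_A, smul_smul, smul_smul, dgh_conj, rt_tA hij]
    congr 2
    have hp : (p : ℚ_[p]) ≠ 0 := by exact_mod_cast (Fact.out : p.Prime).ne_zero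
    congr 1
    push_cast
    rw [← mul_assoc, _root_.zpow_neg]
    rw [show ((p : ℚ_[p]) ^ (2 : ℤ)) = (p : ℚ_[p]) ^ 2 by norm_cast]
    rw [inv_mul_cancel₀ (pow_ne_zero 2 hp), one_mul]
  · refine Eventually.of_forall fun x t => ?_
    rw [jc_D, jc_D, iter_EE]
    refine hconj _ _ t ?_ x
    rw [rt_tA hij]
    have hp : (p : ℚ_[p]) ≠ 0 := by exact_mod_cast (Fact.out : p.Prime).ne_zero
    push_cast
    rw [_root_.zpow_neg]
    rw [show ((p : ℚ_[p]) ^ (2 : ℤ)) = (p : ℚ_[p]) ^ 2 by norm_cast]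
    field_simp
  · refine Eventually.of_forall fun x t => ?_
    rw [jc_D, jc_D, iter_EE]
    refine hconj _ _ (p ^ 2 * t) ?_ x
    rw [rt_inv, rt_tA hij]
    rw [neg_neg, show ((p : ℚ_[p]) ^ (2 : ℤ)) = (p : ℚ_[p]) ^ 2 by norm_cast]
    push_cast
    ring

/-- Smallness in probability for every bound gives equality. -/
theorem ae_zero_of_small {X : Type} [MeasurableSpace X] {μ : Measure X} {g : X → ℝ}
    (h : ∀ ε : ℝ, 0 < ε → μ {x | ε ≤ g x} ≤ ENNReal.ofReal ε) : ∀ᵐ x ∂μ, g x ≤ 0 := by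
  have h1 : ∀ ε : ℝ, 0 < ε → μ {x | ε ≤ g x} = 0 := by
    intro ε hε
    refine le_antisymm ?_ bot_le
    refine ENNReal.le_of_forall_pos_le_add fun δ hδ _ => ?_
    have hδ' : (0 : ℝ) < δ := hδ
    have h2 : μ {x | ε ≤ g x} ≤ ENNReal.ofReal (min ε δ) :=
      (measure_mono fun x (hx : ε ≤ g x) => (min_le_left ε (δ : ℝ)).trans hx).trans
        (h (min ε δ) (lt_min hε hδ'))
    refine h2.trans ?_
    rw [zero_add]
    refine (ENNReal.ofReal_le_ofReal (min_le_right ε (δ : ℝ))).trans ?_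
    rw [ENNReal.ofReal_coe_nnreal]
  have h2 : ∀ᵐ x ∂μ, ∀ k : ℕ, ¬ (1 / ((k : ℝ) + 1) ≤ g x) := by
    rw [ae_all_iff]
    intro k
    have h3 := h1 (1 / ((k : ℝ) + 1)) (by positivity)
    exact measure_eq_zero_iff_ae_notMem.1 h3
  filter_upwards [h2] with x hx
  by_contra hcon
  push Not at hcon
  obtain ⟨k, hk⟩ := exists_nat_one_div_lt hcon
  exact hx k hk.le

/-- The translates by the elements of `p ^ 2 ℤ_p`. -/
theorem section_small (S : Sus Γ F M) {μ : Measure (F × M)} (hE : Sys (AZ n) (F × M) μ)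
    (r : ℕ) (hr : 1 ≤ r) {i j : Fin n} (hij : i ≠ j) (hst : Sst p i j μ)
    {s : F × M → Matrix (S.V.jet r hr).ι (S.V.jet r hr).ι ℝ} (hm : MM s)
    (heq : ∀ a : AZ n, ∀ᵐ x ∂μ, s (a • x) * S.D r hr (dgh p n a) x =
      S.D r hr (dgh p n a) x * s x) (z : ℤ_[p]) :
    ∀ᵐ y ∂μ, s (EE hij ((z : ℚ_[p]) * (p : ℚ_[p]) ^ 2) • y) = s y := by
  have : IsProbabilityMeasure μ := hE.prob
  have hnat := section_nat S hE r hr hij hst hm heq
  have hp : (p : ℚ_[p]) ≠ 0 := by exact_mod_cast (Fact.out : p.Prime).ne_zero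
  have hkey : ∀ k l, ∀ᵐ y ∂μ,
      |s (EE hij ((z : ℚ_[p]) * (p : ℚ_[p]) ^ 2) • y) k l - s y k l| ≤ 0 := by
    intro k l
    refine ae_zero_of_small fun ε hε => ?_
    obtain ⟨m, hl⟩ := transl_cont S hij hst.1 (hm k l) ε hε
    obtain ⟨t, ht⟩ : ∃ t : ℕ, t = z.appr m := ⟨_, rfl⟩
    have hzt : ‖(z : ℚ_[p]) - (t : ℚ_[p])‖ ≤ (p : ℝ) ^ (-(m : ℤ)) := by
      have h1 := PadicInt.appr_spec m z
      have h2 := (PadicInt.norm_le_pow_iff_mem_span_pow (z - (z.appr m : ℤ_[p])) m).2 h1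
      rw [PadicInt.norm_def] at h2
      push_cast at h2
      rw [ht]
      exact h2
    have hx : ‖((z : ℚ_[p]) - (t : ℚ_[p])) * (p : ℚ_[p]) ^ 2‖ ≤ (p : ℝ) ^ (-(m : ℤ)) := by
      rw [norm_mul, Padic.norm_p_pow]
      refine (mul_le_of_le_one_right (norm_nonneg _) ?_).trans hzt
      refine zpow_le_one_of_nonpos₀ ?_ (by norm_num)
      exact_mod_cast (Fact.out : p.Prime).one_lt.le
    have h1 := hl _ hx
    have hT : MeasurePreserving (fun y : F × M => EE hij ((t : ℚ_[p]) * (p : ℚ_[p]) ^ 2) • y) μ μ :=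
      hst.1 hij _
    have hms : MeasurableSet {y : F × M | ε ≤
        |s (EE hij (((z : ℚ_[p]) - (t : ℚ_[p])) * (p : ℚ_[p]) ^ 2) • y) k l - s y k l|} := by
      have h3 : MeasurePreserving (fun y : F × M =>
        EE hij (((z : ℚ_[p]) - (t : ℚ_[p])) * (p : ℚ_[p]) ^ 2) • y) μ μ := hst.1 hij _
      exact measurableSet_le measurable_const
        ((((hm k l).comp h3.measurable).sub (hm k l)).abs)
    have h2 := hT.measure_preimage hms.nullMeasurableSet
    have hnull : μ {y | s (EE hij ((t : ℚ_[p]) * (p : ℚ_[p]) ^ 2) • y) ≠ s y} = 0 := by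
      have h3 : ∀ᵐ y ∂μ, s (EE hij ((t : ℚ_[p]) * (p : ℚ_[p]) ^ 2) • y) = s y := by
        filter_upwards [hnat] with y hy
        exact hy t
      exact h3
    refine (measure_mono (t := (fun y : F × M => EE hij ((t : ℚ_[p]) * (p : ℚ_[p]) ^ 2) • y) ⁻¹'
      {y : F × M | ε ≤ |s (EE hij (((z : ℚ_[p]) - (t : ℚ_[p])) * (p : ℚ_[p]) ^ 2) • y) k l - s y k l|} ∪
      {y | s (EE hij ((t : ℚ_[p]) * (p : ℚ_[p]) ^ 2) • y) ≠ s y}) ?_).trans ?_
    · intro y hy
      by_cases hc : s (EE hij ((t : ℚ_[p]) * (p : ℚ_[p]) ^ 2) • y) = s y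
      · left
        change ε ≤ |s (EE hij (((z : ℚ_[p]) - (t : ℚ_[p])) * (p : ℚ_[p]) ^ 2) •
          EE hij ((t : ℚ_[p]) * (p : ℚ_[p]) ^ 2) • y) k l -
          s (EE hij ((t : ℚ_[p]) * (p : ℚ_[p]) ^ 2) • y) k l|
        rw [hc, smul_smul, ← EE_add, ← add_mul, sub_add_cancel]
        exact hy
      · right
        exact hc
    · refine (measure_union_le _ _).trans ?_
      rw [hnull, add_zero, h2]
      exact h1
  have hall : ∀ᵐ y ∂μ, ∀ k l,
      |s (EE hij ((z : ℚ_[p]) * (p : ℚ_[p]) ^ 2) • y) k l - s y k l| ≤ 0 := by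
    rw [ae_all_iff]
    intro k
    rw [ae_all_iff]
    exact hkey k
  filter_upwards [hall] with y hy
  ext k l
  have h := abs_nonpos_iff.1 (hy k l)
  linarith

/-- a small multiple -/
theorem exists_small (x : ℚ_[p]) : ∃ N : ℕ, ‖(p : ℚ_[p]) ^ (2 * N) * x‖ ≤ (p : ℝ) ^ (-(2 : ℤ)) := by
  have hp1 : (1 : ℝ) < p := by exact_mod_cast (Fact.out : p.Prime).one_lt
  by_cases hx : x = 0
  · refine ⟨0, ?_⟩
    rw [hx, mul_zero, norm_zero]
    positivity
  · have hn := Padic.norm_eq_zpow_neg_valuation hx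
    refine ⟨((-x.valuation).toNat + 2), ?_⟩
    rw [norm_mul, Padic.norm_p_pow, hn, ← zpow_add₀ (by positivity)]
    refine zpow_le_zpow_right₀ hp1.le ?_
    push_cast
    have := Int.self_le_toNat (-x.valuation)
    omega

/-- Sections that commute with the jet cocycle over `A` commute with `U^(i,j)`. -/
theorem section_inv (S : Sus Γ F M) {μ : Measure (F × M)} (hE : Sys (AZ n) (F × M) μ)
    (r : ℕ) (hr : 1 ≤ r) {i j : Fin n} (hij : i ≠ j) (hst : Sst p i j μ)
    {s : F × M → Matrix (S.V.jet r hr).ι (S.V.jet r hr).ι ℝ} (hm : MM s)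
    (heq : ∀ a : AZ n, ∀ᵐ x ∂μ, s (a • x) * S.D r hr (dgh p n a) x =
      S.D r hr (dgh p n a) x * s x) (x : ℚ_[p]) :
    ∀ᵐ y ∂μ, s (EE hij x • y) * S.D r hr (EE hij x) y = S.D r hr (EE hij x) y * s y := by
  have : IsProbabilityMeasure μ := hE.prob
  have hp : (p : ℚ_[p]) ≠ 0 := by exact_mod_cast (Fact.out : p.Prime).ne_zero
  obtain ⟨N, hN⟩ := exists_small x
  let a : AZ n := (tA i j)⁻¹ ^ N
  have hra : rt i j a = -(2 * N : ℤ) := by
    rw [rt_pow, rt_inv, rt_tA hij]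
    ring
  let x' : ℚ_[p] := (p : ℚ_[p]) ^ (2 * N) * x
  have hx' : (p : ℚ_[p]) ^ (-rt i j a) * x = x' := by
    rw [hra, neg_neg]
    change (p : ℚ_[p]) ^ (((2 * N : ℕ)) : ℤ) * x = (p : ℚ_[p]) ^ (2 * N) * x
    rw [zpow_natCast]
  have hN' : ‖x'‖ ≤ (p : ℝ) ^ (-((2 : ℕ) : ℤ)) := hN
  have hg : EE hij x = dgh p n a⁻¹ * (EE hij x' * dgh p n a) := by
    rw [← hx', ← dgh_conj, ← mul_assoc, ← map_mul, inv_mul_cancel, map_one, one_mul]
  have hz : ‖x' / (p : ℚ_[p]) ^ 2‖ ≤ 1 := by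
    rw [norm_div, Padic.norm_p_pow, div_le_one (by
      have : (0 : ℝ) < p := by exact_mod_cast (Fact.out : p.Prime).pos
      positivity)]
    exact hN'
  have hs := section_small S hE r hr hij hst hm heq ⟨x' / (p : ℚ_[p]) ^ 2, hz⟩
  have hxz : (x' / (p : ℚ_[p]) ^ 2) * (p : ℚ_[p]) ^ 2 = x' := div_mul_cancel₀ _ (pow_ne_zero 2 hp)
  have hs2 : ∀ᵐ y ∂μ, s (EE hij x' • y) = s y := by
    filter_upwards [hs] with y hy
    have h1 : s (EE hij ((x' / (p : ℚ_[p]) ^ 2) * (p : ℚ_[p]) ^ 2) • y) = s y := hy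
    rw [hxz] at h1
    exact h1
  have hU : MeasurePreserving (fun y : F × M => EE hij x' • y) μ μ := hst.1 hij x'
  have hK : EE hij x' ∈ KM p n 2 := EE_mem_KM hij hN'
  have h1 := heq a
  have h2 := hE.ae_smul a hs2
  have h3 := hE.ae_smul a (hU.quasiMeasurePreserving.ae (heq a⁻¹))
  filter_upwards [h1, h2, h3] with y g1 g2 g3
  rw [hg, S.D_mul, S.D_mul, S.D_K r hr hK, one_mul, mul_smul, mul_smul]
  rw [S.smul_A] at g1 g2 g3
  rw [S.smul_A] at g3
  rw [← Matrix.mul_assoc, g3, Matrix.mul_assoc, g2, Matrix.mul_assoc, g1]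

end Pool.Agent.H67.LX
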