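import Mathlib
import Pool.Agent.H67.LX.Rate
import Pool.Agent.H23.BR.Bas
import Pool.Agent.H23.DM.Kp1

/-!
PART rates (helper88).  `Upp` and `NG` for the continuous cocycle.
-/

set_option linter.unusedSectionVars false

open MeasureTheory Filter Matrix
open scoped Topology
open Pool.Agent.H73.PZ
open Pool.Agent.H23.DM

namespace Pool.Agent.H67.LX

variable {p : ℕ} [Fact p.Prime] {n : ℕ} {Γ : Subgroup (SLn p n)} {F M : Type}
    [TopologicalSpace F] [CompactSpace F] [T2Space F] [SecondCountableTopology F]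
    [MeasurableSpace F] [BorelSpace F] [MulAction (SLn p n) F]
    [TopologicalSpace M] [CompactSpace M] [T2Space M] [SecondCountableTopology M]
    [MeasurableSpace M] [BorelSpace M] [MulAction Γ M]
    [MulAction (SLn p n) (F × M)] [MulAction (AZ n) (F × M)]

private theorem un_smul (S : Sus Γ F M) (w : AZ n) (t : ℕ) (x : F × M) :
    w ^ t • x = dgh p n w ^ t • x := by
  rw [S.smul_A, map_pow]

private theorem un_cont (S : Sus Γ F M) (g : SLn p n) : Continuous fun x => S.L g x := by
  have h := (Pool.Agent.H23.BR.sub1 S).cont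
  exact h.comp (continuous_const.prodMk continuous_id)

private theorem un_conj (S : Sus Γ F M) (g b : SLn p n) (hgb : g * b = b * g) {B B' : ℝ}
    (hB : ∀ y, |S.L b y| ≤ B) (hB' : ∀ y, |S.L b⁻¹ y| ≤ B') (x : F × M) :
    S.L g (b • x) - S.L g x ≤ B + B' := by
  have hL := Pool.Agent.H23.BR.sub1 S
  have h1 := hL.sub (b * g) b⁻¹ (b • x)
  have e1 : b * g * b⁻¹ = g := by rw [← hgb, mul_inv_cancel_right]
  rw [e1, inv_smul_smul] at h1
  have h2 := hL.sub b g x
  have h3 := (le_abs_self _).trans (hB (g • x))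
  have h4 := (le_abs_self _).trans (hB' (b • x))
  linarith

theorem upp_of_NG (S : Sus Γ F M) {μ : Measure (F × M)} (hE : Sys (AZ n) (F × M) μ) {w : AZ n}
    (h : S.NG μ w) : S.Upp μ w := by
  haveI := hE.prob
  haveI := Pool.Agent.H23.BR.csX S
  have hL := Pool.Agent.H23.BR.sub1 S
  obtain ⟨K, hK0, hK⟩ := hL.pow_bdd (dgh p n w)
  refine upper_rate hE w (fun t x => S.L (dgh p n w ^ t) x) (fun t => (un_cont S _).measurable)
    (K := K) (fun t => Eventually.of_forall fun x => hK t x) ?_ ?_ ?_
  · intro s t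
    refine Eventually.of_forall fun x => ?_
    have e1 : w ^ t • x = dgh p n w ^ t • x := un_smul S w t x
    have e2 := hL.sub (dgh p n w ^ s) (dgh p n w ^ t) x
    rw [← pow_add] at e2
    rw [e1]
    exact e2
  · intro b
    obtain ⟨B, hB0, hB⟩ := hL.bdd (dgh p n b)
    obtain ⟨B', hB0', hB'⟩ := hL.bdd (dgh p n b)⁻¹
    refine ⟨B + B', fun t => Eventually.of_forall fun x => ?_⟩
    have hc : dgh p n w ^ t * dgh p n b = dgh p n b * dgh p n w ^ t := by
      rw [← map_pow, ← map_mul, ← map_mul, mul_comm]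
    have hx : b • x = dgh p n b • x := S.smul_A b x
    rw [hx]
    have h1 := un_conj S (dgh p n w ^ t) (dgh p n b) hc hB hB' x
    have hc' : dgh p n w ^ t * (dgh p n b)⁻¹ = (dgh p n b)⁻¹ * dgh p n w ^ t := by
      rw [← map_pow, ← map_inv, ← map_mul, ← map_mul, mul_comm]
    have h2 := un_conj S (dgh p n w ^ t) (dgh p n b)⁻¹ hc' hB' (by rw [inv_inv]; exact hB)
      (dgh p n b • x)
    rw [inv_smul_smul] at h2
    rw [abs_le]
    constructor
    · linarith
    · linarith
  · intro c hc
    have h1 := h c hc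
    unfold Sus.GB at h1
    push Not at h1
    obtain ⟨T, hT⟩ := h1
    refine ⟨T, ?_, by linarith [hT]⟩
    rcases Nat.eq_zero_or_pos T with h0 | h0
    · exfalso
      rw [h0, pow_zero] at hT
      have h2 : 0 ≤ ∫ x, S.L 1 x ∂μ :=
        integral_nonneg fun x => Pool.Agent.H23.BR.L_one_nonneg S x
      push_cast at hT
      linarith
    · exact h0

theorem NG_of_upp (S : Sus Γ F M) {μ : Measure (F × M)} (hE : Sys (AZ n) (F × M) μ) {w : AZ n}
    (h : S.Upp μ w) : S.NG μ w := by
  intro c hc hg
  haveI := hE.prob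
  haveI := Pool.Agent.H23.BR.csX S
  have hL := Pool.Agent.H23.BR.sub1 S
  obtain ⟨K, hK0, hK⟩ := hL.pow_bdd (dgh p n w)
  have h1 := h (c / 2) (by linarith)
  have hm : ∀ t : ℕ, MeasurableSet {x | c / 2 * t < S.L (dgh p n w ^ t) x} := fun t =>
    measurableSet_lt measurable_const (un_cont S _).measurable
  have h2 : ∀ t : ℕ, c * t ≤ c / 2 * t +
      K * (t + 1) * μ.real {x | c / 2 * t < S.L (dgh p n w ^ t) x} := by
    intro t
    refine (hg t).trans ?_
    have h3 : ∀ x, S.L (dgh p n w ^ t) x ≤ c / 2 * t +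
        Set.indicator {x | c / 2 * t < S.L (dgh p n w ^ t) x} (fun _ => K * (t + 1)) x := by
      intro x
      by_cases hx : c / 2 * t < S.L (dgh p n w ^ t) x
      · rw [Set.indicator_of_mem (show x ∈ {x | c / 2 * t < S.L (dgh p n w ^ t) x} from hx)]
        have h4 := (le_abs_self _).trans (hK t x)
        have h5 : 0 ≤ c / 2 * t := by positivity
        linarith
      · rw [Set.indicator_of_notMem (show x ∉ {x | c / 2 * t < S.L (dgh p n w ^ t) x} from hx)]
        linarith [not_lt.1 hx]
    have h6 : Integrable (fun x => c / 2 * t +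
        Set.indicator {x | c / 2 * t < S.L (dgh p n w ^ t) x} (fun _ => K * (t + 1)) x) μ :=
      (integrable_const _).add ((integrable_const _).indicator (hm t))
    refine (integral_mono (hL.integrable _ μ) h6 h3).trans (le_of_eq ?_)
    rw [integral_add (integrable_const _) ((integrable_const _).indicator (hm t)),
      integral_indicator (hm t), integral_const, setIntegral_const]
    simp only [probReal_univ, smul_eq_mul, one_mul]
    ring
  have h3 : Tendsto (fun t : ℕ => μ.real {x | c / 2 * t < S.L (dgh p n w ^ t) x}) atTop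
      (𝓝 0) := by
    have := (ENNReal.tendsto_toReal ENNReal.zero_ne_top).comp h1
    simpa [Measure.real, Function.comp_def] using this
  have h4 : ∀ᶠ t : ℕ in atTop, μ.real {x | c / 2 * t < S.L (dgh p n w ^ t) x} < c / (8 * (K + 1)) :=
    h3.eventually (gt_mem_nhds (by positivity))
  obtain ⟨t, ht1, ht2⟩ := (h4.and (eventually_ge_atTop 1)).exists
  have h5 := h2 t
  have ht3 : (1 : ℝ) ≤ t := by exact_mod_cast ht2
  have h6 : K * (t + 1) * μ.real {x | c / 2 * t < S.L (dgh p n w ^ t) x} ≤ c * t / 4 := by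
    have h7 : K * (t + 1) * μ.real {x | c / 2 * t < S.L (dgh p n w ^ t) x} ≤
        (K + 1) * (2 * t) * (c / (8 * (K + 1))) := by
      apply mul_le_mul _ ht1.le measureReal_nonneg (by positivity)
      nlinarith
    refine h7.trans (le_of_eq ?_)
    field_simp
    ring
  nlinarith

end Pool.Agent.H67.LX
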