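import Mathlib
import Pool.Agent.H67.LX.SecInv
import Pool.Agent.H67.LX.UppNG

/-!
PART G-invariant measures (helper23).  Paper (S1), end: all roots in `Σ*` implies `κ ≤ 0` (h23 3.5 with `section_inv`).
-/

set_option linter.unusedSectionVars false

open MeasureTheory Filter Matrix
open scoped Topology
open Pool.Agent.H73.PZ
open Pool.Agent.H23.DM

namespace Pool.Agent.H67.LX

variable {p : ℕ} [Fact p.Prime] {n : ℕ} {Γ : Subgroup (SLn p n)} {F M : Type}
    [TopologicalSpace F] [CompactSpace F] [T2Space F] [SecondCountableTopology F]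
    [MeasurableSpace F] [BorelSpace F] [MulAction (SLn p n) F]
    [TopologicalSpace M] [CompactSpace M] [T2Space M] [SecondCountableTopology M]
    [MeasurableSpace M] [BorelSpace M] [MulAction Γ M]
    [MulAction (SLn p n) (F × M)] [MulAction (AZ n) (F × M)]

/-- a bound for the jet cocycle -/
private theorem ginv_bdd (S : Sus Γ F M) (r : ℕ) (hr : 1 ≤ r) (g : SLn p n) :
    ∃ C : ℝ, ∀ x, fn (S.D r hr g x) ≤ C := by
  choose C hC using (S.V.jet r hr).bdd
  have hfin := S.al_fin g
  refine ⟨∑ γ ∈ hfin.toFinset, |C γ|, fun x => ?_⟩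
  refine (hC (S.B.al g x.1) x.2).trans ((le_abs_self _).trans ?_)
  exact Finset.single_le_sum (f := fun γ => |C γ|) (fun γ _ => abs_nonneg _)
    (hfin.mem_toFinset.2 ⟨x.1, rfl⟩)

private theorem ginv_smul (S : Sus Γ F M) (r : ℕ) (hr : 1 ≤ r)
    {s : F × M → Matrix (S.V.jet r hr).ι (S.V.jet r hr).ι ℝ} {μ : Measure (F × M)} {g g' : SLn p n}
    (hg' : MeasurePreserving (fun y : F × M => g' • y) μ μ)
    (h : ∀ᵐ x ∂μ, s (g • x) * S.D r hr g x = S.D r hr g x * s x)
    (h' : ∀ᵐ x ∂μ, s (g' • x) * S.D r hr g' x = S.D r hr g' x * s x) :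
    ∀ᵐ x ∂μ, s ((g * g') • x) * S.D r hr (g * g') x = S.D r hr (g * g') x * s x := by
  filter_upwards [hg'.quasiMeasurePreserving.ae h, h'] with x h1 h2
  rw [S.D_mul, mul_smul, ← Matrix.mul_assoc, h1, Matrix.mul_assoc, h2, ← Matrix.mul_assoc]

/-- The Weyl element inverts `tA i j`. -/
private theorem ginv_weyl {i j : Fin n} (hij : i ≠ j) :
    (EE hij (1 : ℚ_[p]) * EE hij.symm (-1) * EE hij 1) * dgh p n (tA i j) =
      (dgh p n (tA i j))⁻¹ * (EE hij (1 : ℚ_[p]) * EE hij.symm (-1) * EE hij 1) := by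
  have hw := EE_weyl (p := p) hij (a := 1) one_ne_zero
  rw [inv_one] at hw
  rw [← map_inv, dgh_apply, dgh_apply]
  apply Subtype.ext
  rw [Matrix.SpecialLinearGroup.coe_mul _ (dg p (ex (tA i j))),
    Matrix.SpecialLinearGroup.coe_mul (dg p (ex (tA i j)⁻¹)),
    hw, dg_coe (ex_sum _), dg_coe (ex_sum _)]
  ext k l
  rw [Matrix.mul_diagonal, Matrix.diagonal_mul]
  rw [ex_inv]
  have hex : ∀ m : Fin n, ex (tA i j : AZ n) m = (if m = j then 1 else 0) - (if m = i then 1 else 0) := by
    intro m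
    unfold tA
    rw [ex_mkA, Pi.single_apply, Pi.single_apply]
  simp only [hex]
  simp only [Matrix.add_apply, Matrix.sub_apply, Matrix.one_apply, Matrix.single_apply]
  by_cases hki : k = i
  · subst hki
    by_cases hlk : k = l
    · subst hlk
      simp [hij, hij.symm]
    · by_cases hlj : j = l
      · subst hlj
        simp [hij, hij.symm]
      · simp [hij, hij.symm, hlk, hlj]
  · by_cases hkj : k = j
    · subst hkj
      by_cases hlk : k = l
      · subst hlk
        simp [hij, hij.symm]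
      · by_cases hli : i = l
        · subst hli
          simp [hij, hij.symm]
        · simp [hij, hij.symm, hlk, hli]
    · by_cases hlk : k = l
      · subst hlk
        simp [hki, hkj, Ne.symm hki, Ne.symm hkj]
      · simp [hki, hkj, Ne.symm hki, Ne.symm hkj, hlk]

/-- Transfer of a rate through an element conjugating `a` to `a⁻¹`. -/
private theorem ginv_transfer (S : Sus Γ F M) {μ : Measure (F × M)}
    (hE : Sys (AZ n) (F × M) μ) (r : ℕ) (hr : 1 ≤ r) {w : SLn p n} {a : AZ n}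
    (hwm : MeasurePreserving (fun y : F × M => w • y) μ μ)
    (hwa : w * dgh p n a = (dgh p n a)⁻¹ * w) (T : (jc S hE r hr).Sub)
    {s : F × M → Matrix (S.V.jet r hr).ι (S.V.jet r hr).ι ℝ}
    (hs : ∀ᵐ x ∂μ, T.Q x * s x = s x ∧ s x * T.Q x = T.Q x)
    (hw : ∀ᵐ x ∂μ, s (w • x) * S.D r hr w x = S.D r hr w x * s x) {δ : ℝ} (hδ : 0 < δ)
    (h : ((jc S hE r hr).sub hE T).Le a⁻¹ (-δ)) : ((jc S hE r hr).sub hE T).Le a (-(δ / 2)) := by
  obtain ⟨C, hC⟩ := ginv_bdd S r hr w⁻¹
  obtain ⟨C', hC'⟩ := ginv_bdd S r hr w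
  have hpow : ∀ t : ℕ, dgh p n (a ^ t) = w⁻¹ * (dgh p n (a⁻¹ ^ t) * w) := by
    intro t
    have h1 : ∀ t : ℕ, w * dgh p n (a ^ t) = dgh p n (a⁻¹ ^ t) * w := by
      intro t
      induction t with
      | zero => simp
      | succ t ih =>
        rw [pow_succ, pow_succ, map_mul, map_mul, ← mul_assoc, ih, mul_assoc, hwa, ← mul_assoc,
          map_inv]
    rw [← h1 t, inv_mul_cancel_left]
  -- the bad sets
  have hmeas : ∀ t : ℕ, MeasurableSet {x | Real.exp (-δ * t) <
      fn (((jc S hE r hr).sub hE T).D (a⁻¹ ^ t) x)} := fun t =>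
    measurableSet_lt measurable_const (MM.fn (((jc S hE r hr).sub hE T).meas (a⁻¹ ^ t)))
  have h1 : WP μ fun t => (fun x : F × M => w • x) ⁻¹' {x | Real.exp (-δ * t) <
      fn (((jc S hE r hr).sub hE T).D (a⁻¹ ^ t) x)} := by
    refine WP.mono h (Eventually.of_forall fun t => le_of_eq ?_)
    exact hwm.measure_preimage (hmeas t).nullMeasurableSet
  have h2 : WP μ fun _ : ℕ => (∅ : Set (F × M)) := by
    unfold WP
    simp
  have hev : ∀ᶠ t : ℕ in atTop, (max C 0 + 1) * (max C' 0 + 1) * Real.exp (-(δ / 2) * t) ≤ 1 := by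
    have h3 : Tendsto (fun t : ℕ => Real.exp (-(δ / 2) * t)) atTop (𝓝 0) := by
      have h4 : Tendsto (fun t : ℕ => δ / 2 * (t : ℝ)) atTop atTop :=
        tendsto_natCast_atTop_atTop.const_mul_atTop (half_pos hδ)
      have h5 := Real.tendsto_exp_neg_atTop_nhds_zero.comp h4
      refine h5.congr fun t => ?_
      simp only [Function.comp, neg_mul]
    have h4 := h3.const_mul ((max C 0 + 1) * (max C' 0 + 1))
    rw [mul_zero] at h4
    exact h4.eventually_le_const zero_lt_one
  refine WP.union h1 h2 ?_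
  filter_upwards [hev] with t ht
  refine measure_eq_zero_iff_ae_notMem.2 ?_
  filter_upwards [hs, hw, hwm.quasiMeasurePreserving.ae hs, T.symm, T.idem] with x x1 x2 x3 x4 x5
  rintro ⟨y1, y2⟩
  have y3 : fn (S.D r hr (dgh p n (a⁻¹ ^ t)) (w • x) * T.Q (w • x)) ≤ Real.exp (-δ * t) := by
    by_contra y4
    exact y2 (Or.inl (not_le.1 y4))
  have e1 : T.Q (w • x) * (S.D r hr w x * T.Q x) = S.D r hr w x * T.Q x := by
    have e2 : S.D r hr w x * T.Q x = s (w • x) * (S.D r hr w x * T.Q x) := by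
      calc S.D r hr w x * T.Q x = S.D r hr w x * (s x * T.Q x) := by rw [x1.2]
        _ = (S.D r hr w x * s x) * T.Q x := by rw [Matrix.mul_assoc]
        _ = s (w • x) * (S.D r hr w x * T.Q x) := by rw [← x2, Matrix.mul_assoc]
    calc T.Q (w • x) * (S.D r hr w x * T.Q x) =
          T.Q (w • x) * (s (w • x) * (S.D r hr w x * T.Q x)) := by rw [← e2]
      _ = (T.Q (w • x) * s (w • x)) * (S.D r hr w x * T.Q x) := by rw [Matrix.mul_assoc]
      _ = S.D r hr w x * T.Q x := by rw [x3.1, ← e2]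
  have e3 : S.D r hr (dgh p n (a ^ t)) x * T.Q x =
      S.D r hr w⁻¹ ((dgh p n (a⁻¹ ^ t) * w) • x) *
        ((S.D r hr (dgh p n (a⁻¹ ^ t)) (w • x) * T.Q (w • x)) * (S.D r hr w x * T.Q x)) := by
    rw [hpow t, S.D_mul r hr w⁻¹, S.D_mul r hr (dgh p n (a⁻¹ ^ t)) w x]
    rw [Matrix.mul_assoc (S.D r hr (dgh p n (a⁻¹ ^ t)) (w • x)) (T.Q (w • x)), e1]
    simp only [Matrix.mul_assoc]
  have hCC : fn (S.D r hr w⁻¹ ((dgh p n (a⁻¹ ^ t) * w) • x)) ≤ max C 0 + 1 :=
    (hC _).trans ((le_max_left _ _).trans (by linarith))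
  have hCC' : fn (S.D r hr w x * T.Q x) ≤ max C' 0 + 1 :=
    (fn_mul_proj_le x4 x5 _).trans ((hC' _).trans ((le_max_left _ _).trans (by linarith)))
  have hp1 : (0 : ℝ) ≤ max C 0 + 1 := by positivity
  have hp2 : (0 : ℝ) ≤ max C' 0 + 1 := by positivity
  have e4 : fn (S.D r hr (dgh p n (a ^ t)) x * T.Q x) ≤
      (max C 0 + 1) * (Real.exp (-δ * t) * (max C' 0 + 1)) := by
    rw [e3]
    refine (fn_mul_le _ _).trans (mul_le_mul hCC ?_ (fn_nonneg _) hp1)
    exact (fn_mul_le _ _).trans (mul_le_mul y3 hCC' (fn_nonneg _) (Real.exp_pos _).le)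
  have e5 : Real.exp (-δ * t) = Real.exp (-(δ / 2) * t) * Real.exp (-(δ / 2) * t) := by
    rw [← Real.exp_add]
    congr 1
    ring
  have e6 : (max C 0 + 1) * (Real.exp (-δ * t) * (max C' 0 + 1)) ≤ Real.exp (-(δ / 2) * t) := by
    rw [e5]
    have h6 := mul_le_mul_of_nonneg_right ht (Real.exp_pos (-(δ / 2) * t)).le
    rw [one_mul] at h6
    calc _ = (max C 0 + 1) * (max C' 0 + 1) * Real.exp (-(δ / 2) * t) * Real.exp (-(δ / 2) * t) := by
          ring
      _ ≤ _ := h6
  exact absurd y1 (not_lt.2 (e4.trans e6))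

/-- `c.Up` for the element with exponents `b`. -/
private def GInvU {ι : Type} [Fintype ι] [DecidableEq ι] {μ : Measure (F × M)}
    (c : Coc (AZ n) (F × M) ι μ) (b : Fin n → ℤ) : Prop :=
  ∀ hb : ∑ i, b i = 0, c.Up (mkA b hb)

private theorem GInvU_zero {ι : Type} [Fintype ι] [DecidableEq ι] {μ : Measure (F × M)}
    (hE : Sys (AZ n) (F × M) μ) (c : Coc (AZ n) (F × M) ι μ) : GInvU c (fun _ => 0) := by
  intro hb
  have : mkA (fun _ : Fin n => (0 : ℤ)) hb = 1 := ex_ext fun i => rfl
  rw [this]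
  exact Coc.Up_one hE c

private theorem GInvU_add {ι : Type} [Fintype ι] [DecidableEq ι] {μ : Measure (F × M)}
    (hE : Sys (AZ n) (F × M) μ) {c : Coc (AZ n) (F × M) ι μ}
    {b b' : Fin n → ℤ} (hb : ∑ i, b i = 0) (hb' : ∑ i, b' i = 0) (h : GInvU c b)
    (h' : GInvU c b') : GInvU c (fun i => b i + b' i) := by
  intro hs
  have : mkA (fun i => b i + b' i) hs = mkA b hb * mkA b' hb' := ex_ext fun i => rfl
  rw [this]
  exact Coc.Up_mul hE (h hb) (h' hb')

private theorem GInvU_nsmul {ι : Type} [Fintype ι] [DecidableEq ι] {μ : Measure (F × M)}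
    (hE : Sys (AZ n) (F × M) μ) {c : Coc (AZ n) (F × M) ι μ}
    {b : Fin n → ℤ} (hb : ∑ i, b i = 0) (h : GInvU c b) (m : ℕ) :
    GInvU c (fun i => (m : ℤ) * b i) := by
  induction m with
  | zero =>
    have e : (fun i => ((0 : ℕ) : ℤ) * b i) = fun _ => 0 := by
      funext i
      simp
    rw [e]
    exact GInvU_zero hE c
  | succ m ih =>
    have e : (fun i => ((m + 1 : ℕ) : ℤ) * b i) = fun i => (m : ℤ) * b i + b i := by
      funext i
      push_cast
      ring
    rw [e]
    refine GInvU_add hE ?_ hb ih h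
    rw [← Finset.mul_sum, hb, mul_zero]

/-- The exponents of the coroot element. -/
private def gte (i j k : Fin n) : ℤ := (if k = j then 1 else 0) - (if k = i then 1 else 0)

private theorem sum_gte (i j : Fin n) : ∑ k, gte i j k = 0 := by
  unfold gte
  rw [Finset.sum_sub_distrib]
  simp

private theorem ginv_up (hn : 2 ≤ n) (S : Sus Γ F M) {μ : Measure (F × M)}
    (hE : Sys (AZ n) (F × M) μ) (hst : ∀ i j : Fin n, i ≠ j → Sst p i j μ) (r : ℕ) (hr : 1 ≤ r)
    (a : AZ n) : (jc S hE r hr).Up a := by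
  classical
  set c := jc S hE r hr with hc
  -- the coroot elements
  have key : ∀ (i j : Fin n) (hij : i ≠ j), GInvU c (gte i j) := by
    intro i j hij hb
    have ha₀ : mkA (gte i j) hb = tA i j := by
      refine ex_ext fun k => ?_
      unfold tA
      rw [ex_mkA, ex_mkA, Pi.single_apply, Pi.single_apply]
      rfl
    rw [ha₀]
    obtain ⟨U, T, hD, hS, hT⟩ := Coc.exists_split hE c (tA i j)
    obtain ⟨πu, πc, hmu, hmc, hrel⟩ := Coc.exists_proj hE c hD
    have heq := fun b => Coc.proj_equiv hE c (πu := πu) (πc := πc) (hrel.mono fun x hx => by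
      obtain ⟨r1, r2, r3, r4, r5, r6, r7, r8, r9, -, -⟩ := hx
      exact ⟨r1, r2, r3, r4, r5, r6, r7, r8, r9⟩) b
    have heq1 : ∀ b : AZ n, ∀ᵐ x ∂μ, πu (b • x) * S.D r hr (dgh p n b) x =
        S.D r hr (dgh p n b) x * πu x := fun b => (heq b).mono fun x hx => hx.1.symm
    have hs1 := section_inv S hE r hr hij (hst i j hij) hmu heq1 1
    have hs2 := section_inv S hE r hr hij.symm (hst j i hij.symm) hmu heq1 (-1)
    have m1 : MeasurePreserving (fun y : F × M => EE hij (1 : ℚ_[p]) • y) μ μ :=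
      (hst i j hij).1 hij 1
    have m2 : MeasurePreserving (fun y : F × M => EE hij.symm (-1 : ℚ_[p]) • y) μ μ :=
      (hst j i hij.symm).1 hij.symm (-1)
    have m12 : MeasurePreserving (fun y : F × M =>
        (EE hij (1 : ℚ_[p]) * EE hij.symm (-1)) • y) μ μ := by
      have h1 := m1.comp m2
      have e : ((fun y : F × M => EE hij (1 : ℚ_[p]) • y) ∘
          (fun y : F × M => EE hij.symm (-1 : ℚ_[p]) • y)) =
          fun y : F × M => (EE hij (1 : ℚ_[p]) * EE hij.symm (-1)) • y := by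
        funext y
        simp only [Function.comp, mul_smul]
      rw [e] at h1
      exact h1
    have hw : ∀ᵐ x ∂μ, πu ((EE hij (1 : ℚ_[p]) * EE hij.symm (-1) * EE hij 1) • x) *
          S.D r hr (EE hij (1 : ℚ_[p]) * EE hij.symm (-1) * EE hij 1) x =
        S.D r hr (EE hij (1 : ℚ_[p]) * EE hij.symm (-1) * EE hij 1) x * πu x :=
      ginv_smul S r hr m1 (ginv_smul S r hr m2 hs1 hs2) hs1
    have hwm : MeasurePreserving (fun y : F × M =>
        (EE hij (1 : ℚ_[p]) * EE hij.symm (-1) * EE hij 1) • y) μ μ := by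
      have h1 := m12.comp m1
      have e : ((fun y : F × M => (EE hij (1 : ℚ_[p]) * EE hij.symm (-1)) • y) ∘
          (fun y : F × M => EE hij (1 : ℚ_[p]) • y)) =
          fun y : F × M => (EE hij (1 : ℚ_[p]) * EE hij.symm (-1) * EE hij 1) • y := by
        funext y
        simp only [Function.comp, mul_smul]
      rw [e] at h1
      exact h1
    have hwa := ginv_weyl (p := p) hij
    obtain ⟨δ, hδ, hSδ⟩ := hS
    have hle := ginv_transfer S hE r hr (a := tA i j) hwm hwa U
      (hrel.mono fun x hx => ⟨hx.2.1, hx.2.2.1⟩) hw hδ hSδ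
    have hz := Coc.zero_of_Le hE hle hSδ (by linarith)
    have hT1 : ∀ᵐ x ∂μ, T.Q x = c.D 1 x := by
      filter_upwards [hz, hrel, U.le, T.le, T.symm, c.symm] with x x1 x2 x3 x4 x5 x6
      obtain ⟨r1, r2, -, r4, -, -, -, -, -, -, -⟩ := x2
      have x7 : c.D 1 x * U.Q x = 0 := x1
      have x8 : U.Q x = 0 := by rw [← x3, x7]
      have x9 : πu x = 0 := by rw [← r2, x8, Matrix.zero_mul]
      have x10 : πc x = c.D 1 x := by rw [← r1, x9, zero_add]
      rw [x10] at r4
      have x11 := congrArg Matrix.transpose r4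
      rw [Matrix.transpose_mul, x5, x6] at x11
      rw [← x4, x11]
    intro ε hε
    exact Coc.Le_of_sub_Le hE hT1 (hT ε hε)
  -- integer multiples
  have key0 : ∀ i j : Fin n, GInvU c (gte i j) := by
    intro i j
    by_cases hij : i = j
    · subst hij
      have e : gte i i = fun _ => 0 := by
        funext k
        unfold gte
        exact sub_self _
      rw [e]
      exact GInvU_zero hE c
    · exact key i j hij
  have key1 : ∀ (i j : Fin n) (m : ℤ), GInvU c (fun k => m * gte i j k) := by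
    intro i j m
    rcases le_total 0 m with hm | hm
    · have h1 := GInvU_nsmul hE (sum_gte i j) (key0 i j) m.toNat
      rw [Int.toNat_of_nonneg hm] at h1
      exact h1
    · have h1 := GInvU_nsmul hE (sum_gte j i) (key0 j i) (-m).toNat
      rw [Int.toNat_of_nonneg (by omega)] at h1
      have e : (fun k => m * gte i j k) = fun k => -m * gte j i k := by
        funext k
        unfold gte
        ring
      rw [e]
      exact h1
  -- the general element
  have hb := ex_sum a
  have hn0 : 0 < n := by omega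
  set i₀ : Fin n := ⟨0, hn0⟩ with hi₀
  have key2 : ∀ s : Finset (Fin n), GInvU c (fun l => ∑ k ∈ s, ex a k * gte i₀ k l) := by
    intro s
    induction s using Finset.induction_on with
    | empty =>
      have e : (fun l : Fin n => ∑ k ∈ (∅ : Finset (Fin n)), ex a k * gte i₀ k l) =
          fun _ => 0 := by
        funext l
        simp
      rw [e]
      exact GInvU_zero hE c
    | insert k s hk ih =>
      have e : (fun l : Fin n => ∑ k' ∈ insert k s, ex a k' * gte i₀ k' l) =
          fun l => ex a k * gte i₀ k l + ∑ k' ∈ s, ex a k' * gte i₀ k' l := by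
        funext l
        rw [Finset.sum_insert hk]
      rw [e]
      refine GInvU_add hE ?_ ?_ (key1 i₀ k (ex a k)) ih
      · rw [← Finset.mul_sum, sum_gte, mul_zero]
      · rw [Finset.sum_comm]
        refine Finset.sum_eq_zero fun k' _ => ?_
        rw [← Finset.mul_sum, sum_gte, mul_zero]
  have h3 := key2 Finset.univ
  have e : (fun l : Fin n => ∑ k, ex a k * gte i₀ k l) = ex a := by
    funext l
    unfold gte
    simp only [mul_sub, mul_ite, mul_one, mul_zero, Finset.sum_sub_distrib]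
    rw [Finset.sum_ite_eq]
    simp only [Finset.mem_univ, if_true]
    by_cases hl : l = i₀
    · simp only [hl, if_true]
      rw [hb, sub_zero]
    · simp only [hl, if_false, Finset.sum_const_zero, sub_zero]
  rw [e] at h3
  exact h3 hb

theorem ginv_NG (hn : 3 ≤ n) (S : Sus Γ F M) {μ : Measure (F × M)}
    (hE : Sys (AZ n) (F × M) μ) (hst : ∀ i j : Fin n, i ≠ j → Sst p i j μ) (a : AZ n) :
    S.NG μ a := by
  refine NG_of_upp S hE ?_
  intro ε hε
  have hup := ginv_up (by omega) S hE hst 1 le_rfl a (ε / 2) (half_pos hε)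
  obtain ⟨C, hC⟩ := (S.V.jet 1 le_rfl).J_le
  have h1 : ∀ᶠ t : ℕ in atTop, |C| + 1 ≤ Real.exp (ε / 2 * t) := by
    have h2 : Tendsto (fun t : ℕ => ε / 2 * (t : ℝ)) atTop atTop :=
      tendsto_natCast_atTop_atTop.const_mul_atTop (half_pos hε)
    exact (Real.tendsto_exp_atTop.comp h2).eventually_ge_atTop _
  refine WP.mono hup ?_
  filter_upwards [h1] with t ht
  refine measure_mono fun x hx => ?_
  have hx' : ε * t < Real.log (fn (S.C (dgh p n a ^ t) x)) := hx
  change Real.exp (ε / 2 * t) < fn (S.D 1 le_rfl (dgh p n (a ^ t)) x)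
  rw [map_pow]
  have hC1 : fn (S.C (dgh p n a ^ t) x) ≤ C * fn (S.D 1 le_rfl (dgh p n a ^ t) x *
      (S.V.jet 1 le_rfl).P) := hC _ _
  have hC2 : fn (S.D 1 le_rfl (dgh p n a ^ t) x * (S.V.jet 1 le_rfl).P) ≤
      fn (S.D 1 le_rfl (dgh p n a ^ t) x) :=
    fn_mul_proj_le (S.V.jet 1 le_rfl).P_symm (S.V.jet 1 le_rfl).P_idem _
  by_contra hcon
  push Not at hcon
  have h0 : 0 ≤ fn (S.C (dgh p n a ^ t) x) := fn_nonneg _
  have h3 : 0 < ε * t ∨ ε * (t : ℝ) = 0 := by
    rcases Nat.eq_zero_or_pos t with h | h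
    · right
      rw [h]
      simp
    · left
      have : (0 : ℝ) < t := by exact_mod_cast h
      positivity
  have h4 : 0 < fn (S.C (dgh p n a ^ t) x) := by
    rcases h0.lt_or_eq with h | h
    · exact h
    · rw [← h, Real.log_zero] at hx'
      rcases h3 with h5 | h5 <;> linarith
  have h5 : Real.exp (ε * t) < fn (S.C (dgh p n a ^ t) x) := by
    rw [← Real.exp_log h4]
    exact Real.exp_lt_exp.2 hx'
  have h6 : fn (S.C (dgh p n a ^ t) x) ≤ (|C| + 1) * Real.exp (ε / 2 * t) := by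
    refine hC1.trans ?_
    refine (mul_le_mul_of_nonneg_right (le_abs_self C) (fn_nonneg _)).trans ?_
    refine (mul_le_mul_of_nonneg_left (hC2.trans hcon) (abs_nonneg C)).trans ?_
    exact mul_le_mul_of_nonneg_right (by linarith) (Real.exp_pos _).le
  have h7 : Real.exp (ε * t) = Real.exp (ε / 2 * t) * Real.exp (ε / 2 * t) := by
    rw [← Real.exp_add]
    congr 1
    ring
  have h8 : (|C| + 1) * Real.exp (ε / 2 * t) ≤ Real.exp (ε / 2 * t) * Real.exp (ε / 2 * t) :=
    mul_le_mul_of_nonneg_right ht (Real.exp_pos _).le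
  linarith

end Pool.Agent.H67.LX
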