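import Mathlib
import Pool.Agent.H67.LX.Defs
import Pool.Agent.H23.DM.Hq2

/-!
PART base (helper23; file by helper45 from helper23's `unique_measure`).  Paper h23 1.5: a
probability on the base that is invariant under `A` and under `U^(i,j)`, `i ∈ I`, `j ∉ I`, is the
invariant measure.
-/

set_option linter.unusedSectionVars false

open MeasureTheory Filter Matrix
open scoped Topology
open Pool.Agent.H73.PZ
open Pool.Agent.H23.DM

namespace Pool.Agent.H67.LX

variable {p : ℕ} [Fact p.Prime] {n : ℕ} {Γ : Subgroup (SLn p n)} {F : Type}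
    [TopologicalSpace F] [CompactSpace F] [T2Space F] [SecondCountableTopology F]
    [MeasurableSpace F] [BorelSpace F] [MulAction (SLn p n) F]

/-- The base as a homogeneous space in the sense of `Pool.Agent.H23.DM.HSp`. -/
theorem HSp_of_Base (B : Base Γ F) : HSp p n F B.h where
  prob := B.prob
  inv := B.inv
  supp := fun U h1 h2 => pos_iff_ne_zero.2 (B.full U h1 h2)
  orb := B.orbit_open
  trans := B.trans

theorem over_haar (hn : 2 ≤ n) (B : Base Γ F) (ν : Measure F) [IsProbabilityMeasure ν]
    (I : Set (Fin n)) (hI : I.Nonempty) (hI' : Iᶜ.Nonempty)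
    (hA : ∀ a : AZ n, Inv (dgh p n a) ν) (hU : ∀ i ∈ I, ∀ j ∉ I, UInv p i j ν) : ν = B.h := by
  have hc : ContinuousSMul (SLn p n) F := ⟨B.cont⟩
  refine unique_measure hn (HSp_of_Base B) hI hI' ν ?_ ?_
  · intro a
    obtain ⟨v, hv, hav⟩ := a.2
    have h1 := hA (mkA v hv)
    have h2 : (fun y : F => a • y) = fun y : F => dgh p n (mkA v hv) • y := by
      funext y
      change (a : SLn p n) • y = dgh p n (mkA v hv) • y
      rw [dgh_apply, ex_mkA, hav]
    rw [h2]
    exact h1
  · intro i j hij hi hj x
    exact hU i hi j hj hij x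

end Pool.Agent.H67.LX
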