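import Mathlib
import Pool.Agent.H67.LX.Cnt

/-!
PART P* (helper67, proved).  Helper lemmas for `CS_of`: the cocycle `al` under small elements, uniform continuity.
-/

set_option linter.unusedSectionVars false

open MeasureTheory Filter Matrix
open scoped Topology
open Pool.Agent.H73.PZ
open Pool.Agent.H23.DM

namespace Pool.Agent.H67.LX

variable {p : ℕ} [Fact p.Prime] {n : ℕ} {Γ : Subgroup (SLn p n)} {F M : Type}
    [TopologicalSpace F] [CompactSpace F] [T2Space F] [SecondCountableTopology F]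
    [MeasurableSpace F] [BorelSpace F] [MulAction (SLn p n) F]
    [TopologicalSpace M] [CompactSpace M] [T2Space M] [SecondCountableTopology M]
    [MeasurableSpace M] [BorelSpace M] [MulAction Γ M]
    [MulAction (SLn p n) (F × M)] [MulAction (AZ n) (F × M)]

/-- If `g h = h' g` with `h, h' ∈ K_2` then `al g (h f) = al g f`. -/
theorem al_K2 (S : Sus Γ F M) {g h h' : SLn p n} (hh : h ∈ KM p n 2) (hh' : h' ∈ KM p n 2)
    (hc : g * h = h' * g) (f : F) : S.B.al g (h • f) = S.B.al g f := by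
  have h1 := S.B.al_mul g h f
  have h2 := S.B.al_mul h' g f
  rw [S.B.al_K h hh, mul_one] at h1
  rw [S.B.al_K h' hh', one_mul] at h2
  rw [← h1, hc, h2]

/-- Finitely many elements of `G` conjugate a small congruence subgroup into a given one. -/
theorem KM_conj_finite (s : Finset (SLn p n)) (M : ℕ) :
    ∃ M' : ℕ, M ≤ M' ∧ ∀ g ∈ s, ∀ u ∈ KM p n M', g * u * g⁻¹ ∈ KM p n M := by
  classical
  induction s using Finset.induction_on with
  | empty => exact ⟨M, le_rfl, fun g hg => absurd hg (Finset.notMem_empty g)⟩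
  | insert a s ha ih =>
    obtain ⟨M₁, h0, h1⟩ := ih
    obtain ⟨M₂, h2⟩ := KM_conj a M
    refine ⟨max M₁ M₂, h0.trans (le_max_left _ _), fun g hg u hu => ?_⟩
    rw [Finset.mem_insert] at hg
    rcases hg with rfl | hg
    · exact h2 u (KM_anti (le_max_right _ _) hu)
    · exact h1 g hg u (KM_anti (le_max_left _ _) hu)

/-- Continuity of the fibre distance. -/
theorem continuous_d (S : Sus Γ F M) : Continuous fun q : M × M => S.d q.1 q.2 := by
  unfold Sus.d dist0 vn
  refine Continuous.sqrt (continuous_finset_sum _ fun i _ => ?_)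
  exact (((S.V.ψ_cont i).comp continuous_snd).sub ((S.V.ψ_cont i).comp continuous_fst)).pow 2

theorem d_eq_zero (S : Sus Γ F M) {m m' : M} (h : S.d m m' = 0) : m = m' := by
  refine S.V.ψ_sep m m' fun i => ?_
  have h1 := vn_eq_zero.1 h
  have h2 := congrFun h1 i
  simp only [Pi.zero_apply] at h2
  linarith

theorem d_nonneg (S : Sus Γ F M) (m m' : M) : 0 ≤ S.d m m' := vn_nonneg _

theorem d_self (S : Sus Γ F M) (m : M) : S.d m m = 0 := by
  refine vn_eq_zero.2 ?_
  funext i
  simp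

/-- Uniform continuity of a continuous function of two points of `F × M`. -/
theorem unif_cont (S : Sus Γ F M) {Φ : (F × M) × (F × M) → ℝ} (hΦ : Continuous Φ) {ε : ℝ}
    (hε : 0 < ε) : ∃ (l : ℕ) (η : ℝ), 2 ≤ l ∧ 0 < η ∧
      ∀ (f f' : F) (m m' m₁ m₁' : M) (g g' : SLn p n), g ∈ KM p n l → g' ∈ KM p n l →
        S.d m m₁ ≤ η → S.d m' m₁' ≤ η →
        |Φ ((g • f, m₁), (g' • f', m₁')) - Φ ((f, m), (f', m'))| ≤ ε := by
  classical
  -- the set of bad configurations
  let Z : Type := (F × F) × ((M × M) × (M × M))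
  have hH : Continuous fun q : (SLn p n × SLn p n) × Z =>
      |Φ ((q.1.1 • q.2.1.1, q.2.2.1.2), (q.1.2 • q.2.1.2, q.2.2.2.2)) -
        Φ ((q.2.1.1, q.2.2.1.1), (q.2.1.2, q.2.2.2.1))| := by
    refine Continuous.abs (Continuous.sub (hΦ.comp ?_) (hΦ.comp ?_))
    · refine Continuous.prodMk (Continuous.prodMk ?_ ?_) (Continuous.prodMk ?_ ?_)
      · exact S.B.cont.comp ((continuous_fst.comp continuous_fst).prodMk
          (continuous_fst.comp (continuous_fst.comp continuous_snd)))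
      · exact continuous_snd.comp (continuous_fst.comp (continuous_snd.comp continuous_snd))
      · exact S.B.cont.comp ((continuous_snd.comp continuous_fst).prodMk
          (continuous_snd.comp (continuous_fst.comp continuous_snd)))
      · exact continuous_snd.comp (continuous_snd.comp (continuous_snd.comp continuous_snd))
    · refine Continuous.prodMk (Continuous.prodMk ?_ ?_) (Continuous.prodMk ?_ ?_)
      · exact continuous_fst.comp (continuous_fst.comp continuous_snd)
      · exact continuous_fst.comp (continuous_fst.comp (continuous_snd.comp continuous_snd))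
      · exact continuous_snd.comp (continuous_fst.comp continuous_snd)
      · exact continuous_fst.comp (continuous_snd.comp (continuous_snd.comp continuous_snd))
  set V : Set ((SLn p n × SLn p n) × Z) := {q |
      |Φ ((q.1.1 • q.2.1.1, q.2.2.1.2), (q.1.2 • q.2.1.2, q.2.2.2.2)) -
        Φ ((q.2.1.1, q.2.2.1.1), (q.2.1.2, q.2.2.2.1))| < ε} with hV
  have hVo : IsOpen V := isOpen_lt hH continuous_const
  set Δ : Set Z := {z | S.d z.2.1.1 z.2.1.2 = 0 ∧ S.d z.2.2.1 z.2.2.2 = 0} with hΔ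
  have hc1 : Continuous fun z : Z => S.d z.2.1.1 z.2.1.2 :=
    (continuous_d S).comp (continuous_fst.comp continuous_snd)
  have hc2 : Continuous fun z : Z => S.d z.2.2.1 z.2.2.2 :=
    (continuous_d S).comp (continuous_snd.comp continuous_snd)
  have hΔc : IsCompact Δ :=
    ((isClosed_eq hc1 continuous_const).inter (isClosed_eq hc2 continuous_const)).isCompact
  have hsub : ({(1, 1)} : Set (SLn p n × SLn p n)) ×ˢ Δ ⊆ V := by
    rintro ⟨⟨g, g'⟩, z⟩ ⟨hg, hz⟩
    rw [Set.mem_singleton_iff, Prod.mk.injEq] at hg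
    obtain ⟨rfl, rfl⟩ := hg
    change |Φ (((1 : SLn p n) • z.1.1, z.2.1.2), ((1 : SLn p n) • z.1.2, z.2.2.2)) -
        Φ ((z.1.1, z.2.1.1), (z.1.2, z.2.2.1))| < ε
    rw [one_smul, one_smul, d_eq_zero S hz.1, d_eq_zero S hz.2, sub_self, abs_zero]
    exact hε
  obtain ⟨U, W, hUo, hWo, hU, hW, hUW⟩ :=
    generalized_tube_lemma isCompact_singleton hΔc hVo hsub
  -- a congruence subgroup inside U
  have hU1 : ((1, 1) : SLn p n × SLn p n) ∈ U := hU rfl
  have hUn : U ∈ 𝓝 ((1, 1) : SLn p n × SLn p n) := hUo.mem_nhds hU1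
  rw [nhds_prod_eq, Filter.mem_prod_iff] at hUn
  obtain ⟨U₁, hU₁, U₂, hU₂, hU12⟩ := hUn
  obtain ⟨l₁, hl₁⟩ := exists_KM_subset hU₁
  obtain ⟨l₂, hl₂⟩ := exists_KM_subset hU₂
  -- a small distance
  obtain ⟨η, hη, hηW⟩ : ∃ η : ℝ, 0 < η ∧ ∀ z : Z, S.d z.2.1.1 z.2.1.2 ≤ η →
      S.d z.2.2.1 z.2.2.2 ≤ η → z ∈ W := by
    have hWc : IsCompact Wᶜ := hWo.isClosed_compl.isCompact
    rcases Set.eq_empty_or_nonempty Wᶜ with hemp | hne
    · refine ⟨1, one_pos, fun z _ _ => ?_⟩
      by_contra hz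
      have : z ∈ Wᶜ := hz
      rw [hemp] at this
      exact this
    · obtain ⟨z₀, hz₀, hmin⟩ := hWc.exists_isMinOn hne
        ((hc1.max hc2).continuousOn)
      have hpos : 0 < max (S.d z₀.2.1.1 z₀.2.1.2) (S.d z₀.2.2.1 z₀.2.2.2) := by
        by_contra hcon
        have h1 : max (S.d z₀.2.1.1 z₀.2.1.2) (S.d z₀.2.2.1 z₀.2.2.2) ≤ 0 := not_lt.1 hcon
        refine hz₀ (hW ⟨le_antisymm ((le_max_left _ _).trans h1) (d_nonneg S _ _),
          le_antisymm ((le_max_right _ _).trans h1) (d_nonneg S _ _)⟩)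
      refine ⟨max (S.d z₀.2.1.1 z₀.2.1.2) (S.d z₀.2.2.1 z₀.2.2.2) / 2, by linarith,
        fun z h1 h2 => ?_⟩
      by_contra hz
      have h3 := hmin (show z ∈ Wᶜ from hz)
      have h4 : max (S.d z₀.2.1.1 z₀.2.1.2) (S.d z₀.2.2.1 z₀.2.2.2) ≤
        max (S.d z.2.1.1 z.2.1.2) (S.d z.2.2.1 z.2.2.2) := h3
      have h5 := max_le h1 h2
      linarith
  refine ⟨max 2 (max l₁ l₂), η, le_max_left _ _, hη, fun f f' m m' m₁ m₁' g g' hg hg' h h' => ?_⟩
  have hq : ((g, g'), (((f, f'), ((m, m₁), (m', m₁'))) : Z)) ∈ V := by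
    refine hUW ⟨hU12 ⟨hl₁ (KM_anti ((le_max_left _ _).trans (le_max_right _ _)) hg),
      hl₂ (KM_anti ((le_max_right _ _).trans (le_max_right _ _)) hg')⟩, ?_⟩
    exact hηW _ h h'
  exact hq.le

end Pool.Agent.H67.LX
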