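import Mathlib
import Pool.Agent.H67.LX.Split
import Pool.Agent.H67.LX.Mau
import Pool.Agent.H10.PS.Asm

/-!
PART coupling (helper10, helper23).  Paper (I1).  `(j,k)` is a root with `rt j k b = 0`; `s < p ^ B` is uniformly
distributed, `fh s y = u^(j,k)(- p² s) y.1`; names `nm b ρ W T y N = ⌊ψ (position at time N T) / ρ⌋`, `|N| ≤ W`.  The digits of
`s` in a short block are almost independent of the names, `fh` and the previous digits.  (The functions `φ` are
`KM l`-invariant; for `B ≥ l` the average over `s < p ^ B` is the average over `ℤ_p`.)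
-/

set_option linter.unusedSectionVars false

open MeasureTheory Filter Matrix
open scoped Topology
open Pool.Agent.H73.PZ
open Pool.Agent.H23.DM

namespace Pool.Agent.H67.LX

variable {p : ℕ} [Fact p.Prime] {n : ℕ} {Γ : Subgroup (SLn p n)} {F M : Type}
    [TopologicalSpace F] [CompactSpace F] [T2Space F] [SecondCountableTopology F]
    [MeasurableSpace F] [BorelSpace F] [MulAction (SLn p n) F]
    [TopologicalSpace M] [CompactSpace M] [T2Space M] [SecondCountableTopology M]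
    [MeasurableSpace M] [BorelSpace M] [MulAction Γ M]
    [MulAction (SLn p n) (F × M)] [MulAction (AZ n) (F × M)]

/-- The base point `u^(j,k)(- p² s) f`. -/
noncomputable def fh (_S : Sus Γ F M) {j k : Fin n} (hjk : j ≠ k) (s : ℕ) (y : F × M) : F :=
  EE hjk (-((p : ℚ_[p]) ^ 2 * (s : ℚ_[p]))) • y.1

/-- The name at time `N T` for `|N| ≤ W`, and `0` otherwise. -/
noncomputable def nm (S : Sus Γ F M) (b : AZ n) (ρ : ℝ) (W T : ℕ) (y : F × M) (N : ℤ)
    (i : S.V.κ) : ℤ :=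
  if |N| ≤ W then ⌊S.V.ψ i (S.B.al (dgh p n (b ^ (N * T))) y.1 • y.2) / ρ⌋ else 0

/-- The window starting at time `- W T`. -/
private noncomputable def Coup_ext {κ : Type} (W : ℕ) (v : Fin (2 * W + 1) → κ → ℤ) (N : ℤ)
    (i : κ) : ℤ :=
  if h : |N| ≤ W then v ⟨(N + W).toNat, by
    have h1 := abs_le.1 h
    omega⟩ i else 0

private theorem Coup_nm (S : Sus Γ F M) (b : AZ n) (ρ : ℝ) (W T : ℕ) (y : F × M) :
    nm S b ρ W T ((dgh p n b) ^ (W * T) • y) =
      Coup_ext W fun j i => ⌊S.V.ψ i ((dgh p n b) ^ ((j : ℕ) * T) • y).2 / ρ⌋ := by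
  funext N i
  unfold nm Coup_ext
  by_cases h : |N| ≤ W
  · rw [if_pos h, dif_pos h]
    have h1 := abs_le.1 h
    have h2 : ((N + W).toNat : ℤ) = N + W := Int.toNat_of_nonneg (by omega)
    have e1 : dgh p n (b ^ (N * T)) * (dgh p n b) ^ (W * T) =
        (dgh p n b) ^ ((N + W).toNat * T) := by
      rw [map_zpow, ← zpow_natCast, ← zpow_natCast, ← _root_.zpow_add]
      congr 1
      push_cast
      rw [h2]
      ring
    have e2 : S.B.al (dgh p n (b ^ (N * T))) ((dgh p n b) ^ (W * T) • y).1 •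
        ((dgh p n b) ^ (W * T) • y).2 = ((dgh p n b) ^ ((N + W).toNat * T) • y).2 := by
      rw [← S.snd_smul, ← mul_smul, e1]
    rw [e2]
  · rw [if_neg h, dif_neg h]

private theorem Coup_comm {j k : Fin n} (hjk : j ≠ k) (b : AZ n) (hb : rt j k b = 0) (t : ℕ)
    (x : ℚ_[p]) : EE hjk x * (dgh p n b) ^ t = (dgh p n b) ^ t * EE hjk x := by
  rw [← map_pow, dgh_conj, rt_pow, hb, mul_zero, neg_zero, zpow_zero, one_mul]

theorem coupling (S : Sus Γ F M) {μ : Measure (F × M)} (hE : Sys (AZ n) (F × M) μ)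
    (hov : S.OvH μ) {j k : Fin n} (hjk : j ≠ k) (b : AZ n) (hb : rt j k b = 0)
    (e : ℕ) (he : 1 ≤ e) (q : ℕ) {η : ℝ} (hη : 0 < η) :
    ∃ ε : ℝ, 0 < ε ∧ ∃ c : ℕ, ∀ C R : ℕ, 1 ≤ R → ∃ᶠ T : ℕ in atTop, ∀ l₀ : ℕ, ∃ l : ℕ, l₀ ≤ l ∧
      ∃ B i : ℕ, R * T ≤ c * i ∧ i + q ≤ R * T ∧
        ∀ φ : F → (ℤ → S.V.κ → ℤ) → ZMod (p ^ (e * (i + q))) → ℝ,
          (∀ f v t, 0 ≤ φ f v t ∧ φ f v t ≤ 1) →
          (∀ f v t, ∀ g ∈ KM p n l, φ (g • f) v t = φ f v t) →
          |(∑ s ∈ Finset.range (p ^ B), ∫ y,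
              (φ (fh S hjk s y) (nm S b (Real.exp (-(ε * (R * T)))) (C * R) T y) (s : ZMod _) -
                φ (fh S hjk s y) (nm S b (Real.exp (-(ε * (R * T)))) (C * R) T y)
                  ((s : ZMod _) + (p : ZMod _) ^ (e * i))) ∂μ)| ≤ η * p ^ B := by
  rcases Nat.eq_zero_or_pos q with hq0 | hq
  · -- no digits
    subst hq0
    refine ⟨1, one_pos, 1, fun C R hR => Filter.Eventually.frequently ?_⟩
    refine Filter.Eventually.of_forall fun T l₀ => ⟨l₀, le_rfl, 0, R * T, by rw [one_mul], le_rfl,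
      fun φ _ _ => ?_⟩
    have h1 : (p : ZMod (p ^ (e * (R * T + 0)))) ^ (e * (R * T)) = 0 := by
      rw [← Nat.cast_pow, add_zero]
      exact ZMod.natCast_self _
    simp only [h1, add_zero, sub_self, integral_zero, Finset.sum_const_zero, abs_zero]
    positivity
  · obtain ⟨ε, hε, H⟩ := Pool.Agent.H10.PS.coup_sus S hE hov hjk b hb e he q hq hη
    refine ⟨ε, hε, 8 * e, fun C R hR => Filter.frequently_atTop.2 fun T0 => ?_⟩
    obtain ⟨T, hT, i, hi1, hi2, hi3⟩ := H (2 * (C * R) + 1) R hR T0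
    refine ⟨T, hT, fun l₀ => ?_⟩
    obtain ⟨g, hg⟩ : ∃ g : SLn p n, g = (dgh p n b) ^ (C * R * T) := ⟨_, rfl⟩
    obtain ⟨l', hl'⟩ := KM_conj g l₀
    obtain ⟨B, hB⟩ := hi3 l'
    refine ⟨l₀, le_rfl, B, i, hi1, hi2, fun φ hφ hφ' => ?_⟩
    have h := hB (fun f v t => φ (g • f) (Coup_ext (C * R) v) t) (fun f v t => hφ _ _ _)
      (fun f v t u hu => by
        have hu' : u ∈ KM p n l' := Pool.Agent.H10.PS.KM_mono (Nat.le_add_right l' 2) hu
        have e1 : g • u • f = (g * u * g⁻¹) • g • f := by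
          rw [← mul_smul, ← mul_smul]
          congr 1
          group
        rw [e1]
        exact hφ' _ _ _ _ (hl' u hu'))
    have hmp : MeasurePreserving (fun y : F × M => g • y) μ μ := by
      have h1 := S.ainv_of_sys hE (b ^ (C * R * T))
      rw [map_pow, ← hg] at h1
      exact h1
    have hme : MeasurableEmbedding fun y : F × M => g • y := by
      have hc : Continuous fun y : F × M => g⁻¹ • y := S.continuous_smul g⁻¹
      exact (Homeomorph.mk (Equiv.mk (fun y : F × M => g • y) (fun y : F × M => g⁻¹ • y)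
        (fun y => inv_smul_smul g y) fun y => smul_inv_smul g y) (S.continuous_smul g)
        hc).measurableEmbedding
    have key : ∀ s : ℕ, ∫ y, (φ (fh S hjk s y) (nm S b (Real.exp (-(ε * (R * T)))) (C * R) T y)
          (s : ZMod _) -
        φ (fh S hjk s y) (nm S b (Real.exp (-(ε * (R * T)))) (C * R) T y)
          ((s : ZMod _) + (p : ZMod _) ^ (e * i))) ∂μ =
        ∫ y : F × M, (φ (g • EE hjk (-((p : ℚ_[p]) ^ 2 * (s : ℚ_[p]))) • y.1)
          (Coup_ext (C * R) fun j i => ⌊S.V.ψ i ((dgh p n b) ^ ((j : ℕ) * T) • y).2 /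
            Real.exp (-(ε * (R * T)))⌋) (s : ZMod _) -
          φ (g • EE hjk (-((p : ℚ_[p]) ^ 2 * (s : ℚ_[p]))) • y.1)
          (Coup_ext (C * R) fun j i => ⌊S.V.ψ i ((dgh p n b) ^ ((j : ℕ) * T) • y).2 /
            Real.exp (-(ε * (R * T)))⌋) ((s : ZMod _) + (p : ZMod _) ^ (e * i))) ∂μ := by
      intro s
      rw [← hmp.integral_comp hme]
      refine integral_congr_ae (Filter.Eventually.of_forall fun y => ?_)
      have e1 : fh S hjk s (g • y) = g • EE hjk (-((p : ℚ_[p]) ^ 2 * (s : ℚ_[p]))) • y.1 := by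
        unfold fh
        rw [S.fst_smul, ← mul_smul, ← mul_smul, hg, Coup_comm hjk b hb, neg_mul_eq_neg_mul]
      have e2 := Coup_nm S b (Real.exp (-(ε * (R * T)))) (C * R) T y
      rw [← hg] at e2
      simp only [e1, e2]
    rw [Finset.sum_congr rfl fun s _ => key s]
    exact h

end Pool.Agent.H67.LX
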