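import Mathlib
import Pool.Agent.H67.LX.CSa
import Pool.Agent.H67.LX.Coup

/-!
PART P* (helper67, proved).  The pair of points of the coupling after the shift.
-/

set_option linter.unusedSectionVars false

open MeasureTheory Filter Matrix
open scoped Topology
open Pool.Agent.H73.PZ
open Pool.Agent.H23.DM

namespace Pool.Agent.H67.LX

variable {p : ℕ} [Fact p.Prime] {n : ℕ} {Γ : Subgroup (SLn p n)} {F M : Type}
    [TopologicalSpace F] [CompactSpace F] [T2Space F] [SecondCountableTopology F]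
    [MeasurableSpace F] [BorelSpace F] [MulAction (SLn p n) F]
    [TopologicalSpace M] [CompactSpace M] [T2Space M] [SecondCountableTopology M]
    [MeasurableSpace M] [BorelSpace M] [MulAction Γ M]
    [MulAction (SLn p n) (F × M)] [MulAction (AZ n) (F × M)]

theorem EE_zero {i j : Fin n} (h : i ≠ j) : (EE h (0 : ℚ_[p]) : SLn p n) = 1 :=
  Subtype.ext (by simp)

theorem EE_mul_neg {i j : Fin n} (h : i ≠ j) (x : ℚ_[p]) :
    EE h x * EE h (-x) = (1 : SLn p n) := by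
  rw [← EE_add, add_neg_cancel, EE_zero]

theorem EE_neg_mul {i j : Fin n} (h : i ≠ j) (x : ℚ_[p]) :
    EE h (-x) * EE h x = (1 : SLn p n) := by
  rw [← EE_add, neg_add_cancel, EE_zero]

theorem norm_nat_le_one (s : ℕ) : ‖(s : ℚ_[p])‖ ≤ 1 := by
  have := Padic.norm_int_le_one (p := p) (s : ℤ)
  simpa using this

theorem norm_p_pow (k : ℕ) : ‖(p : ℚ_[p]) ^ k‖ = (p : ℝ) ^ (-(k : ℤ)) := by
  rw [← zpow_natCast, norm_p_zpow]

/-- `u^(a,c)(p² t) ∈ K_2` for a natural number or a difference of natural numbers. -/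
theorem mem_KM_two {a c : Fin n} (hac : a ≠ c) {t : ℚ_[p]} (ht : ‖t‖ ≤ 1) :
    (EE hac ((p : ℚ_[p]) ^ 2 * t) : SLn p n) ∈ KM p n 2 := by
  refine EE_mem_KM hac ?_
  rw [norm_mul, norm_p_pow]
  have : (0 : ℝ) ≤ (p : ℝ) ^ (-((2 : ℕ) : ℤ)) := by positivity
  nlinarith [norm_nonneg t]

/-- The base point of the second point. -/
theorem fst_of_fh (S : Sus Γ F M) {a c : Fin n} (hac : a ≠ c) {s s' : ℕ} {y y' : F × M}
    {κ : SLn p n} (h : fh S hac s' y' = κ • fh S hac s y) :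
    y'.1 = (EE hac ((p : ℚ_[p]) ^ 2 * ((s' : ℚ_[p]) - (s : ℚ_[p]))) *
      (EE hac ((p : ℚ_[p]) ^ 2 * (s : ℚ_[p])) * κ * (EE hac ((p : ℚ_[p]) ^ 2 * (s : ℚ_[p])))⁻¹)) • y.1 := by
  unfold fh at h
  have h1 : y'.1 = (EE hac ((p : ℚ_[p]) ^ 2 * (s' : ℚ_[p])) * (EE hac (-((p : ℚ_[p]) ^ 2 * (s' : ℚ_[p]))))) • y'.1 := by
    rw [EE_mul_neg, one_smul]
  rw [h1, mul_smul, h, ← mul_smul, ← mul_smul]
  congr 1
  have h2 : (EE hac ((p : ℚ_[p]) ^ 2 * (s : ℚ_[p])) : SLn p n)⁻¹ = EE hac (-((p : ℚ_[p]) ^ 2 * (s : ℚ_[p]))) :=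
    EE_inv hac _
  have h3 : (EE hac ((p : ℚ_[p]) ^ 2 * (s' : ℚ_[p])) : SLn p n) =
      EE hac ((p : ℚ_[p]) ^ 2 * ((s' : ℚ_[p]) - (s : ℚ_[p]))) * EE hac ((p : ℚ_[p]) ^ 2 * (s : ℚ_[p])) := by
    rw [← EE_add]
    congr 1
    ring
  rw [h2, h3]
  group

/-- The cocycle `al (b^M)` does not see the `U^(a,c)`-coordinate. -/
theorem al_pair (S : Sus Γ F M) {a c : Fin n} (hac : a ≠ c) {w : ℚ_[p]} (hw : EE hac w ∈ KM p n 2) {κ : SLn p n} (hκ : κ ∈ KM p n 2) (g : AZ n)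
    (hg : rt a c g = 0) (hκ' : dgh p n g * κ * (dgh p n g)⁻¹ ∈ KM p n 2) (f : F) :
    S.B.al (dgh p n g) ((EE hac w * κ) • f) = S.B.al (dgh p n g) f := by
  refine al_K2 S (h' := EE hac w * (dgh p n g * κ * (dgh p n g)⁻¹)) (mul_mem hw hκ)
    (mul_mem hw hκ') ?_ f
  have h1 : dgh p n g * EE hac w = EE hac w * dgh p n g := by
    rw [dgh_conj, hg, neg_zero, zpow_zero, one_mul]
  rw [← mul_assoc, h1]
  group

/-- Names control the distance. -/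
theorem d_of_nm (S : Sus Γ F M) {b : AZ n} {ρ : ℝ} (hρ : 0 < ρ) {W T : ℕ} {y y' : F × M}
    (h : nm S b ρ W T y' = nm S b ρ W T y) {N : ℤ} (hN : |N| ≤ W)
    (hal : S.B.al (dgh p n (b ^ (N * T))) y'.1 = S.B.al (dgh p n (b ^ (N * T))) y.1) :
    S.d (S.B.al (dgh p n (b ^ (N * T))) y.1 • y.2) (S.B.al (dgh p n (b ^ (N * T))) y.1 • y'.2) ≤
      Fintype.card S.V.κ * ρ := by
  unfold Sus.d dist0
  refine vn_le_of_entries hρ.le fun i => ?_
  have h1 : ⌊S.V.ψ i (S.B.al (dgh p n (b ^ (N * T))) y'.1 • y'.2) / ρ⌋ =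
      ⌊S.V.ψ i (S.B.al (dgh p n (b ^ (N * T))) y.1 • y.2) / ρ⌋ := by
    have h2 := congrFun (congrFun h N) i
    unfold nm at h2
    rw [if_pos hN, if_pos hN] at h2
    exact h2
  rw [hal] at h1
  have h2 := Int.abs_sub_lt_one_of_floor_eq_floor h1
  rw [← sub_div, abs_div, abs_of_pos hρ, div_lt_one hρ] at h2
  exact h2.le

end Pool.Agent.H67.LX
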