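import Mathlib
import Pool.Agent.H67.LX.CSb

/-!
PART P* (helper67, proved).  The pair of points of the coupling after the shift: group computations.
-/

set_option linter.unusedSectionVars false

open MeasureTheory Filter Matrix
open scoped Topology
open Pool.Agent.H73.PZ
open Pool.Agent.H23.DM

namespace Pool.Agent.H67.LX

variable {p : ℕ} [Fact p.Prime] {n : ℕ} {Γ : Subgroup (SLn p n)} {F M : Type}
    [TopologicalSpace F] [CompactSpace F] [T2Space F] [SecondCountableTopology F]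
    [MeasurableSpace F] [BorelSpace F] [MulAction (SLn p n) F]
    [TopologicalSpace M] [CompactSpace M] [T2Space M] [SecondCountableTopology M]
    [MeasurableSpace M] [BorelSpace M] [MulAction Γ M]
    [MulAction (SLn p n) (F × M)] [MulAction (AZ n) (F × M)]

theorem grp1 {G : Type} [Group G] {B A Z Z' κ : G} (h1 : B * A = A * B) (h2 : B * Z = Z' * B) :
    B * (A * Z * κ) = (A * Z' * (B * κ * B⁻¹)) * B := by
  have e1 : B * (A * Z * κ) = B * A * Z * κ := by group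
  have e2 : A * B * Z * κ = A * (B * Z) * κ := by group
  rw [e1, h1, e2, h2]
  group

theorem grp2 {G : Type} [Group G] (V A Z κ : G) :
    V * (A * Z * κ) = (V * A * V⁻¹) * (V * Z) * κ := by group

theorem grp3 {G : Type} [Group G] {u A Z κ : G} (h : u * A = A * Z * u) :
    u * (A * κ) = (A * Z * (u * κ * u⁻¹)) * u := by
  rw [← mul_assoc, h]
  group

theorem grp4 {G : Type} [Group G] {B A κ : G} (h : B * A = A * B) :
    B * (A * κ) = (A * (B * κ * B⁻¹)) * B := by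
  rw [← mul_assoc, h]
  group

/-- The unshifted second point. -/
theorem pair_unshifted (S : Sus Γ F M) {a c : Fin n} (hac : a ≠ c) {g : AZ n}
    (hg : rt a c g = 0) {L L₁ : ℕ} (hL : 2 ≤ L) (hL₁ : L ≤ L₁)
    (hconj : ∀ u ∈ KM p n L₁, dgh p n g * u * (dgh p n g)⁻¹ ∈ KM p n L)
    {κ : SLn p n} (hκ : κ ∈ KM p n L₁) {w : ℚ_[p]} (hw : EE hac w ∈ KM p n L) {y y' : F × M}
    (hf : y'.1 = (EE hac w * κ) • y.1) :
    ∃ h ∈ KM p n L, dgh p n g • y' = (h • dgh p n g • y.1, S.B.al (dgh p n g) y.1 • y'.2) := by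
  have hBac : dgh p n g * EE hac w = EE hac w * dgh p n g := by
    rw [dgh_conj, hg, neg_zero, zpow_zero, one_mul]
  refine ⟨EE hac w * (dgh p n g * κ * (dgh p n g)⁻¹), mul_mem hw (hconj _ hκ), ?_⟩
  rw [S.smul_def, hf, al_pair S hac (KM_anti hL hw) (KM_anti (hL.trans hL₁) hκ) g hg
    (KM_anti hL (hconj _ hκ)) y.1, ← mul_smul, ← mul_smul, grp4 hBac]

/-- The shifted second point. -/
theorem pair_shifted (S : Sus Γ F M) {i j a c k l : Fin n} (hij : i ≠ j) (hac : a ≠ c)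
    (hkl : k ≠ l) {g : AZ n} (hg : rt a c g = 0) {L L₁ : ℕ} (hL : 2 ≤ L) (hL₁ : L ≤ L₁)
    (hconj : ∀ u ∈ KM p n L₁, dgh p n g * u * (dgh p n g)⁻¹ ∈ KM p n L)
    {κ : SLn p n} (hκ : κ ∈ KM p n L₁) {w : ℚ_[p]} (hw : EE hac w ∈ KM p n L) {x x' : ℚ_[p]}
    (hx : EE hij x ∈ KM p n 2) (hgx : dgh p n g * EE hij x = EE hij x' * dgh p n g)
    {z z' z₀ : ℚ_[p]} (hxw : EE hij x * EE hac w = (EE hac w * EE hkl z * EE hij x : SLn p n))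
    (hz : EE hkl z ∈ KM p n 2) (hz' : EE hkl z' ∈ KM p n 2)
    (hgz : dgh p n g * EE hkl z = EE hkl z' * dgh p n g)
    (hz₀ : EE hkl (-z₀) ∈ KM p n 2) (hzz : EE hkl (z' - z₀) ∈ KM p n L) {y y' : F × M}
    (hf : y'.1 = (EE hac w * κ) • y.1) :
    ∃ h ∈ KM p n L, EE hkl (-z₀) • EE hij x' • dgh p n g • y' =
      (h • dgh p n g • EE hij x • y.1, S.B.al (dgh p n g) (EE hij x • y.1) • y'.2) := by
  have hBac : dgh p n g * EE hac w = EE hac w * dgh p n g := by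
    rw [dgh_conj, hg, neg_zero, zpow_zero, one_mul]
  have hκ₂ : EE hij x * κ * (EE hij x)⁻¹ ∈ KM p n L₁ := KM_conj_KK (KM_le_KK 2 hx) hκ
  have hBy := grp1 (κ := EE hij x * κ * (EE hij x)⁻¹) hBac hgz
  have huy : EE hij x • y'.1 =
      (EE hac w * EE hkl z * (EE hij x * κ * (EE hij x)⁻¹)) • EE hij x • y.1 := by
    rw [hf, ← mul_smul, ← mul_smul, grp3 hxw]
  have hal : S.B.al (dgh p n g) (EE hij x • y'.1) = S.B.al (dgh p n g) (EE hij x • y.1) := by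
    rw [huy]
    exact al_K2 S (mul_mem (mul_mem (KM_anti hL hw) hz) (KM_anti (hL.trans hL₁) hκ₂))
      (mul_mem (mul_mem (KM_anti hL hw) hz') (KM_anti hL (hconj _ hκ₂))) hBy _
  refine ⟨EE hkl (-z₀) * (EE hac w * EE hkl z' *
    (dgh p n g * (EE hij x * κ * (EE hij x)⁻¹) * (dgh p n g)⁻¹)), ?_, ?_⟩
  · rw [grp2, ← EE_add]
    have e1 : -z₀ + z' = z' - z₀ := by ring
    rw [e1]
    exact mul_mem (mul_mem (KM_conj_KK (KM_le_KK 2 hz₀) hw) hzz) (hconj _ hκ₂)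
  · have e2 : EE hij x' • dgh p n g • y' = dgh p n g • EE hij x • y' := by
      rw [← mul_smul, ← hgx, mul_smul]
    rw [e2, S.smul_def (EE hij x), S.B.al_K _ hx, one_smul, S.smul_def (dgh p n g),
      S.smul_def (EE hkl (-z₀)), S.B.al_K _ hz₀, one_smul]
    change (EE hkl (-z₀) • dgh p n g • EE hij x • y'.1,
      S.B.al (dgh p n g) (EE hij x • y'.1) • y'.2) = _
    rw [hal, huy, ← mul_smul (dgh p n g), hBy, mul_smul _ (dgh p n g), ← mul_smul (EE hkl (-z₀))]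

/-- The two points of the coupling after the shift. -/
theorem pair_close (S : Sus Γ F M) {i j a c k l : Fin n} (hij : i ≠ j) (hac : a ≠ c)
    (hkl : k ≠ l) (sg : ℚ_[p]) (hsg : sg = 1 ∨ sg = -1)
    (hcomm : ∀ x w : ℚ_[p], EE hij (-x) * EE hac w * EE hij x =
      (EE hac w * EE hkl (sg * x * w) : SLn p n))
    (b : AZ n) (hb : rt a c b = 0) (e : ℕ) (hbi : rt i j b = e) (hbk : rt k l b = e)
    {Φ : (F × M) × (F × M) → ℝ} {ε η : ℝ} {L : ℕ} (hL : 2 ≤ L)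
    (hΦ : ∀ (f f' : F) (m m' m₁ m₁' : M) (g g' : SLn p n), g ∈ KM p n L → g' ∈ KM p n L →
        S.d m m₁ ≤ η → S.d m' m₁' ≤ η →
        |Φ ((g • f, m₁), (g' • f', m₁')) - Φ ((f, m), (f', m'))| ≤ ε)
    {t s s' L₁ : ℕ} (hL₁ : L ≤ L₁)
    (hconj : ∀ u ∈ KM p n L₁, dgh p n (b ^ t) * u * (dgh p n (b ^ t))⁻¹ ∈ KM p n L)
    {κ : SLn p n} (hκ : κ ∈ KM p n L₁) {y y' : F × M}
    (hfh : fh S hac s' y' = κ • fh S hac s y)
    (hw : ‖(p : ℚ_[p]) ^ 2 * ((s' : ℚ_[p]) - (s : ℚ_[p]))‖ ≤ (p : ℝ) ^ (-(L : ℤ)))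
    (hz : ‖(p : ℚ_[p]) ^ (-((e : ℤ) * t)) * (sg * (p : ℚ_[p]) ^ 2 *
      ((p : ℚ_[p]) ^ 2 * ((s' : ℚ_[p]) - (s : ℚ_[p])))) - sg * (p : ℚ_[p]) ^ 4‖ ≤
        (p : ℝ) ^ (-(L : ℤ)))
    (h1 : S.d (S.B.al (dgh p n (b ^ t)) (EE hij (-(p : ℚ_[p]) ^ 2) • y.1) • y.2)
      (S.B.al (dgh p n (b ^ t)) (EE hij (-(p : ℚ_[p]) ^ 2) • y.1) • y'.2) ≤ η)
    (h2 : S.d (S.B.al (dgh p n (b ^ t)) y.1 • y.2) (S.B.al (dgh p n (b ^ t)) y.1 • y'.2) ≤ η) :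
    |Φ (EE hkl (-(sg * (p : ℚ_[p]) ^ 4)) •
        EE hij ((p : ℚ_[p]) ^ (-((e : ℤ) * t)) * -(p : ℚ_[p]) ^ 2) • dgh p n (b ^ t) • y',
        dgh p n (b ^ t) • y') -
      Φ (EE hij ((p : ℚ_[p]) ^ (-((e : ℤ) * t)) * -(p : ℚ_[p]) ^ 2) • dgh p n (b ^ t) • y,
        dgh p n (b ^ t) • y)| ≤ ε := by
  have hp1 : (1 : ℝ) < p := by exact_mod_cast (Fact.out : p.Prime).one_lt
  have hsn : ‖sg‖ = 1 := by
    rcases hsg with rfl | rfl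
    · exact norm_one
    · rw [norm_neg]; exact norm_one
  obtain ⟨w, hwdef⟩ : ∃ w : ℚ_[p], w = (p : ℚ_[p]) ^ 2 * ((s' : ℚ_[p]) - (s : ℚ_[p])) := ⟨_, rfl⟩
  rw [← hwdef] at hw hz
  obtain ⟨κ₁, hκ₁⟩ : ∃ κ₁ : SLn p n, κ₁ = EE hac ((p : ℚ_[p]) ^ 2 * (s : ℚ_[p])) * κ *
    (EE hac ((p : ℚ_[p]) ^ 2 * (s : ℚ_[p])))⁻¹ := ⟨_, rfl⟩
  have hf' : y'.1 = (EE hac w * κ₁) • y.1 := by
    rw [hwdef, hκ₁]
    exact fst_of_fh S hac hfh
  have hκ₁L : κ₁ ∈ KM p n L₁ := by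
    rw [hκ₁]
    exact KM_conj_KK (KM_le_KK 2 (mem_KM_two hac (norm_nat_le_one s))) hκ
  have hwL : (EE hac w : SLn p n) ∈ KM p n L := EE_mem_KM hac hw
  have hrt : rt a c (b ^ t) = 0 := by rw [rt_pow, hb, mul_zero]
  obtain ⟨z, hzdef⟩ : ∃ z : ℚ_[p], z = sg * (p : ℚ_[p]) ^ 2 * w := ⟨_, rfl⟩
  rw [← hzdef] at hz
  have hxw : EE hij (-(p : ℚ_[p]) ^ 2) * EE hac w =
      (EE hac w * EE hkl z * EE hij (-(p : ℚ_[p]) ^ 2) : SLn p n) := by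
    rw [hzdef, ← hcomm, mul_assoc, mul_assoc, EE_mul_neg, mul_one]
  have hz0 : ‖sg * (p : ℚ_[p]) ^ 4‖ ≤ (p : ℝ) ^ (-((2 : ℕ) : ℤ)) := by
    rw [norm_mul, hsn, one_mul, norm_p_pow]
    exact zpow_le_zpow_right₀ hp1.le (by norm_num)
  have hzn : ‖(p : ℚ_[p]) ^ (-((e : ℤ) * t)) * z‖ ≤ (p : ℝ) ^ (-((2 : ℕ) : ℤ)) := by
    have e1 : (p : ℚ_[p]) ^ (-((e : ℤ) * t)) * z = ((p : ℚ_[p]) ^ (-((e : ℤ) * t)) * z -
      sg * (p : ℚ_[p]) ^ 4) + sg * (p : ℚ_[p]) ^ 4 := by ring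
    rw [e1]
    refine (IsUltrametricDist.norm_add_le_max _ _).trans (max_le ?_ hz0)
    refine hz.trans (zpow_le_zpow_right₀ hp1.le ?_)
    have : (2 : ℤ) ≤ L := by exact_mod_cast hL
    push_cast
    omega
  have hxwn : ‖z‖ ≤ (p : ℝ) ^ (-((2 : ℕ) : ℤ)) := by
    rw [hzdef, norm_mul, norm_mul, hsn, one_mul, norm_p_pow]
    have h5 : ‖w‖ ≤ 1 := hw.trans (by
      rw [_root_.zpow_neg]
      exact inv_le_one_of_one_le₀ (one_le_zpow₀ hp1.le (by positivity)))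
    have h6 : (0 : ℝ) ≤ (p : ℝ) ^ (-((2 : ℕ) : ℤ)) := by positivity
    nlinarith [norm_nonneg w]
  obtain ⟨h, hh, e4⟩ := pair_unshifted S hac (g := b ^ t) hrt hL hL₁ hconj hκ₁L hwL hf'
  obtain ⟨h', hh', e2⟩ := pair_shifted S hij hac hkl (g := b ^ t) hrt hL hL₁ hconj hκ₁L hwL
    (x := -(p : ℚ_[p]) ^ 2) (x' := (p : ℚ_[p]) ^ (-((e : ℤ) * t)) * -(p : ℚ_[p]) ^ 2)
    (EE_mem_KM hij (by rw [norm_neg, norm_p_pow]))
    (by rw [dgh_conj, rt_pow, hbi, mul_comm (t : ℤ)]) (z := z)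
    (z' := (p : ℚ_[p]) ^ (-((e : ℤ) * t)) * z) (z₀ := sg * (p : ℚ_[p]) ^ 4) hxw
    (EE_mem_KM hkl hxwn) (EE_mem_KM hkl hzn)
    (by rw [dgh_conj, rt_pow, hbk, mul_comm (t : ℤ)])
    (EE_mem_KM hkl (by rw [norm_neg]; exact hz0)) (EE_mem_KM hkl hz) hf'
  have e1 : EE hij ((p : ℚ_[p]) ^ (-((e : ℤ) * t)) * -(p : ℚ_[p]) ^ 2) • dgh p n (b ^ t) • y =
      (dgh p n (b ^ t) • EE hij (-(p : ℚ_[p]) ^ 2) • y.1,
        S.B.al (dgh p n (b ^ t)) (EE hij (-(p : ℚ_[p]) ^ 2) • y.1) • y.2) := by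
    have e5 : dgh p n (b ^ t) * EE hij (-(p : ℚ_[p]) ^ 2) =
        EE hij ((p : ℚ_[p]) ^ (-((e : ℤ) * t)) * -(p : ℚ_[p]) ^ 2) * dgh p n (b ^ t) := by
      rw [dgh_conj, rt_pow, hbi, mul_comm (t : ℤ)]
    rw [← mul_smul, ← e5, mul_smul, S.smul_def (EE hij (-(p : ℚ_[p]) ^ 2)),
      S.B.al_K _ (EE_mem_KM hij (by rw [norm_neg, norm_p_pow])), one_smul,
      S.smul_def (dgh p n (b ^ t))]
  rw [e2, e4, e1, S.smul_def (dgh p n (b ^ t)) y]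
  exact hΦ _ _ _ _ _ _ _ _ hh' hh h1 h2

end Pool.Agent.H67.LX
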