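import Mathlib
import Pool.Agent.H67.LX.CSp

/-!
PART P* (helper67, proved).  Measurability of the functions of the coupling and the one sided inequality.
-/

set_option linter.unusedSectionVars false

open MeasureTheory Filter Matrix
open scoped Topology
open Pool.Agent.H73.PZ
open Pool.Agent.H23.DM

namespace Pool.Agent.H67.LX

variable {p : ℕ} [Fact p.Prime] {n : ℕ} {Γ : Subgroup (SLn p n)} {F M : Type}
    [TopologicalSpace F] [CompactSpace F] [T2Space F] [SecondCountableTopology F]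
    [MeasurableSpace F] [BorelSpace F] [MulAction (SLn p n) F]
    [TopologicalSpace M] [CompactSpace M] [T2Space M] [SecondCountableTopology M]
    [MeasurableSpace M] [BorelSpace M] [MulAction Γ M]
    [MulAction (SLn p n) (F × M)] [MulAction (AZ n) (F × M)]

theorem measurable_fh (S : Sus Γ F M) {j k : Fin n} (hjk : j ≠ k) (s : ℕ) :
    Measurable fun y : F × M => fh S hjk s y := by
  unfold fh
  exact ((S.continuous_smulF _).comp continuous_fst).measurable

theorem measurable_phi (S : Sus Γ F M) {j k : Fin n} (hjk : j ≠ k) (b : AZ n) (ρ : ℝ)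
    (W T s l : ℕ) {φ : F → (ℤ → S.V.κ → ℤ) → ℝ}
    (hφ : ∀ f v, ∀ g ∈ KM p n l, φ (g • f) v = φ f v) :
    Measurable fun y : F × M => φ (fh S hjk s y) (nm S b ρ W T y) := by
  classical
  let V₂ : Type := (Finset.Icc (-(W : ℤ)) W) → S.V.κ → ℤ
  let ex : V₂ → (ℤ → S.V.κ → ℤ) := fun v N i =>
    if h : N ∈ Finset.Icc (-(W : ℤ)) W then v ⟨N, h⟩ i else 0
  let nm₂ : F × M → V₂ := fun y N i =>
    ⌊S.V.ψ i ((dgh p n (b ^ ((N : ℤ) * T)) • y).2) / ρ⌋
  have h1 : ∀ y, nm S b ρ W T y = ex (nm₂ y) := by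
    intro y
    funext N i
    have h2 : |N| ≤ W ↔ N ∈ Finset.Icc (-(W : ℤ)) W := by
      rw [Finset.mem_Icc, abs_le]
    change (if |N| ≤ W then ⌊S.V.ψ i (S.B.al (dgh p n (b ^ (N * T))) y.1 • y.2) / ρ⌋ else 0) =
      if h : N ∈ Finset.Icc (-(W : ℤ)) W then
        ⌊S.V.ψ i ((dgh p n (b ^ (N * (T : ℤ))) • y).2) / ρ⌋ else 0
    by_cases h3 : |N| ≤ W
    · rw [if_pos h3, dif_pos (h2.1 h3), S.snd_smul]
    · rw [if_neg h3, dif_neg (fun h => h3 (h2.2 h))]
  have hnm : Measurable nm₂ := by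
    refine measurable_pi_lambda _ fun N => measurable_pi_lambda _ fun i => ?_
    refine Int.measurable_floor.comp ?_
    exact (((S.V.ψ_cont i).comp (continuous_snd.comp (S.continuous_smul _))).div_const ρ).measurable
  have hG : Measurable fun q : F × V₂ => φ q.1 (ex q.2) := by
    refine measurable_from_prod_countable_left fun v => ?_
    have hlc : IsLocallyConstant fun f : F => φ f (ex v) := by
      rw [IsLocallyConstant.iff_exists_open]
      intro f
      refine ⟨_, S.B.orbit_open l f, ⟨1, one_mem _, (one_smul _ f).symm⟩, ?_⟩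
      rintro f' ⟨g, hg, rfl⟩
      exact hφ f _ g hg
    exact hlc.continuous.measurable
  have h4 : (fun y : F × M => φ (fh S hjk s y) (nm S b ρ W T y)) =
      fun y => (fun q : F × V₂ => φ q.1 (ex q.2)) (fh S hjk s y, nm₂ y) := by
    funext y
    rw [h1]
  rw [h4]
  exact hG.comp ((measurable_fh S hjk s).prodMk hnm)

/-- The one sided inequality. -/
theorem one_side (S : Sus Γ F M) {μ : Measure (F × M)} [IsProbabilityMeasure μ]
    {j k : Fin n} (hjk : j ≠ k) (b : AZ n) (ρ : ℝ) (W T l B : ℕ) {m : ℕ} (sh : ZMod m)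
    {δ : ℝ} (hc : ∀ φ : F → (ℤ → S.V.κ → ℤ) → ZMod m → ℝ,
          (∀ f v t, 0 ≤ φ f v t ∧ φ f v t ≤ 1) →
          (∀ f v t, ∀ g ∈ KM p n l, φ (g • f) v t = φ f v t) →
          |(∑ s ∈ Finset.range (p ^ B), ∫ y,
              (φ (fh S hjk s y) (nm S b ρ W T y) (s : ZMod m) -
                φ (fh S hjk s y) (nm S b ρ W T y) ((s : ZMod m) + sh)) ∂μ)| ≤ δ * p ^ B)
    {N : Set (F × M)} (hN : MeasurableSet N) {g₁ g₂ : F × M → ℝ} (hm₁ : Measurable g₁)
    (hm₂ : Measurable g₂) (h₁ : ∀ y, 0 ≤ g₁ y ∧ g₁ y ≤ 1) (h₂ : ∀ y, 0 ≤ g₂ y ∧ g₂ y ≤ 1)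
    {θ : ℝ} (hθ : 0 ≤ θ)
    (key : ∀ (s s' : ℕ) (y y' : F × M) (κ : SLn p n), κ ∈ KM p n l → y ∉ N →
      fh S hjk s' y' = κ • fh S hjk s y → nm S b ρ W T y' = nm S b ρ W T y →
      (s' : ZMod m) = s + sh → g₂ y' ≤ g₁ y + θ) :
    ∫ y, g₂ y ∂μ ≤ ∫ y, g₁ y ∂μ + θ + (μ N).toReal + δ := by
  classical
  have hpB : (0 : ℝ) < (p : ℝ) ^ B := by
    have : (0 : ℝ) < p := by exact_mod_cast (Fact.out : p.Prime).pos
    positivity
  set A : F → (ℤ → S.V.κ → ℤ) → ZMod m → Set ℝ := fun f v t =>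
    {r | r = 0 ∨ ∃ (s : ℕ) (y : F × M) (κ : SLn p n), κ ∈ KM p n l ∧
      fh S hjk s y = κ • f ∧ nm S b ρ W T y = v ∧ (s : ZMod m) = t ∧ r = g₂ y} with hA
  have hA0 : ∀ f v t, (0 : ℝ) ∈ A f v t := fun f v t => Or.inl rfl
  have hA1 : ∀ f v t, ∀ r ∈ A f v t, 0 ≤ r ∧ r ≤ 1 := by
    rintro f v t r (rfl | ⟨s, y, κ, -, -, -, -, rfl⟩)
    · exact ⟨le_rfl, zero_le_one⟩
    · exact h₂ y
  have hAb : ∀ f v t, BddAbove (A f v t) := fun f v t => ⟨1, fun r hr => (hA1 f v t r hr).2⟩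
  set φ : F → (ℤ → S.V.κ → ℤ) → ZMod m → ℝ := fun f v t => sSup (A f v t) with hφ
  have hφ01 : ∀ f v t, 0 ≤ φ f v t ∧ φ f v t ≤ 1 := fun f v t =>
    ⟨le_csSup (hAb f v t) (hA0 f v t), csSup_le ⟨0, hA0 f v t⟩ fun r hr => (hA1 f v t r hr).2⟩
  have hφi : ∀ f v t, ∀ g ∈ KM p n l, φ (g • f) v t = φ f v t := by
    intro f v t g hg
    have : A (g • f) v t = A f v t := by
      ext r
      constructor
      · rintro (rfl | ⟨s, y, κ, hκ, h3, h4, h5, h6⟩)
        · exact Or.inl rfl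
        · refine Or.inr ⟨s, y, κ * g, mul_mem hκ hg, ?_, h4, h5, h6⟩
          rw [h3, mul_smul]
      · rintro (rfl | ⟨s, y, κ, hκ, h3, h4, h5, h6⟩)
        · exact Or.inl rfl
        · refine Or.inr ⟨s, y, κ * g⁻¹, mul_mem hκ (inv_mem hg), ?_, h4, h5, h6⟩
          rw [h3, mul_smul, inv_smul_smul]
    change sSup (A (g • f) v t) = sSup (A f v t)
    rw [this]
  have hlow : ∀ (s : ℕ) (y : F × M),
      g₂ y ≤ φ (fh S hjk s y) (nm S b ρ W T y) (s : ZMod m) := fun s y =>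
    le_csSup (hAb _ _ _) (Or.inr ⟨s, y, 1, one_mem _, (one_smul _ _).symm, rfl, rfl, rfl⟩)
  have hupp : ∀ (s : ℕ) (y : F × M), y ∉ N →
      φ (fh S hjk s y) (nm S b ρ W T y) ((s : ZMod m) + sh) ≤ g₁ y + θ := by
    intro s y hy
    refine csSup_le ⟨0, hA0 _ _ _⟩ ?_
    rintro r (rfl | ⟨s', y', κ, hκ, h3, h4, h5, rfl⟩)
    · linarith [(h₁ y).1]
    · exact key s s' y y' κ hκ hy h3 h4 h5
  have hmeas : ∀ (s : ℕ) (t : ZMod m), Measurable fun y : F × M =>
      φ (fh S hjk s y) (nm S b ρ W T y) t := fun s t =>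
    measurable_phi S hjk b ρ W T s l (φ := fun f v => φ f v t) fun f v g hg => hφi f v t g hg
  have hint : ∀ (s : ℕ) (t : ZMod m), Integrable (fun y : F × M =>
      φ (fh S hjk s y) (nm S b ρ W T y) t) μ := fun s t =>
    Integrable.of_bound (hmeas s t).aestronglyMeasurable 1 (Eventually.of_forall fun y => by
      have := hφ01 (fh S hjk s y) (nm S b ρ W T y) t
      rw [Real.norm_eq_abs, abs_of_nonneg this.1]
      exact this.2)
  have hi₁ : Integrable g₁ μ := Integrable.of_bound hm₁.aestronglyMeasurable 1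
    (Eventually.of_forall fun y => by
      rw [Real.norm_eq_abs, abs_of_nonneg (h₁ y).1]
      exact (h₁ y).2)
  have hi₂ : Integrable g₂ μ := Integrable.of_bound hm₂.aestronglyMeasurable 1
    (Eventually.of_forall fun y => by
      rw [Real.norm_eq_abs, abs_of_nonneg (h₂ y).1]
      exact (h₂ y).2)
  have hi₃ : Integrable (N.indicator fun _ => (1 : ℝ)) μ := (integrable_const 1).indicator hN
  have hI₃ : ∫ y, N.indicator (fun _ => (1 : ℝ)) y ∂μ = (μ N).toReal := by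
    rw [integral_indicator_const _ hN, smul_eq_mul, mul_one]
    rfl
  have h := hc φ hφ01 hφi
  have hsplit : ∀ s : ℕ, ∫ y, (φ (fh S hjk s y) (nm S b ρ W T y) (s : ZMod m) -
      φ (fh S hjk s y) (nm S b ρ W T y) ((s : ZMod m) + sh)) ∂μ ≥
      ∫ y, g₂ y ∂μ - (∫ y, g₁ y ∂μ + θ + (μ N).toReal) := by
    intro s
    rw [integral_sub (hint s _) (hint s _)]
    have e1 : ∫ y, g₂ y ∂μ ≤ ∫ y, φ (fh S hjk s y) (nm S b ρ W T y) (s : ZMod m) ∂μ :=
      integral_mono hi₂ (hint s _) fun y => hlow s y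
    have e2 : ∫ y, φ (fh S hjk s y) (nm S b ρ W T y) ((s : ZMod m) + sh) ∂μ ≤
        ∫ y, ((g₁ y + θ) + N.indicator (fun _ => (1 : ℝ)) y) ∂μ := by
      refine integral_mono (hint s _) ((hi₁.add (integrable_const θ)).add hi₃) fun y => ?_
      by_cases hy : y ∈ N
      · rw [Set.indicator_of_mem hy]
        have := (hφ01 (fh S hjk s y) (nm S b ρ W T y) ((s : ZMod m) + sh)).2
        change φ (fh S hjk s y) (nm S b ρ W T y) ((s : ZMod m) + sh) ≤ _
        linarith [(h₁ y).1]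
      · rw [Set.indicator_of_notMem hy, add_zero]
        exact hupp s y hy
    have i4 : Integrable (fun y => g₁ y + θ) μ := hi₁.add (integrable_const θ)
    have e3 : ∫ y, ((g₁ y + θ) + N.indicator (fun _ => (1 : ℝ)) y) ∂μ =
        ∫ y, g₁ y ∂μ + θ + (μ N).toReal := by
      rw [integral_add i4 hi₃, hI₃, integral_add hi₁ (integrable_const θ)]
      simp only [integral_const, probReal_univ, one_smul]
    rw [e3] at e2
    linarith
  have hsum := Finset.sum_le_sum fun s (_ : s ∈ Finset.range (p ^ B)) => (hsplit s).le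
  rw [Finset.sum_const, Finset.card_range, nsmul_eq_mul] at hsum
  have h3 := (le_abs_self _).trans h
  have h4 := hsum.trans h3
  push_cast at h4
  have h5 : (∫ y, g₂ y ∂μ - (∫ y, g₁ y ∂μ + θ + (μ N).toReal)) * (p : ℝ) ^ B ≤
      δ * (p : ℝ) ^ B := by
    rw [mul_comm]
    exact h4
  have h6 := le_of_mul_le_mul_right h5 hpB
  linarith

end Pool.Agent.H67.LX
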