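import Mathlib
import Pool.Agent.H67.LX.SecInv
import Pool.Agent.H93.SH.SDet

/-!
PART shift (helper93).  Paper (I2): if the fibre points `m`, `m'` stay close along the whole `b`-window of `(f, m)`, then they
stay close along the forward `b`-orbit of `(u f, m)`, `u ∈ U^(i,j)` small, `(i,j) ∈ Σ*`.
-/

set_option linter.unusedSectionVars false

open MeasureTheory Filter Matrix
open scoped Topology
open Pool.Agent.H73.PZ
open Pool.Agent.H23.DM

namespace Pool.Agent.H67.LX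

open Pool.Agent.H93.SH

variable {p : ℕ} [Fact p.Prime] {n : ℕ} {Γ : Subgroup (SLn p n)} {F M : Type}
    [TopologicalSpace F] [CompactSpace F] [T2Space F] [SecondCountableTopology F]
    [MeasurableSpace F] [BorelSpace F] [MulAction (SLn p n) F]
    [TopologicalSpace M] [CompactSpace M] [T2Space M] [SecondCountableTopology M]
    [MeasurableSpace M] [BorelSpace M] [MulAction Γ M]
    [MulAction (SLn p n) (F × M)] [MulAction (AZ n) (F × M)]

/-- **(I2)** -/
theorem close_after_shift (S : Sus Γ F M) {μ : Measure (F × M)} (hE : Sys (AZ n) (F × M) μ)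
    {i j : Fin n} (hij : i ≠ j) (hst : Sst p i j μ) (b : AZ n) (hb : rt i j b ≠ 0)
    (x : ℚ_[p]) (hx : EE hij x ∈ KM p n 2) {e : ℝ} (he : 0 < e) {η : ℝ} (hη : 0 < η) :
    ∃ C R : ℕ, 1 ≤ R ∧ ∀ᶠ T : ℕ in atTop,
      μ {y : F × M | ∃ m' : M,
        (∀ N : ℤ, |N| ≤ C * R →
          S.d (S.B.al (dgh p n (b ^ (N * T))) y.1 • y.2) (S.B.al (dgh p n (b ^ (N * T))) y.1 • m') ≤
            Real.exp (-(e * (R * T)))) ∧
        ∃ t : ℕ, t ≤ R * T ∧
          η < S.d (S.B.al (dgh p n (b ^ t)) (EE hij x • y.1) • y.2)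
            (S.B.al (dgh p n (b ^ t)) (EE hij x • y.1) • m')} ≤ ENNReal.ofReal η := by
  have : IsProbabilityMeasure μ := hE.prob
  obtain ⟨K, hK1, hK⟩ := lip_pow S b
  obtain ⟨lamb, hl1, hl⟩ := P_pow S b
  have hK0 : 0 < K := by linarith
  have hl0 : 0 < lamb := by linarith
  have hκ : 0 ≤ Real.log K := Real.log_nonneg hK1
  have hΛ : 0 ≤ Real.log lamb := Real.log_nonneg hl1
  obtain ⟨r, hr, hrr⟩ : ∃ r : ℕ, 1 ≤ r ∧ Real.log lamb + e ≤ r * (e / 2) := by
    obtain ⟨r0, hr0⟩ := exists_nat_ge ((Real.log lamb + e) / (e / 2))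
    refine ⟨r0 + 1, Nat.le_add_left 1 r0, ?_⟩
    rw [div_le_iff₀ (by linarith)] at hr0
    push_cast
    linarith
  obtain ⟨K1, hK11, htay⟩ := tay_pow S b r hr
  have hK10 : 0 < K1 := by linarith
  have hκ1 : 0 ≤ Real.log K1 := Real.log_nonneg hK11
  obtain ⟨Cv, hVle⟩ := (S.V.jet r hr).V_le
  obtain ⟨Cq, hVq⟩ := (S.V.jet r hr).V_quad
  obtain ⟨Cg, δ0, hδ0, hVg⟩ := (S.V.jet r hr).V_ge
  have hχ : ∀ a a' : AZ n, (rt i j (a * a') : ℝ) / rt i j b =
      (rt i j a : ℝ) / rt i j b + (rt i j a' : ℝ) / rt i j b := by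
    intro a a'
    rw [rt_mul]
    push_cast
    rw [add_div]
  have hbR : (rt i j b : ℝ) ≠ 0 := by exact_mod_cast hb
  obtain ⟨s1, s2, s3, s4, ⟨q1, q2, q3, q4⟩, hsum, δ, hδ, l1, l2, l3, l3', l4⟩ :=
    split4 hE (jc S hE r hr) (fun a => (rt i j a : ℝ) / rt i j b) hχ
      (show (fun a : AZ n => (rt i j a : ℝ) / rt i j b) b = 1 from div_self hbR) hΛ
  have he8 : 0 < e / 8 := by linarith
  obtain ⟨C, hC1, hC⟩ : ∃ C : ℕ, 1 ≤ C ∧ Real.log lamb ≤ δ * C := by
    obtain ⟨C0, hC0⟩ := exists_nat_ge (Real.log lamb / δ)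
    refine ⟨C0 + 1, Nat.le_add_left 1 C0, ?_⟩
    rw [div_le_iff₀ hδ] at hC0
    push_cast
    linarith
  obtain ⟨R, hR1, hR⟩ : ∃ R : ℕ, 1 ≤ R ∧ e / 8 + Real.log K1 + Real.log K + 1 ≤ e / 8 * R := by
    obtain ⟨R0, hR0⟩ := exists_nat_ge ((e / 8 + Real.log K1 + Real.log K + 1) / (e / 8))
    refine ⟨R0 + 1, Nat.le_add_left 1 R0, ?_⟩
    rw [div_le_iff₀ he8] at hR0
    push_cast
    linarith
  refine ⟨C, R, hR1, ?_⟩
  -- the identities
  have hU : MeasurePreserving (fun y : F × M => EE hij x • y) μ μ := hst.1 hij x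
  have atb : ∀ {Q : F × M → Prop}, (∀ᵐ z ∂μ, Q z) → ∀ᵐ y ∂μ, ∀ t : ℕ, Q (b ^ t • y) := by
    intro Q hQ
    rw [ae_all_iff]
    exact fun t => hE.ae_smul (b ^ t) hQ
  have atU : ∀ {Q : F × M → Prop}, (∀ᵐ z ∂μ, Q z) → ∀ᵐ y ∂μ, Q (EE hij x • y) := by
    intro Q hQ
    exact hU.quasiMeasurePreserving.ae hQ
  have eqv : ∀ {s : F × M → Matrix (S.V.jet r hr).ι (S.V.jet r hr).ι ℝ},
      Eqv (jc S hE r hr) s → ∀ᵐ z ∂μ, ∀ T : ℕ, s (b ^ T • z) * (jc S hE r hr).D (b ^ T) z =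
        (jc S hE r hr).D (b ^ T) z * s z := by
    intro s hs
    rw [ae_all_iff]
    exact fun T => hs.2.1 (b ^ T)
  have hsum1 : ∀ᵐ z ∂μ, s1 z + s2 z + s3 z + s4 z = 1 := by
    filter_upwards [hsum] with z hz
    rw [hz, jc_D, map_one, S.D_one]
  have hlow : ∀ᵐ z ∂μ, s4 z * (S.V.jet r hr).P = 0 := by
    refine low hE (jc S hE r hr) q4.1 q4.2.1 q4.2.2.1 hδ l4 (C := fn (S.V.jet r hr).P) fun t => ?_
    refine Eventually.of_forall fun z => ?_
    have h1 := hl r hr t z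
    have e1 : Real.exp (Real.log lamb * t) = lamb ^ t := by
      rw [mul_comm, Real.exp_nat_mul, Real.exp_log hl0]
    rw [e1]
    exact h1
  have hsec : ∀ᵐ y ∂μ, s3 (EE hij x • y) = s3 y := by
    filter_upwards [section_inv S hE r hr hij hst q3.1 q3.2.1 x] with y hy
    rw [S.D_K r hr hx, mul_one, one_mul] at hy
    exact hy
  have I1 := atb (eqv q3)
  have I2 := atU (atb (eqv q1))
  have I3 := atU (atb (eqv q2))
  have I4 := atU (atb (eqv q3))
  have I5 := atU (atb hsum1)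
  have I6 := atU (atb hlow)
  have I7 := q3.2.2.2
  -- the events
  have mpb : ∀ k : ℕ, ∀ T : ℕ, MeasurePreserving (fun y : F × M => b ^ (k * T) • y) μ μ :=
    fun k T => hE.mp _
  have mpU : ∀ k : ℕ, ∀ T : ℕ, MeasurePreserving
      (fun y : F × M => b ^ (k * T) • EE hij x • y) μ μ := fun k T => (hE.mp _).comp hU
  have W1 := WP_biUnion (μ := μ) (Finset.Icc 1 (C * R)) (E := fun N T => {y : F × M |
    Real.exp (-δ * (N * T : ℕ)) < fn ((jc S hE r hr).D (b⁻¹ ^ (N * T)) (b ^ (N * T) • y) *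
      s3 (b ^ (N * T) • y))}) (by
        intro N hN
        exact ev_pos q3.1 l3 (Finset.mem_Icc.1 hN).1 (mpb N))
  have W2 := WP_biUnion (μ := μ) (Finset.range (R + 1) ×ˢ Finset.range (R + 1))
    (E := fun a T => {y : F × M | Real.exp ((-δ * a.1 + e / 8) * T) <
      fn ((jc S hE r hr).D (b ^ (a.1 * T)) (b ^ (a.2 * T) • EE hij x • y) *
        s1 (b ^ (a.2 * T) • EE hij x • y))}) (by
        intro a _
        exact ev q1.1 l1 a.1 (mpU a.2) he8)
  have W3 := WP_biUnion (μ := μ) (Finset.range (R + 1) ×ˢ Finset.range (R + 1))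
    (E := fun a T => {y : F × M | Real.exp ((e / 8 * a.1 + e / 8) * T) <
      fn ((jc S hE r hr).D (b ^ (a.1 * T)) (b ^ (a.2 * T) • EE hij x • y) *
        s2 (b ^ (a.2 * T) • EE hij x • y))}) (by
        intro a _
        exact ev q2.1 (l2 (e / 8) he8).1 a.1 (mpU a.2) he8)
  have W4 := WP_biUnion (μ := μ) (Finset.range (R + 1) ×ˢ Finset.range (R + 1))
    (E := fun a T => {y : F × M | Real.exp (((Real.log lamb + e / 8) * a.1 + e / 8) * T) <
      fn ((jc S hE r hr).D (b ^ (a.1 * T)) (b ^ (a.2 * T) • EE hij x • y) *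
        s3 (b ^ (a.2 * T) • EE hij x • y))}) (by
        intro a _
        exact ev q3.1 (l3' (e / 8) he8) a.1 (mpU a.2) he8)
  have W5 := WP_biUnion (μ := μ) (Finset.range (R + 1))
    (E := fun k T => {y : F × M | Real.exp (e / 8 * T) < fn (s4 (b ^ (k * T) • EE hij x • y))})
    (by
      intro k _
      exact Coc.WP_fn_shift q4.1 he8 (mpU k))
  have W12 := WP.union W1 W2 (G := fun T => _ ∪ _)
    (Eventually.of_forall fun T => by rw [Set.sdiff_self, measure_empty])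
  have W34 := WP.union W3 W4 (G := fun T => _ ∪ _)
    (Eventually.of_forall fun T => by rw [Set.sdiff_self, measure_empty])
  have W14 := WP.union W12 W34 (G := fun T => _ ∪ _)
    (Eventually.of_forall fun T => by rw [Set.sdiff_self, measure_empty])
  have W := WP.union W14 W5 (G := fun T => _ ∪ _)
    (Eventually.of_forall fun T => by rw [Set.sdiff_self, measure_empty])
  have hη' : 0 < ENNReal.ofReal η := ENNReal.ofReal_pos.2 hη
  have hbad := W.eventually_lt_const hη'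
  have hn1 : ∀ᶠ T : ℕ in atTop, 1 * Real.exp (-(T : ℝ)) ≤ δ0 := ev_small hδ0 1
  have hn2 := ev_small one_pos (4 * |Cg| * |Cq|)
  have hn3 := ev_small one_pos (2 * |Cg| * (3 * |Cv| + C * R + 3 * R))
  have hn4 : ∀ᶠ T : ℕ in atTop, 1 * Real.exp (-(T : ℝ)) ≤ η := ev_small hη 1
  filter_upwards [hbad, hn1, hn2, hn3, hn4, eventually_ge_atTop 1] with T g0 g1 g2 g3 g4 g5
  rw [one_mul] at g1 g4
  refine le_trans (measure_mono_ae ?_) g0.le
  filter_upwards [I1, I2, I3, I4, I5, I6, I7, hsec] with y i1 i2 i3 i4 i5 i6 i7 i8 hy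
  obtain ⟨m', hw, t, ht, hlt⟩ := hy
  by_contra hcon
  refine absurd (shift_det S hE hij b x hx r hr (s1 := s1) (s2 := s2) (s3 := s3) (s4 := s4)
    (e := e) (η := η) (Λ := Real.log lamb) (δ := δ) (κ := Real.log K) (κ1 := Real.log K1)
    (Cv := |Cv|) (Cg := |Cg|) (Cq := |Cq|) (δ0 := δ0) he hκ hκ1 (abs_nonneg _) (abs_nonneg _)
    (abs_nonneg _) hδ hΛ ?_ ?_ ?_ ?_ ?_ hC1 hR1 hrr hC hR T g5 g1 g2 g3 g4 y m' hw
    (fun t => i1 t T) ?_ i5 i6 i8 i7 ?_ ?_ ?_ ?_ ?_ t ht) (not_le.2 hlt)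
  · rw [Real.exp_log hK0]
    exact hK
  · rw [Real.exp_log hK10]
    exact htay
  · intro m m'
    exact (hVle m m').trans (mul_le_mul_of_nonneg_right (le_abs_self _) (dist0_nonneg _ _ _))
  · intro m m'
    exact (hVq m m').trans (mul_le_mul_of_nonneg_right (le_abs_self _) (sq_nonneg _))
  · intro m m' hm
    exact (hVg m m' hm).trans (mul_le_mul_of_nonneg_right (le_abs_self _) (vn_nonneg _))
  · rintro t s (rfl | rfl | rfl)
    · exact i2 t T
    · exact i3 t T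
    · exact i4 t T
  · intro N hN1 hN2
    by_contra hc
    push Not at hc
    refine hcon (Or.inl (Or.inl (Or.inl ?_)))
    exact Set.mem_biUnion (Finset.mem_coe.2 (Finset.mem_Icc.2 ⟨hN1, hN2⟩)) hc
  · intro N hN k hk
    by_contra hc
    push Not at hc
    refine hcon (Or.inl (Or.inl (Or.inr ?_)))
    exact Set.mem_biUnion (x := (N, k)) (Finset.mem_coe.2 (Finset.mk_mem_product
      (Finset.mem_range.2 (by omega)) (Finset.mem_range.2 (by omega)))) hc
  · intro N hN k hk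
    by_contra hc
    push Not at hc
    refine hcon (Or.inl (Or.inr (Or.inl ?_)))
    exact Set.mem_biUnion (x := (N, k)) (Finset.mem_coe.2 (Finset.mk_mem_product
      (Finset.mem_range.2 (by omega)) (Finset.mem_range.2 (by omega)))) hc
  · intro N hN k hk
    by_contra hc
    push Not at hc
    refine hcon (Or.inl (Or.inr (Or.inr ?_)))
    exact Set.mem_biUnion (x := (N, k)) (Finset.mem_coe.2 (Finset.mk_mem_product
      (Finset.mem_range.2 (by omega)) (Finset.mem_range.2 (by omega)))) hc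
  · intro k hk
    by_contra hc
    push Not at hc
    refine hcon (Or.inr ?_)
    exact Set.mem_biUnion (x := k) (Finset.mem_coe.2 (Finset.mem_range.2 (by omega))) hc

end Pool.Agent.H67.LX
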