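import Mathlib
import Pool.Agent.H67.LX.CSm
import Pool.Agent.H67.LX.Shift

/-!
PART P* (helper67, proved).  `CS`: the statement (CS') of the paper, and its proof from `coupling` and
`close_after_shift`.
-/

set_option linter.unusedSectionVars false

open MeasureTheory Filter Matrix
open scoped Topology
open Pool.Agent.H73.PZ
open Pool.Agent.H23.DM

namespace Pool.Agent.H67.LX

variable {p : ℕ} [Fact p.Prime] {n : ℕ} {Γ : Subgroup (SLn p n)} {F M : Type}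
    [TopologicalSpace F] [CompactSpace F] [T2Space F] [SecondCountableTopology F]
    [MeasurableSpace F] [BorelSpace F] [MulAction (SLn p n) F]
    [TopologicalSpace M] [CompactSpace M] [T2Space M] [SecondCountableTopology M]
    [MeasurableSpace M] [BorelSpace M] [MulAction Γ M]
    [MulAction (SLn p n) (F × M)] [MulAction (AZ n) (F × M)]

/-- The statement (CS') of the paper. -/
def CS (_S : Sus Γ F M) (μ : Measure (F × M)) {i j k l : Fin n} (hij : i ≠ j) (hkl : k ≠ l)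
    (z : ℚ_[p]) : Prop :=
  ∀ Φ : (F × M) × (F × M) → ℝ, Continuous Φ → ∀ ε : ℝ, 0 < ε → ∃ v : ℚ_[p],
    |(∫ y, Φ (EE hij v • y, y) ∂μ) - ∫ y, Φ (EE hkl z • EE hij v • y, y) ∂μ| ≤ ε

/-- The bad set of `close_after_shift`. -/
def Bd (S : Sus Γ F M) {i j : Fin n} (hij : i ≠ j) (b : AZ n) (x : ℚ_[p]) (e η : ℝ)
    (C R T : ℕ) : Set (F × M) :=
  {y : F × M | ∃ m' : M,
        (∀ N : ℤ, |N| ≤ C * R →
          S.d (S.B.al (dgh p n (b ^ (N * T))) y.1 • y.2) (S.B.al (dgh p n (b ^ (N * T))) y.1 • m') ≤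
            Real.exp (-(e * (R * T)))) ∧
        ∃ t : ℕ, t ≤ R * T ∧
          η < S.d (S.B.al (dgh p n (b ^ t)) (EE hij x • y.1) • y.2)
            (S.B.al (dgh p n (b ^ t)) (EE hij x • y.1) • m')}

theorem Bd_mono (S : Sus Γ F M) {i j : Fin n} (hij : i ≠ j) (b : AZ n) (x : ℚ_[p]) (e η : ℝ)
    {C C' R R' : ℕ} (T : ℕ) (hC : C' ≤ C) :
    Bd S hij b x e η C (R' * R) T ⊆ Bd S hij b x e η C' R' (R * T) := by
  rintro y ⟨m', h1, t, ht, h2⟩
  refine ⟨m', fun N hN => ?_, t, ?_, h2⟩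
  · have h3 : |N * (R : ℤ)| ≤ (C : ℤ) * ((R' * R : ℕ) : ℤ) := by
      rw [abs_mul, Nat.abs_cast]
      have h4 : (C' : ℤ) ≤ C := by exact_mod_cast hC
      push_cast
      have h5 : (0 : ℤ) ≤ (R : ℤ) := by positivity
      have h6 : (0 : ℤ) ≤ (R' : ℤ) := by positivity
      calc |N| * (R : ℤ) ≤ ((C' : ℤ) * R') * R := mul_le_mul_of_nonneg_right hN h5
        _ ≤ ((C : ℤ) * R') * R := by gcongr
        _ = _ := by ring
    have h4 := h1 (N * R) h3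
    have e1 : N * (R : ℤ) * (T : ℤ) = N * ((R * T : ℕ) : ℤ) := by push_cast; ring
    rw [e1] at h4
    refine h4.trans (le_of_eq ?_)
    congr 2
    push_cast
    ring
  · rw [← mul_assoc]
    exact ht

theorem exp_eventually {K θ : ℝ} (hθ : 0 < θ) :
    ∀ᶠ t : ℝ in atTop, K * Real.exp (-(θ * t)) ≤ Real.exp (-(θ / 2 * t)) := by
  have h1 : Tendsto (fun t : ℝ => θ / 2 * t) atTop atTop :=
    Tendsto.const_mul_atTop (by linarith) tendsto_id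
  have h2 : Tendsto (fun t : ℝ => Real.exp (θ / 2 * t)) atTop atTop :=
    Real.tendsto_exp_atTop.comp h1
  filter_upwards [h2.eventually_ge_atTop K] with t ht
  have e1 : Real.exp (-(θ / 2 * t)) = Real.exp (θ / 2 * t) * Real.exp (-(θ * t)) := by
    rw [← Real.exp_add]
    congr 1
    ring
  rw [e1]
  exact mul_le_mul_of_nonneg_right ht (Real.exp_pos _).le

theorem rt_zpow (i j : Fin n) (a : AZ n) (m : ℤ) : rt i j (a ^ m) = m * rt i j a := by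
  cases m with
  | ofNat t => rw [Int.ofNat_eq_natCast, zpow_natCast, rt_pow]
  | negSucc t => rw [zpow_negSucc, rt_inv, rt_pow, Int.negSucc_eq]; push_cast; ring

theorem exists_int {s s' e t L : ℕ}
    (hs : (s' : ZMod (p ^ (e * (t + L)))) = s + (p : ZMod (p ^ (e * (t + L)))) ^ (e * t)) :
    ∃ ξ : ℤ, (s' : ℤ) - (s : ℤ) = (p : ℤ) ^ (e * t) + (p : ℤ) ^ (e * t) * ((p : ℤ) ^ (e * L) * ξ) := by
  have h1 : ((s' : ℤ) : ZMod (p ^ (e * (t + L)))) =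
      (((s : ℤ) + (p : ℤ) ^ (e * t) : ℤ) : ZMod (p ^ (e * (t + L)))) := by
    push_cast
    exact hs
  rw [ZMod.intCast_eq_intCast_iff_dvd_sub] at h1
  obtain ⟨ξ, hξ⟩ := h1
  refine ⟨-ξ, ?_⟩
  have h2 : ((p ^ (e * (t + L)) : ℕ) : ℤ) = (p : ℤ) ^ (e * t) * (p : ℤ) ^ (e * L) := by
    push_cast
    rw [← pow_add]
    congr 1
    ring
  rw [h2] at hξ
  linear_combination -hξ

theorem CS_01 (S : Sus Γ F M) {μ : Measure (F × M)} (hE : Sys (AZ n) (F × M) μ) (hov : S.OvH μ)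
    {i j a c k l : Fin n} (hij : i ≠ j) (hac : a ≠ c) (hkl : k ≠ l) (sg : ℚ_[p])
    (hsg : sg = 1 ∨ sg = -1)
    (hcomm : ∀ x w : ℚ_[p], EE hij (-x) * EE hac w * EE hij x =
      (EE hac w * EE hkl (sg * x * w) : SLn p n))
    (b : AZ n) (hb : rt a c b = 0) (e : ℕ) (he : 1 ≤ e) (hbi : rt i j b = e)
    (hbk : rt k l b = e) (hst : Sst p i j μ) {Φ : (F × M) × (F × M) → ℝ} (hΦ : Continuous Φ)
    (h01 : ∀ q, 0 ≤ Φ q ∧ Φ q ≤ 1) {ε : ℝ} (hε : 0 < ε) : ∃ v : ℚ_[p],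
      |(∫ y, Φ (EE hij v • y, y) ∂μ) -
        ∫ y, Φ (EE hkl (-(sg * (p : ℚ_[p]) ^ 4)) • EE hij v • y, y) ∂μ| ≤ ε := by
  classical
  have hprob := hE.prob
  have hA := S.ainv_of_sys hE
  have hp1 : (1 : ℝ) < p := by exact_mod_cast (Fact.out : p.Prime).one_lt
  have hp0 : (0 : ℝ) < p := by linarith
  obtain ⟨L, η₀, hL, hη₀, huc⟩ := unif_cont S hΦ (ε := ε / 2) (by linarith)
  obtain ⟨δ, hδ, hδη, hδε⟩ : ∃ δ : ℝ, 0 < δ ∧ δ ≤ η₀ ∧ 3 * δ ≤ ε / 2 :=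
    ⟨min η₀ (ε / 6), by positivity, min_le_left _ _, by
      have := min_le_right η₀ (ε / 6); linarith⟩
  obtain ⟨θ, hθ, c₀, hcoup⟩ := coupling S hE hov hac b hb e he L hδ
  have hbne : rt i j b ≠ 0 := by rw [hbi]; exact_mod_cast (by omega : e ≠ 0)
  obtain ⟨C₁, R₁, hR₁, h₁⟩ := close_after_shift S hE hij hst b hbne (-(p : ℚ_[p]) ^ 2)
    (EE_mem_KM hij (by rw [norm_neg, norm_p_pow])) (e := θ / 2) (by linarith) hδ
  obtain ⟨C₂, R₂, hR₂, h₂⟩ := close_after_shift S hE hij hst b hbne 0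
    (by rw [EE_zero]; exact one_mem _) (e := θ / 2) (by linarith) hδ
  obtain ⟨C, hC1, hC2, hC0⟩ : ∃ C : ℕ, C₁ ≤ C ∧ C₂ ≤ C ∧ 1 ≤ C :=
    ⟨C₁ + C₂ + 1, by omega, by omega, by omega⟩
  have hR : 1 ≤ R₁ * R₂ := Nat.mul_pos (by omega) (by omega)
  have hcoup' := hcoup C (R₁ * R₂) hR
  have ht₁ : Tendsto (fun T : ℕ => R₂ * T) atTop atTop :=
    tendsto_id.const_mul_atTop' (by omega)
  have ht₂ : Tendsto (fun T : ℕ => R₁ * T) atTop atTop :=
    tendsto_id.const_mul_atTop' (by omega)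
  have e₁ := ht₁.eventually h₁
  have e₂ := ht₂.eventually h₂
  have hRT : Tendsto (fun T : ℕ => (((R₁ * R₂ : ℕ) : ℝ) * (T : ℝ))) atTop atTop :=
    Tendsto.const_mul_atTop (by exact_mod_cast (by omega : 0 < R₁ * R₂))
      tendsto_natCast_atTop_atTop
  have e₃ := hRT.eventually (exp_eventually (K := (Fintype.card S.V.κ : ℝ)) hθ)
  have e₄ : ∀ᶠ T : ℕ in atTop, c₀ * L < R₁ * R₂ * T := by
    filter_upwards [eventually_gt_atTop (c₀ * L)] with T hT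
    calc c₀ * L < T := hT
      _ = 1 * T := (one_mul T).symm
      _ ≤ R₁ * R₂ * T := Nat.mul_le_mul_right T hR
  obtain ⟨T, hT, f₁, f₂, f₃, f₄⟩ := (hcoup'.and_eventually (e₁.and (e₂.and (e₃.and e₄)))).exists
  -- the finite set of elements
  obtain ⟨l₀, hl₀, hconj⟩ := KM_conj_finite
    ((Finset.Icc (-((C * (R₁ * R₂) * T : ℕ) : ℤ)) ((C * (R₁ * R₂) * T : ℕ) : ℤ)).image
      fun M : ℤ => dgh p n (b ^ M)) L
  have hconj' : ∀ M : ℤ, |M| ≤ ((C * (R₁ * R₂) * T : ℕ) : ℤ) → ∀ u ∈ KM p n l₀,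
      dgh p n (b ^ M) * u * (dgh p n (b ^ M))⁻¹ ∈ KM p n L := fun M hM =>
    hconj _ (Finset.mem_image.2 ⟨M, Finset.mem_Icc.2 (abs_le.1 hM), rfl⟩)
  obtain ⟨l', hl', B, t, ht1, ht2, hφ⟩ := hT l₀
  have htL : L ≤ t := by
    by_contra hcon
    have h5 : c₀ * t ≤ c₀ * L := Nat.mul_le_mul_left _ (by omega)
    omega
  refine ⟨(p : ℚ_[p]) ^ (-((e : ℤ) * t)) * -(p : ℚ_[p]) ^ 2, ?_⟩
  -- the bad set
  obtain ⟨N, hN, hNm, hNμ⟩ : ∃ N : Set (F × M),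
      Bd S hij b (-(p : ℚ_[p]) ^ 2) (θ / 2) δ C (R₁ * R₂) T ∪
        Bd S hij b 0 (θ / 2) δ C (R₁ * R₂) T ⊆ N ∧ MeasurableSet N ∧
      (μ N).toReal ≤ 2 * δ := by
    refine ⟨toMeasurable μ _, subset_toMeasurable μ _, measurableSet_toMeasurable μ _, ?_⟩
    rw [measure_toMeasurable]
    have g₁ : μ (Bd S hij b (-(p : ℚ_[p]) ^ 2) (θ / 2) δ C (R₁ * R₂) T) ≤ ENNReal.ofReal δ :=
      (measure_mono (Bd_mono S hij b _ _ _ T hC1)).trans f₁
    have g₂ : μ (Bd S hij b 0 (θ / 2) δ C (R₁ * R₂) T) ≤ ENNReal.ofReal δ := by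
      rw [mul_comm R₁ R₂]
      exact (measure_mono (Bd_mono S hij b _ _ _ T hC2)).trans f₂
    refine ENNReal.toReal_le_of_le_ofReal (by linarith) ?_
    refine (measure_union_le _ _).trans ((add_le_add g₁ g₂).trans ?_)
    rw [← ENNReal.ofReal_add hδ.le hδ.le]
    exact ENNReal.ofReal_le_ofReal (by linarith)
  -- the key estimate
  have key : ∀ (s s' : ℕ) (y y' : F × M) (κ : SLn p n), κ ∈ KM p n l' → y ∉ N →
      fh S hac s' y' = κ • fh S hac s y →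
      nm S b (Real.exp (-(θ * (((R₁ * R₂ : ℕ) : ℝ) * (T : ℝ))))) (C * (R₁ * R₂)) T y' =
        nm S b (Real.exp (-(θ * (((R₁ * R₂ : ℕ) : ℝ) * (T : ℝ))))) (C * (R₁ * R₂)) T y →
      (s' : ZMod (p ^ (e * (t + L)))) = s + (p : ZMod (p ^ (e * (t + L)))) ^ (e * t) →
      |Φ (EE hkl (-(sg * (p : ℚ_[p]) ^ 4)) •
        EE hij ((p : ℚ_[p]) ^ (-((e : ℤ) * t)) * -(p : ℚ_[p]) ^ 2) • dgh p n (b ^ t) • y',
        dgh p n (b ^ t) • y') -
      Φ (EE hij ((p : ℚ_[p]) ^ (-((e : ℤ) * t)) * -(p : ℚ_[p]) ^ 2) • dgh p n (b ^ t) • y,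
        dgh p n (b ^ t) • y)| ≤ ε / 2 := by
    intro s s' y y' κ hκ hy hfh hnm hs
    have hκ₀ : κ ∈ KM p n l₀ := KM_anti hl' hκ
    obtain ⟨ξ, hξ⟩ := exists_int hs
    have hξ' : (s' : ℚ_[p]) - (s : ℚ_[p]) = (p : ℚ_[p]) ^ (e * t) * (1 +
        (p : ℚ_[p]) ^ (e * L) * (ξ : ℚ_[p])) := by
      have h5 : (s' : ℚ_[p]) - (s : ℚ_[p]) = (((s' : ℤ) - (s : ℤ) : ℤ) : ℚ_[p]) := by push_cast; ring
      rw [h5, hξ]
      push_cast
      ring
    have hξn : ‖(ξ : ℚ_[p])‖ ≤ 1 := Padic.norm_int_le_one ξ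
    have hpw : ∀ m : ℕ, L ≤ m → ‖(p : ℚ_[p]) ^ m‖ ≤ (p : ℝ) ^ (-(L : ℤ)) := fun m hm => by
      rw [norm_p_pow]
      exact zpow_le_zpow_right₀ hp1.le (by omega)
    have heL : L ≤ e * L := Nat.le_mul_of_pos_left L (by omega)
    have het : L ≤ e * t := htL.trans (Nat.le_mul_of_pos_left t (by omega))
    have hpL1 : (p : ℝ) ^ (-(L : ℤ)) ≤ 1 := by
      rw [_root_.zpow_neg]
      exact inv_le_one_of_one_le₀ (one_le_zpow₀ hp1.le (by positivity))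
    have hpL0 : 0 ≤ (p : ℝ) ^ (-(L : ℤ)) := by positivity
    have hp2 : ‖(p : ℚ_[p]) ^ 2‖ ≤ 1 := by
      rw [norm_pow]
      exact pow_le_one₀ (norm_nonneg _) (Padic.norm_p_lt_one.le)
    have hp4 : ‖(p : ℚ_[p]) ^ 4‖ ≤ 1 := by
      rw [norm_pow]
      exact pow_le_one₀ (norm_nonneg _) (Padic.norm_p_lt_one.le)
    have h1ξ : ‖1 + (p : ℚ_[p]) ^ (e * L) * (ξ : ℚ_[p])‖ ≤ 1 := by
      refine (IsUltrametricDist.norm_add_le_max _ _).trans (max_le norm_one.le ?_)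
      rw [norm_mul]
      have := hpw (e * L) heL
      nlinarith [norm_nonneg (ξ : ℚ_[p]), norm_nonneg ((p : ℚ_[p]) ^ (e * L))]
    have hw : ‖(p : ℚ_[p]) ^ 2 * ((s' : ℚ_[p]) - (s : ℚ_[p]))‖ ≤ (p : ℝ) ^ (-(L : ℤ)) := by
      rw [hξ', norm_mul, norm_mul]
      have h6 := hpw (e * t) het
      have h7 : ‖(p : ℚ_[p]) ^ (e * t)‖ * ‖1 + (p : ℚ_[p]) ^ (e * L) * (ξ : ℚ_[p])‖ ≤
          (p : ℝ) ^ (-(L : ℤ)) := by
        nlinarith [norm_nonneg ((p : ℚ_[p]) ^ (e * t)),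
          norm_nonneg (1 + (p : ℚ_[p]) ^ (e * L) * (ξ : ℚ_[p]))]
      have h8 : 0 ≤ ‖(p : ℚ_[p]) ^ (e * t)‖ * ‖1 + (p : ℚ_[p]) ^ (e * L) * (ξ : ℚ_[p])‖ := by
        positivity
      nlinarith [norm_nonneg ((p : ℚ_[p]) ^ 2)]
    have hsn : ‖sg‖ = 1 := by
      rcases hsg with rfl | rfl
      · exact norm_one
      · rw [norm_neg]; exact norm_one
    have hz : ‖(p : ℚ_[p]) ^ (-((e : ℤ) * t)) * (sg * (p : ℚ_[p]) ^ 2 *
      ((p : ℚ_[p]) ^ 2 * ((s' : ℚ_[p]) - (s : ℚ_[p])))) - sg * (p : ℚ_[p]) ^ 4‖ ≤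
        (p : ℝ) ^ (-(L : ℤ)) := by
      have h9 : (p : ℚ_[p]) ^ (-((e : ℤ) * t)) * (p : ℚ_[p]) ^ (e * t) = 1 := by
        rw [← zpow_natCast, ← zpow_add₀ pne]
        push_cast
        rw [neg_add_cancel, zpow_zero]
      have h10 : (p : ℚ_[p]) ^ (-((e : ℤ) * t)) * (sg * (p : ℚ_[p]) ^ 2 *
          ((p : ℚ_[p]) ^ 2 * ((s' : ℚ_[p]) - (s : ℚ_[p])))) - sg * (p : ℚ_[p]) ^ 4 =
          sg * ((p : ℚ_[p]) ^ 4 * ((p : ℚ_[p]) ^ (e * L) * (ξ : ℚ_[p]))) := by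
        rw [hξ']
        calc _ = ((p : ℚ_[p]) ^ (-((e : ℤ) * t)) * (p : ℚ_[p]) ^ (e * t)) * (sg *
              (p : ℚ_[p]) ^ 4 * (1 + (p : ℚ_[p]) ^ (e * L) * (ξ : ℚ_[p]))) -
                sg * (p : ℚ_[p]) ^ 4 := by ring
          _ = _ := by rw [h9]; ring
      rw [h10, norm_mul, norm_mul, norm_mul, hsn, one_mul]
      have h11 := hpw (e * L) heL
      have h12 : ‖(p : ℚ_[p]) ^ (e * L)‖ * ‖(ξ : ℚ_[p])‖ ≤ (p : ℝ) ^ (-(L : ℤ)) := by
        nlinarith [norm_nonneg (ξ : ℚ_[p]), norm_nonneg ((p : ℚ_[p]) ^ (e * L))]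
      have h13 : 0 ≤ ‖(p : ℚ_[p]) ^ (e * L)‖ * ‖(ξ : ℚ_[p])‖ := by positivity
      nlinarith [norm_nonneg ((p : ℚ_[p]) ^ 4)]
    -- closeness at the nodes
    have hnodes : ∀ N' : ℤ, |N'| ≤ (C : ℤ) * ((R₁ * R₂ : ℕ) : ℤ) →
        S.d (S.B.al (dgh p n (b ^ (N' * T))) y.1 • y.2)
          (S.B.al (dgh p n (b ^ (N' * T))) y.1 • y'.2) ≤
            Real.exp (-(θ / 2 * (((R₁ * R₂ : ℕ) : ℝ) * (T : ℝ)))) := by
      intro N' hN'
      have hM : |N' * (T : ℤ)| ≤ ((C * (R₁ * R₂) * T : ℕ) : ℤ) := by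
        rw [abs_mul, Nat.abs_cast]
        push_cast at hN' ⊢
        exact mul_le_mul_of_nonneg_right hN' (by positivity)
      have hrt : rt a c (b ^ (N' * (T : ℤ))) = 0 := by rw [rt_zpow, hb, mul_zero]
      have hK2 := hconj' _ hM
      have hal : S.B.al (dgh p n (b ^ (N' * (T : ℤ)))) y'.1 =
          S.B.al (dgh p n (b ^ (N' * (T : ℤ)))) y.1 := by
        rw [fst_of_fh S hac hfh]
        refine al_pair S hac (KM_anti hL (EE_mem_KM hac hw)) ?_ _ hrt ?_ _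
        · exact KM_conj_KK (KM_le_KK 2 (mem_KM_two hac (norm_nat_le_one s)))
            (KM_anti (hL.trans hl₀) hκ₀)
        · exact KM_anti hL (hK2 _ (KM_conj_KK (KM_le_KK 2 (mem_KM_two hac (norm_nat_le_one s))) hκ₀))
      refine (d_of_nm S (Real.exp_pos _) hnm ?_ hal).trans f₃
      push_cast at hN' ⊢
      exact hN'
    have hgood : ∀ x : ℚ_[p], Bd S hij b x (θ / 2) δ C (R₁ * R₂) T ⊆ N →
        S.d (S.B.al (dgh p n (b ^ t)) (EE hij x • y.1) • y.2)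
          (S.B.al (dgh p n (b ^ t)) (EE hij x • y.1) • y'.2) ≤ δ := by
      intro x hx
      by_contra hcon
      exact hy (hx ⟨y'.2, hnodes, t, by omega, not_le.1 hcon⟩)
    have hgood₁ := hgood (-(p : ℚ_[p]) ^ 2) (Set.subset_union_left.trans hN)
    have hgood₂ := hgood 0 (Set.subset_union_right.trans hN)
    rw [EE_zero, one_smul] at hgood₂
    refine pair_close S hij hac hkl sg hsg hcomm b hb e hbi hbk hL huc hl₀ ?_ hκ₀ hfh hw hz
      (hgood₁.trans hδη) (hgood₂.trans hδη)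
    intro u hu
    have h14 := hconj' (t : ℤ) (by
      rw [Nat.abs_cast]
      have h15 : t ≤ C * (R₁ * R₂) * T := by
        calc t ≤ R₁ * R₂ * T := by omega
          _ = 1 * (R₁ * R₂ * T) := (one_mul _).symm
          _ ≤ C * (R₁ * R₂ * T) := Nat.mul_le_mul_right _ hC0
          _ = _ := by ring
      exact_mod_cast h15) u hu
    rw [zpow_natCast] at h14
    exact h14
  -- the two one sided inequalities
  have hc₁ : Continuous fun y : F × M =>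
      Φ (EE hij ((p : ℚ_[p]) ^ (-((e : ℤ) * t)) * -(p : ℚ_[p]) ^ 2) • y, y) :=
    hΦ.comp ((S.continuous_smul _).prodMk continuous_id)
  have hc₂ : Continuous fun y : F × M =>
      Φ (EE hkl (-(sg * (p : ℚ_[p]) ^ 4)) •
        EE hij ((p : ℚ_[p]) ^ (-((e : ℤ) * t)) * -(p : ℚ_[p]) ^ 2) • y, y) :=
    hΦ.comp (((S.continuous_smul _).comp (S.continuous_smul _)).prodMk continuous_id)
  have hI : ∀ f : F × M → ℝ, Continuous f →
      ∫ y, f (dgh p n (b ^ t) • y) ∂μ = ∫ y, f y ∂μ := fun f hf =>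
    (hA (b ^ t)).integral hf.aestronglyMeasurable
  have o₁ := one_side S hac b _ _ T l' B ((p : ZMod (p ^ (e * (t + L)))) ^ (e * t)) hφ hNm
    (g₁ := fun y => Φ (EE hij ((p : ℚ_[p]) ^ (-((e : ℤ) * t)) * -(p : ℚ_[p]) ^ 2) •
      dgh p n (b ^ t) • y, dgh p n (b ^ t) • y))
    (g₂ := fun y => Φ (EE hkl (-(sg * (p : ℚ_[p]) ^ 4)) •
        EE hij ((p : ℚ_[p]) ^ (-((e : ℤ) * t)) * -(p : ℚ_[p]) ^ 2) • dgh p n (b ^ t) • y,
        dgh p n (b ^ t) • y))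
    (hc₁.comp (S.continuous_smul _)).measurable (hc₂.comp (S.continuous_smul _)).measurable
    (fun y => h01 _) (fun y => h01 _) (θ := ε / 2) (by linarith)
    (fun s s' y y' κ hκ hy hfh hnm hs => by
      have := (abs_le.1 (key s s' y y' κ hκ hy hfh hnm hs)).2
      linarith)
  have o₂ := one_side S hac b _ _ T l' B ((p : ZMod (p ^ (e * (t + L)))) ^ (e * t)) hφ hNm
    (g₁ := fun y => 1 - Φ (EE hij ((p : ℚ_[p]) ^ (-((e : ℤ) * t)) * -(p : ℚ_[p]) ^ 2) •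
      dgh p n (b ^ t) • y, dgh p n (b ^ t) • y))
    (g₂ := fun y => 1 - Φ (EE hkl (-(sg * (p : ℚ_[p]) ^ 4)) •
        EE hij ((p : ℚ_[p]) ^ (-((e : ℤ) * t)) * -(p : ℚ_[p]) ^ 2) • dgh p n (b ^ t) • y,
        dgh p n (b ^ t) • y))
    (measurable_const.sub (hc₁.comp (S.continuous_smul _)).measurable)
    (measurable_const.sub (hc₂.comp (S.continuous_smul _)).measurable)
    (fun y => ⟨by linarith [(h01 (EE hij ((p : ℚ_[p]) ^ (-((e : ℤ) * t)) * -(p : ℚ_[p]) ^ 2) •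
      dgh p n (b ^ t) • y, dgh p n (b ^ t) • y)).2], by
        linarith [(h01 (EE hij ((p : ℚ_[p]) ^ (-((e : ℤ) * t)) * -(p : ℚ_[p]) ^ 2) •
      dgh p n (b ^ t) • y, dgh p n (b ^ t) • y)).1]⟩)
    (fun y => ⟨by linarith [(h01 (EE hkl (-(sg * (p : ℚ_[p]) ^ 4)) •
        EE hij ((p : ℚ_[p]) ^ (-((e : ℤ) * t)) * -(p : ℚ_[p]) ^ 2) • dgh p n (b ^ t) • y,
        dgh p n (b ^ t) • y)).2], by
        linarith [(h01 (EE hkl (-(sg * (p : ℚ_[p]) ^ 4)) •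
        EE hij ((p : ℚ_[p]) ^ (-((e : ℤ) * t)) * -(p : ℚ_[p]) ^ 2) • dgh p n (b ^ t) • y,
        dgh p n (b ^ t) • y)).1]⟩) (θ := ε / 2) (by linarith)
    (fun s s' y y' κ hκ hy hfh hnm hs => by
      have := (abs_le.1 (key s s' y y' κ hκ hy hfh hnm hs)).1
      linarith)
  have i₁ := hI _ hc₁
  have i₂ := hI _ hc₂
  have j₁ : Integrable (fun y => Φ (EE hij ((p : ℚ_[p]) ^ (-((e : ℤ) * t)) *
      -(p : ℚ_[p]) ^ 2) • dgh p n (b ^ t) • y, dgh p n (b ^ t) • y)) μ :=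
    Integrable.of_bound (hc₁.comp (S.continuous_smul _)).aestronglyMeasurable 1
      (Eventually.of_forall fun y => by
        rw [Real.norm_eq_abs, abs_of_nonneg (h01 _).1]
        exact (h01 _).2)
  have j₂ : Integrable (fun y => Φ (EE hkl (-(sg * (p : ℚ_[p]) ^ 4)) •
        EE hij ((p : ℚ_[p]) ^ (-((e : ℤ) * t)) * -(p : ℚ_[p]) ^ 2) • dgh p n (b ^ t) • y,
        dgh p n (b ^ t) • y)) μ :=
    Integrable.of_bound (hc₂.comp (S.continuous_smul _)).aestronglyMeasurable 1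
      (Eventually.of_forall fun y => by
        rw [Real.norm_eq_abs, abs_of_nonneg (h01 _).1]
        exact (h01 _).2)
  rw [integral_sub (integrable_const 1) j₁, integral_sub (integrable_const 1) j₂] at o₂
  simp only [integral_const, probReal_univ, one_smul] at o₂
  rw [i₁, i₂] at o₁ o₂
  rw [abs_le]
  constructor <;> linarith

theorem CS_of (S : Sus Γ F M) {μ : Measure (F × M)} (hE : Sys (AZ n) (F × M) μ) (hov : S.OvH μ)
    {i j a c k l : Fin n} (hij : i ≠ j) (hac : a ≠ c) (hkl : k ≠ l) (sg : ℚ_[p])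
    (hsg : sg = 1 ∨ sg = -1)
    (hcomm : ∀ x w : ℚ_[p], EE hij (-x) * EE hac w * EE hij x =
      (EE hac w * EE hkl (sg * x * w) : SLn p n))
    (b : AZ n) (hb : rt a c b = 0) (e : ℕ) (he : 1 ≤ e) (hbi : rt i j b = e)
    (hbk : rt k l b = e) (hst : Sst p i j μ) :
    CS S μ hij hkl (-(sg * (p : ℚ_[p]) ^ 4)) := by
  intro Φ hΦ ε hε
  have hprob := hE.prob
  obtain ⟨K, hK⟩ := (isCompact_range hΦ.abs).bddAbove
  have hK' : ∀ q, |Φ q| ≤ |K| + 1 := fun q => (hK ⟨q, rfl⟩).trans (by linarith [le_abs_self K])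
  obtain ⟨K₁, hK₁, hK₁0⟩ : ∃ K₁ : ℝ, (∀ q, |Φ q| ≤ K₁) ∧ 0 < K₁ :=
    ⟨|K| + 1, hK', by positivity⟩
  obtain ⟨v, hv⟩ := CS_01 S hE hov hij hac hkl sg hsg hcomm b hb e he hbi hbk hst
    (Φ := fun q => (Φ q + K₁) / (2 * K₁)) ((hΦ.add continuous_const).div_const _)
    (fun q => by
      have := abs_le.1 (hK₁ q)
      constructor
      · exact div_nonneg (by linarith [this.1]) (by linarith)
      · rw [div_le_one (by linarith)]
        linarith [this.2]) (ε := ε / (2 * K₁)) (by positivity)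
  refine ⟨v, ?_⟩
  have hc₁ : Continuous fun y : F × M => Φ (EE hij v • y, y) :=
    hΦ.comp ((S.continuous_smul _).prodMk continuous_id)
  have hc₂ : Continuous fun y : F × M =>
      Φ (EE hkl (-(sg * (p : ℚ_[p]) ^ 4)) • EE hij v • y, y) :=
    hΦ.comp (((S.continuous_smul _).comp (S.continuous_smul _)).prodMk continuous_id)
  have hint : ∀ f : F × M → ℝ, Continuous f → (∀ y, |f y| ≤ K₁) → Integrable f μ :=
    fun f hf hb => Integrable.of_bound hf.aestronglyMeasurable K₁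
      (Eventually.of_forall fun y => by rw [Real.norm_eq_abs]; exact hb y)
  have e1 : ∀ f : F × M → ℝ, Continuous f → (∀ y, |f y| ≤ K₁) →
      ∫ y, (f y + K₁) / (2 * K₁) ∂μ = (∫ y, f y ∂μ + K₁) / (2 * K₁) := by
    intro f hf hb
    rw [integral_div, integral_add (hint f hf hb) (integrable_const _)]
    simp only [integral_const, probReal_univ, one_smul]
  rw [e1 _ hc₁ (fun y => hK₁ _), e1 _ hc₂ (fun y => hK₁ _), ← sub_div, abs_div,
    abs_of_pos (by positivity : (0 : ℝ) < 2 * K₁),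
    div_le_div_iff_of_pos_right (by positivity)] at hv
  refine le_trans (le_of_eq ?_) hv
  congr 1
  ring

end Pool.Agent.H67.LX
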