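import Mathlib
import Pool.Agent.H67.LX.CSd
import Pool.Agent.H67.LX.Cnt

/-!
PART P* (helper67, proved).  `sst_of_CS`: `Φ (x, y) = f x` gives invariance under `U^(k,l)`; `Φ (x, y) = f x (1 - g y)` with `f`,
`g` continuous approximations of an indicator gives the second part.
-/

set_option linter.unusedSectionVars false

open MeasureTheory Filter Matrix
open scoped Topology
open Pool.Agent.H73.PZ
open Pool.Agent.H23.DM

namespace Pool.Agent.H67.LX

variable {p : ℕ} [Fact p.Prime] {n : ℕ} {Γ : Subgroup (SLn p n)} {F M : Type}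
    [TopologicalSpace F] [CompactSpace F] [T2Space F] [SecondCountableTopology F]
    [MeasurableSpace F] [BorelSpace F] [MulAction (SLn p n) F]
    [TopologicalSpace M] [CompactSpace M] [T2Space M] [SecondCountableTopology M]
    [MeasurableSpace M] [BorelSpace M] [MulAction Γ M]
    [MulAction (SLn p n) (F × M)] [MulAction (AZ n) (F × M)]

private theorem integrable_cont {X : Type} [TopologicalSpace X] [CompactSpace X] [T2Space X]
    [SecondCountableTopology X] [MeasurableSpace X] [BorelSpace X] {μ : Measure X}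
    [IsProbabilityMeasure μ] {f : X → ℝ} (hf : Continuous f) : Integrable f μ := by
  obtain ⟨C, hC⟩ := (isCompact_range hf.abs).bddAbove
  exact Integrable.of_bound hf.aestronglyMeasurable C (Eventually.of_forall fun x => by
    rw [Real.norm_eq_abs]
    exact hC ⟨x, rfl⟩)

private theorem integral_inv {X : Type} [TopologicalSpace X] [MeasurableSpace X] [BorelSpace X]
    [MulAction (SLn p n) X] {μ : Measure X} {g : SLn p n} (hg : Inv g μ) {f : X → ℝ}
    (hf : AEStronglyMeasurable f μ) : ∫ x, f (g • x) ∂μ = ∫ x, f x ∂μ := by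
  have h1 := hg.map_eq
  conv_rhs => rw [← h1]
  rw [integral_map hg.measurable.aemeasurable (by rw [h1]; exact hf)]

/-- Invariance under one element `u^(k,l)(z)`. -/
private theorem inv_z (S : Sus Γ F M) {μ : Measure (F × M)} [IsProbabilityMeasure μ]
    {i j k l : Fin n} (hij : i ≠ j) (hkl : k ≠ l) {z : ℚ_[p]} (hU : UInv p i j μ)
    (h : CS S μ hij hkl z) : Inv (EE hkl z) μ := by
  refine inv_of_integrals μ (S.continuous_smul _) fun f hf => ?_
  refine eq_of_abs_sub_le_all fun ε hε => ?_
  obtain ⟨v, hv⟩ := h (fun q => f q.1) (hf.comp continuous_fst) ε hε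
  have h1 : ∫ y, f (EE hij v • y) ∂μ = ∫ y, f y ∂μ :=
    integral_inv (hU hij v) hf.aestronglyMeasurable
  have h2 : ∫ y, f (EE hkl z • EE hij v • y) ∂μ = ∫ y, f (EE hkl z • y) ∂μ :=
    integral_inv (f := fun y => f (EE hkl z • y)) (hU hij v)
      (hf.comp (S.continuous_smul _)).aestronglyMeasurable
  rw [abs_sub_comm]
  simpa only [h1, h2] using hv

/-- From one element to the root group (abstract closure argument). -/
private theorem closure_arg {z : ℚ_[p]} (hz : z ≠ 0) {k l : Fin n} (hkl : k ≠ l)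
    (P : ℚ_[p] → Prop) (h0 : P 0) (hadd : ∀ x y, P x → P y → P (x + y))
    (hA : ∀ m : ℤ, P ((p : ℚ_[p]) ^ (2 * m) * z))
    (hcl : ∀ x, (∀ l : ℕ, ∃ y, P y ∧ ‖x - y‖ ≤ (p : ℝ) ^ (-(l : ℤ))) → P x) (x : ℚ_[p]) : P x := by
  refine hcl x fun l => ?_
  obtain ⟨m, N, h⟩ := dense_mul hz x l
  refine ⟨_, ?_, h⟩
  clear h
  induction N with
  | zero => simpa using h0
  | succ N ih =>
    have e1 : ((N + 1 : ℕ) : ℚ_[p]) * ((p : ℚ_[p]) ^ (-(2 * (m : ℤ))) * z) =
        (N : ℚ_[p]) * ((p : ℚ_[p]) ^ (-(2 * (m : ℤ))) * z) + (p : ℚ_[p]) ^ (2 * (-(m : ℤ))) * z := by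
      rw [show -(2 * (m : ℤ)) = 2 * (-(m : ℤ)) by ring]
      push_cast
      ring
    rw [e1]
    exact hadd _ _ ih (hA _)

/-- Conjugation: `dgh a * u_z * dgh a⁻¹`. -/
private theorem conj_eq {k l : Fin n} (hkl : k ≠ l) (m : ℤ) (z : ℚ_[p]) :
    (EE hkl ((p : ℚ_[p]) ^ (2 * m) * z) : SLn p n) =
      dgh p n (tA k l ^ (-m)) * EE hkl z * (dgh p n (tA k l ^ (-m)))⁻¹ := by
  have h1 : rt k l (tA k l ^ (-m)) = -(2 * m) := by
    have h2 : ∀ (a : AZ n) (m : ℤ), rt k l (a ^ m) = m * rt k l a := by
      intro a m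
      cases m with
      | ofNat t => rw [Int.ofNat_eq_natCast, zpow_natCast, rt_pow]
      | negSucc t => rw [zpow_negSucc, rt_inv, rt_pow, Int.negSucc_eq]; push_cast; ring
    have h3 : rt k l (tA k l) = 2 := by
      unfold rt tA
      rw [ex_mkA]
      simp [hkl, hkl.symm]
    rw [h2, h3]
    ring
  rw [dgh_conj, h1, neg_neg, mul_assoc, mul_inv_cancel, mul_one]

private theorem ind01 {X : Type} (E : Set X) (x : X) :
    0 ≤ E.indicator (fun _ => (1 : ℝ)) x ∧ E.indicator (fun _ => (1 : ℝ)) x ≤ 1 := by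
  by_cases hx : x ∈ E
  · rw [Set.indicator_of_mem hx]
    exact ⟨zero_le_one, le_rfl⟩
  · rw [Set.indicator_of_notMem hx]
    exact ⟨le_rfl, zero_le_one⟩

private theorem int_ind (S : Sus Γ F M) {μ : Measure (F × M)} [IsProbabilityMeasure μ]
    {E : Set (F × M)} (hE : MeasurableSet E) (g : SLn p n) :
    Integrable (fun y => E.indicator (fun _ => (1 : ℝ)) (g • y) *
      (1 - E.indicator (fun _ => (1 : ℝ)) y)) μ := by
  have hm : Measurable (E.indicator fun _ => (1 : ℝ)) := measurable_const.indicator hE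
  refine Integrable.of_bound (((hm.comp (S.measurable_smul g)).mul
    (measurable_const.sub hm)).aestronglyMeasurable) 1 (Eventually.of_forall fun y => ?_)
  have h1 := ind01 E (g • y)
  have h2 := ind01 E y
  rw [Real.norm_eq_abs, abs_of_nonneg (mul_nonneg h1.1 (by linarith))]
  nlinarith

private theorem approx_prod (S : Sus Γ F M) {μ : Measure (F × M)} [IsProbabilityMeasure μ]
    {E : Set (F × M)} (hE : MeasurableSet E) {ε : ℝ} {f : F × M → ℝ} (hf : Continuous f)
    (hf01 : ∀ x, 0 ≤ f x ∧ f x ≤ 1)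
    (hfe : ∫ x, |f x - E.indicator (fun _ => (1 : ℝ)) x| ∂μ ≤ ε) {g : SLn p n} (hg : Inv g μ) :
    |(∫ y, f (g • y) * (1 - f y) ∂μ) - ∫ y, E.indicator (fun _ => (1 : ℝ)) (g • y) *
      (1 - E.indicator (fun _ => (1 : ℝ)) y) ∂μ| ≤ 2 * ε := by
  have hm : Measurable (E.indicator fun _ => (1 : ℝ)) := measurable_const.indicator hE
  have i1 : Integrable (fun y => f (g • y) * (1 - f y)) μ :=
    integrable_cont ((hf.comp (S.continuous_smul g)).mul (continuous_const.sub hf))
  have i2 := int_ind (μ := μ) S hE g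
  have hmd : Measurable fun x => |f x - E.indicator (fun _ => (1 : ℝ)) x| :=
    (hf.measurable.sub hm).abs
  have i3 : Integrable (fun x => |f x - E.indicator (fun _ => (1 : ℝ)) x|) μ := by
    refine Integrable.of_bound hmd.aestronglyMeasurable 1 (Eventually.of_forall fun y => ?_)
    have h1 := ind01 E y
    have h2 := hf01 y
    rw [Real.norm_eq_abs, abs_abs, abs_le]
    constructor <;> linarith
  have i4 : Integrable (fun x => |f (g • x) - E.indicator (fun _ => (1 : ℝ)) (g • x)|) μ :=
    hg.integrable_comp_of_integrable i3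
  rw [← integral_sub i1 i2]
  refine (abs_integral_le_integral_abs).trans ?_
  have h5 : ∫ x, |f (g • x) - E.indicator (fun _ => (1 : ℝ)) (g • x)| ∂μ =
      ∫ x, |f x - E.indicator (fun _ => (1 : ℝ)) x| ∂μ :=
    integral_inv (f := fun x => |f x - E.indicator (fun _ => (1 : ℝ)) x|) hg
      hmd.aestronglyMeasurable
  refine (integral_mono (i1.sub i2).abs (i4.add i3) fun y => ?_).trans ?_
  · have h1 := ind01 E (g • y)
    have h2 := ind01 E y
    have h3 := hf01 (g • y)
    have h4 := hf01 y
    change |f (g • y) * (1 - f y) - E.indicator (fun _ => (1 : ℝ)) (g • y) *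
      (1 - E.indicator (fun _ => (1 : ℝ)) y)| ≤
      |f (g • y) - E.indicator (fun _ => (1 : ℝ)) (g • y)| +
        |f y - E.indicator (fun _ => (1 : ℝ)) y|
    have e1 : f (g • y) * (1 - f y) - E.indicator (fun _ => (1 : ℝ)) (g • y) *
        (1 - E.indicator (fun _ => (1 : ℝ)) y) =
        (f (g • y) - E.indicator (fun _ => (1 : ℝ)) (g • y)) * (1 - f y) -
        E.indicator (fun _ => (1 : ℝ)) (g • y) * (f y - E.indicator (fun _ => (1 : ℝ)) y) := by
      ring
    rw [e1]
    refine (abs_sub _ _).trans (add_le_add ?_ ?_)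
    · rw [abs_mul]
      refine mul_le_of_le_one_right (abs_nonneg _) ?_
      rw [abs_of_nonneg (by linarith)]
      linarith
    · rw [abs_mul]
      refine mul_le_of_le_one_left (abs_nonneg _) ?_
      rw [abs_of_nonneg h1.1]
      exact h1.2
  · rw [integral_add' i4 i3, h5]
    linarith

/-- The sets that are invariant under `u^(i,j)` are invariant under `u^(k,l)(z)`. -/
private theorem sinv_z (S : Sus Γ F M) {μ : Measure (F × M)} [IsProbabilityMeasure μ]
    {i j k l : Fin n} (hij : i ≠ j) (hkl : k ≠ l) {z : ℚ_[p]} (hU : UInv p i j μ)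
    (hz : Inv (EE hkl z) μ) (h : CS S μ hij hkl z) {E : Set (F × M)} (hE : MeasurableSet E)
    (hEi : ∀ v : ℚ_[p], SInv μ (EE hij v) E) : SInv μ (EE hkl z) E := by
  have hm : Measurable (E.indicator fun _ => (1 : ℝ)) := measurable_const.indicator hE
  have key : ∀ ε : ℝ, 0 < ε → ∫ y, E.indicator (fun _ => (1 : ℝ)) (EE hkl z • y) *
      (1 - E.indicator (fun _ => (1 : ℝ)) y) ∂μ ≤ 0 + 5 * ε := by
    intro ε hε
    obtain ⟨f, hf, hf01, hfe⟩ := approx_ind μ hE hε
    obtain ⟨v, hv⟩ := h (fun q => f q.1 * (1 - f q.2))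
      ((hf.comp continuous_fst).mul (continuous_const.sub (hf.comp continuous_snd))) ε hε
    have A1 := approx_prod S hE hf hf01 hfe (hU hij v)
    have A2 := approx_prod S hE hf hf01 hfe (hz.mul (hU hij v))
    have hae : (fun y => E.indicator (fun _ => (1 : ℝ)) (EE hij v • y)) =ᵐ[μ]
        E.indicator fun _ => (1 : ℝ) := by
      filter_upwards [hEi v] with y hy
      have hy' : (EE hij v • y ∈ E) = (y ∈ E) := hy
      by_cases hyE : y ∈ E
      · have h2 : EE hij v • y ∈ E := by rw [hy']; exact hyE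
        rw [Set.indicator_of_mem hyE, Set.indicator_of_mem h2]
      · have h2 : EE hij v • y ∉ E := by rw [hy']; exact hyE
        rw [Set.indicator_of_notMem hyE, Set.indicator_of_notMem h2]
    have B1 : ∫ y, E.indicator (fun _ => (1 : ℝ)) (EE hij v • y) *
        (1 - E.indicator (fun _ => (1 : ℝ)) y) ∂μ = 0 := by
      rw [← integral_zero (F × M) ℝ (μ := μ)]
      refine integral_congr_ae ?_
      filter_upwards [hae] with y hy
      rw [hy]
      by_cases hyE : y ∈ E
      · rw [Set.indicator_of_mem hyE]; ring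
      · rw [Set.indicator_of_notMem hyE]; ring
    have B2 : ∫ y, E.indicator (fun _ => (1 : ℝ)) ((EE hkl z * EE hij v : SLn p n) • y) *
        (1 - E.indicator (fun _ => (1 : ℝ)) y) ∂μ =
        ∫ y, E.indicator (fun _ => (1 : ℝ)) (EE hkl z • y) *
        (1 - E.indicator (fun _ => (1 : ℝ)) y) ∂μ := by
      have e2 : ∫ y, E.indicator (fun _ => (1 : ℝ)) (EE hkl z • EE hij v • y) *
          (1 - E.indicator (fun _ => (1 : ℝ)) (EE hij v • y)) ∂μ =
          ∫ y, E.indicator (fun _ => (1 : ℝ)) (EE hkl z • y) *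
          (1 - E.indicator (fun _ => (1 : ℝ)) y) ∂μ :=
        integral_inv (f := fun y => E.indicator (fun _ => (1 : ℝ)) (EE hkl z • y) *
          (1 - E.indicator (fun _ => (1 : ℝ)) y)) (hU hij v)
          ((hm.comp (S.measurable_smul _)).mul (measurable_const.sub hm)).aestronglyMeasurable
      rw [← e2]
      refine integral_congr_ae ?_
      filter_upwards [hae] with y hy
      rw [hy, mul_smul]
    rw [B1] at A1
    rw [B2] at A2
    have e3 : ∫ y, f ((EE hkl z * EE hij v : SLn p n) • y) * (1 - f y) ∂μ =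
        ∫ y, f (EE hkl z • EE hij v • y) * (1 - f y) ∂μ := by
      refine integral_congr_ae (Eventually.of_forall fun y => ?_)
      simp only [mul_smul]
    rw [e3] at A2
    have a1 := abs_le.1 A1
    have a2 := abs_le.1 A2
    have a3 := abs_le.1 hv
    linarith [a1.1, a1.2, a2.1, a2.2, a3.1, a3.2]
  have hnn : ∀ y, 0 ≤ E.indicator (fun _ => (1 : ℝ)) (EE hkl z • y) *
      (1 - E.indicator (fun _ => (1 : ℝ)) y) := fun y =>
    mul_nonneg (ind01 E _).1 (by linarith [(ind01 E y).2])
  have h0 : ∫ y, E.indicator (fun _ => (1 : ℝ)) (EE hkl z • y) *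
      (1 - E.indicator (fun _ => (1 : ℝ)) y) ∂μ = 0 := by
    refine le_antisymm ?_ (integral_nonneg hnn)
    refine le_of_forall_pos_le_add fun ε hε => ?_
    have h1 := key (ε / 5) (by linarith)
    linarith
  have hae := (integral_eq_zero_iff_of_nonneg hnn (int_ind (μ := μ) S hE _)).1 h0
  have hsub : (fun y : F × M => EE hkl z • y) ⁻¹' E ≤ᵐ[μ] E := by
    filter_upwards [hae] with y hy hy2
    have hy2' : EE hkl z • y ∈ E := hy2
    by_contra hyE
    have hyE' : y ∉ E := hyE
    rw [Set.indicator_of_mem hy2', Set.indicator_of_notMem hyE'] at hy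
    norm_num at hy
  refine ae_eq_of_ae_subset_of_measure_ge hsub ?_ (S.measurable_smul _ hE).nullMeasurableSet
    (measure_ne_top μ E)
  rw [hz.measure_preimage hE.nullMeasurableSet]

/-- Closedness of the set of `x` with `SInv μ (EE x) E`. -/
private theorem sinv_closed (S : Sus Γ F M) {μ : Measure (F × M)} [IsProbabilityMeasure μ]
    {k l : Fin n} (hU : UInv p k l μ) {E : Set (F × M)} (hE : MeasurableSet E) (hkl : k ≠ l)
    (x : ℚ_[p]) (hx : ∀ l' : ℕ, ∃ y, SInv μ (EE hkl y) E ∧ ‖x - y‖ ≤ (p : ℝ) ^ (-(l' : ℤ))) :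
    SInv μ (EE hkl x) E := by
  have hm : Measurable (E.indicator fun _ => (1 : ℝ)) := measurable_const.indicator hE
  have key : ∀ ε : ℝ, 0 < ε → μ {y | ¬ (EE hkl x • y ∈ E ↔ y ∈ E)} ≤ ENNReal.ofReal ε := by
    intro ε hε
    obtain ⟨l', hl'⟩ := transl_cont S hkl hU hm (min ε (1 / 2)) (by positivity)
    obtain ⟨y, hy, hxy⟩ := hx l'
    have h1 := hl' (x - y) hxy
    have h2 : EE hkl x = (EE hkl (x - y) * EE hkl y : SLn p n) := by
      rw [← EE_add, sub_add_cancel]
    have h3 : {w : F × M | ¬ (EE hkl x • w ∈ E ↔ w ∈ E)} ≤ᵐ[μ]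
        (fun w : F × M => EE hkl y • w) ⁻¹' {w | min ε (1 / 2) ≤
          |E.indicator (fun _ => (1 : ℝ)) (EE hkl (x - y) • w) -
            E.indicator (fun _ => (1 : ℝ)) w|} := by
      filter_upwards [hy] with w hw hw2
      have hw' : (EE hkl y • w ∈ E) = (w ∈ E) := hw
      have hw3 : ¬ (EE hkl x • w ∈ E ↔ w ∈ E) := hw2
      rw [h2, mul_smul, ← hw'] at hw3
      change min ε (1 / 2) ≤ |E.indicator (fun _ => (1 : ℝ)) (EE hkl (x - y) • EE hkl y • w) -
            E.indicator (fun _ => (1 : ℝ)) (EE hkl y • w)|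
      by_cases c1 : EE hkl (x - y) • EE hkl y • w ∈ E
      · have c2 : EE hkl y • w ∉ E := fun c => hw3 ⟨fun _ => c, fun _ => c1⟩
        rw [Set.indicator_of_mem c1, Set.indicator_of_notMem c2]
        refine (min_le_right _ _).trans ?_
        norm_num
      · have c2 : EE hkl y • w ∈ E := by
          by_contra c
          exact hw3 ⟨fun h => absurd h c1, fun h => absurd h c⟩
        rw [Set.indicator_of_notMem c1, Set.indicator_of_mem c2]
        refine (min_le_right _ _).trans ?_
        norm_num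
    refine (measure_mono_ae h3).trans ?_
    have hms : MeasurableSet {w : F × M | min ε (1 / 2) ≤
          |E.indicator (fun _ => (1 : ℝ)) (EE hkl (x - y) • w) -
            E.indicator (fun _ => (1 : ℝ)) w|} :=
      measurableSet_le measurable_const ((hm.comp (S.measurable_smul _)).sub hm).abs
    rw [(hU hkl y).measure_preimage hms.nullMeasurableSet]
    exact h1.trans (ENNReal.ofReal_le_ofReal (min_le_left _ _))
  have h0 : μ {y | ¬ (EE hkl x • y ∈ E ↔ y ∈ E)} = 0 := by
    refine le_antisymm ?_ zero_le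
    refine ENNReal.le_of_forall_pos_le_add fun ε hε _ => ?_
    have := key ε (by exact_mod_cast hε)
    rw [ENNReal.ofReal_coe_nnreal] at this
    rw [zero_add]
    exact this
  have h1 : ∀ᵐ y ∂μ, (EE hkl x • y ∈ E ↔ y ∈ E) := h0
  filter_upwards [h1] with y hy
  exact propext hy

theorem sst_of_CS (S : Sus Γ F M) {μ : Measure (F × M)} (hE : Sys (AZ n) (F × M) μ)
    {i j k l : Fin n} (hij : i ≠ j) (hkl : k ≠ l) {z : ℚ_[p]} (hz : z ≠ 0)
    (hst : Sst p i j μ) (c : AZ n) (hc : rt k l c = 0) (hc' : rt i j c ≠ 0)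
    (h : CS S μ hij hkl z) : Sst p k l μ := by
  have hp := hE.prob
  have hA := S.ainv_of_sys hE
  have hU : UInv p k l μ := by
    intro hkl' x
    refine closure_arg hz hkl' (fun x => Inv (EE hkl' x) μ) ?_ ?_ ?_ ?_ x
    · have : (EE hkl' (0 : ℚ_[p]) : SLn p n) = 1 := Subtype.ext (by
        simp [Matrix.SpecialLinearGroup.transvection_coe])
      rw [this]
      exact Inv.one
    · intro x y hx hy
      change Inv (EE hkl' (x + y)) μ
      rw [EE_add]
      exact hx.mul hy
    · intro m
      change Inv (EE hkl' _) μ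
      rw [conj_eq]
      exact ((hA _).mul (inv_z S hij hkl hst.1 h)).mul (S.inv_inv (hA _))
    · intro x hx
      refine inv_of_integrals μ (S.continuous_smul _) fun f hf => ?_
      choose y hy1 hy2 using hx
      have hlim : Tendsto y atTop (𝓝 x) := by
        rw [tendsto_iff_norm_sub_tendsto_zero]
        have hp1 : (1 : ℝ) < p := by exact_mod_cast (Fact.out : p.Prime).one_lt
        have h0 : Tendsto (fun l : ℕ => (p : ℝ) ^ (-(l : ℤ))) atTop (𝓝 0) := by
          have h1 := tendsto_pow_atTop_nhds_zero_of_lt_one (r := (p : ℝ)⁻¹) (by positivity)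
            (inv_lt_one_of_one_lt₀ hp1)
          refine h1.congr fun l => ?_
          rw [_root_.zpow_neg, zpow_natCast, inv_pow]
        exact squeeze_zero (fun l => norm_nonneg _) (fun l => by
          rw [norm_sub_rev]
          exact hy2 l) h0
      obtain ⟨K, hK⟩ := (isCompact_range hf.abs).bddAbove
      have h3 : Tendsto (fun l => ∫ w, f (EE hkl' (y l) • w) ∂μ) atTop
          (𝓝 (∫ w, f (EE hkl' x • w) ∂μ)) := by
        refine tendsto_integral_of_dominated_convergence (fun _ => K)
          (fun l => (hf.comp (S.continuous_smul _)).aestronglyMeasurable) (integrable_const K)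
          (fun l => Eventually.of_forall fun w => by
            rw [Real.norm_eq_abs]
            exact hK ⟨_, rfl⟩) (Eventually.of_forall fun w => ?_)
        have h4 : Continuous fun x : ℚ_[p] => f (EE hkl' x • w) :=
          hf.comp (S.continuous_smul2.comp ((continuous_EE hkl').prodMk continuous_const))
        exact (h4.tendsto x).comp hlim
      have h5 : ∀ l, ∫ w, f (EE hkl' (y l) • w) ∂μ = ∫ w, f w ∂μ := fun l =>
        integral_inv (hy1 l) hf.aestronglyMeasurable
      refine tendsto_nhds_unique h3 ?_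
      rw [funext h5]
      exact tendsto_const_nhds
  have hz' : ∀ E : Set (F × M), MeasurableSet E →
      (∀ a : AZ n, rt k l a = 0 → SInv μ (dgh p n a) E) → SInv μ (EE hkl z) E :=
    fun E hE' hEa => sinv_z S hij hkl hst.1 (inv_z S hij hkl hst.1 h) h hE'
      fun v => mautner S hst.1 (hA c) hc' hE' (hEa c hc) hij v
  refine ⟨hU, fun E hE' hEa hkl' x => ?_⟩
  have hz2 : ∀ m : ℤ, SInv μ (EE hkl' ((p : ℚ_[p]) ^ (2 * m) * z)) E := by
    intro m
    rw [conj_eq]
    set a := tA k l ^ (-m) with ha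
    have h1 : SInv μ (EE hkl z) ((fun x : F × M => dgh p n a • x) ⁻¹' E) := by
      refine hz' _ (S.measurable_smul _ hE') fun b hb => ?_
      have h2 := hEa b hb
      have h3 : (fun x : F × M => dgh p n b • x) ⁻¹' ((fun x : F × M => dgh p n a • x) ⁻¹' E) =
          (fun x : F × M => dgh p n a • x) ⁻¹' ((fun x : F × M => dgh p n b • x) ⁻¹' E) := by
        ext w
        simp only [Set.mem_preimage]
        rw [← mul_smul, ← mul_smul, ← map_mul, ← map_mul, mul_comm]
      unfold SInv
      rw [h3]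
      exact (hA a).quasiMeasurePreserving.preimage_ae_eq h2
    have h4 := (S.inv_inv (hA a)).quasiMeasurePreserving.preimage_ae_eq h1
    unfold SInv
    have h5 : (fun x : F × M => (dgh p n a * EE hkl z * (dgh p n a)⁻¹) • x) ⁻¹' E =
        (fun x : F × M => (dgh p n a)⁻¹ • x) ⁻¹' ((fun x : F × M => EE hkl z • x) ⁻¹'
          ((fun x : F × M => dgh p n a • x) ⁻¹' E)) := by
      ext w
      simp only [Set.mem_preimage, mul_smul]
    have h6 : (fun x : F × M => (dgh p n a)⁻¹ • x) ⁻¹' ((fun x : F × M => dgh p n a • x) ⁻¹' E) =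
        E := by
      ext w
      simp only [Set.mem_preimage, smul_inv_smul]
    rw [h5]
    rw [h6] at h4
    exact h4
  refine closure_arg hz hkl' (fun x => SInv μ (EE hkl' x) E) ?_ ?_ hz2 ?_ x
  · have h7 : (EE hkl' (0 : ℚ_[p]) : SLn p n) = 1 := Subtype.ext (by simp)
    change SInv μ (EE hkl' 0) E
    rw [h7]
    unfold SInv
    have h8 : (fun x : F × M => (1 : SLn p n) • x) ⁻¹' E = E := by
      ext w
      simp only [Set.mem_preimage, one_smul]
    exact h8.symm ▸ EventuallyEq.rfl
  · intro x y hx hy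
    change SInv μ (EE hkl' (x + y)) E
    rw [EE_add]
    exact hx.mul hy (hU hkl' y)
  · intro x hx
    exact sinv_closed S hU hE' hkl' x hx

end Pool.Agent.H67.LX
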