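import Mathlib
import Pool.Agent.H67.LX.CSs

/-!
PART P* (helper67).  The closure theorem (P*) and its corollary: if one root is in `Σ*`, all are.
-/

set_option linter.unusedSectionVars false

open MeasureTheory Filter Matrix
open scoped Topology
open Pool.Agent.H73.PZ
open Pool.Agent.H23.DM

namespace Pool.Agent.H67.LX

variable {p : ℕ} [Fact p.Prime] {n : ℕ} {Γ : Subgroup (SLn p n)} {F M : Type}
    [TopologicalSpace F] [CompactSpace F] [T2Space F] [SecondCountableTopology F]
    [MeasurableSpace F] [BorelSpace F] [MulAction (SLn p n) F]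
    [TopologicalSpace M] [CompactSpace M] [T2Space M] [SecondCountableTopology M]
    [MeasurableSpace M] [BorelSpace M] [MulAction Γ M]
    [MulAction (SLn p n) (F × M)] [MulAction (AZ n) (F × M)]

/-- The exponents of the element of `A` with exponents `x` at `i`, `y` at `j`, `z` at `k`. -/
theorem exists_three {i j k : Fin n} (hij : i ≠ j) (hjk : j ≠ k) (hik : i ≠ k) (x y z : ℤ)
    (h : x + y + z = 0) : ∃ b : AZ n, ex b i = x ∧ ex b j = y ∧ ex b k = z := by
  refine ⟨mkA (fun l => (if l = i then x else 0) + (if l = j then y else 0) +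
    (if l = k then z else 0)) ?_, ?_, ?_, ?_⟩
  · rw [Finset.sum_add_distrib, Finset.sum_add_distrib]
    simp [h]
  · rw [ex_mkA]
    simp [hij, hik]
  · rw [ex_mkA]
    simp [hij.symm, hjk]
  · rw [ex_mkA]
    simp [hik.symm, hjk.symm]

theorem sst_right (S : Sus Γ F M) {μ : Measure (F × M)} (hE : Sys (AZ n) (F × M) μ)
    (hov : S.OvH μ) {i j k : Fin n} (hij : i ≠ j) (hjk : j ≠ k) (hik : i ≠ k)
    (hst : Sst p i j μ) : Sst p i k μ := by
  have hcomm : ∀ x w : ℚ_[p], EE hij (-x) * EE hjk w * EE hij x =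
      (EE hjk w * EE hik (-1 * x * w) : SLn p n) := by
    intro x w
    have h1 := EE_heis (p := p) hij hjk hik (-x) w
    have h2 : EE hij (-x) * EE hij x = (1 : SLn p n) := by
      rw [← EE_add, neg_add_cancel]
      exact Subtype.ext (by simp [Matrix.SpecialLinearGroup.transvection_coe])
    have h3 : EE hik (-x * w) * EE hij x = (EE hij x * EE hik (-x * w) : SLn p n) :=
      (EE_comm_left hij hik x (-x * w)).symm ▸ rfl
    rw [h1, mul_assoc, h3, ← mul_assoc, mul_assoc (EE hjk w), h2, mul_one]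
    congr 2
    ring
  obtain ⟨b, hb1, hb2, hb3⟩ := exists_three hij hjk hik (-2) 1 1 (by norm_num)
  obtain ⟨c, hc1, hc2, hc3⟩ := exists_three hij hjk hik 1 (-2) 1 (by norm_num)
  have h := CS_of S hE hov hij hjk hik (-1) (Or.inr rfl) hcomm b (by unfold rt; rw [hb2, hb3]; ring)
    3 (by norm_num) (by unfold rt; rw [hb1, hb2]; norm_num)
    (by unfold rt; rw [hb1, hb3]; norm_num) hst
  refine sst_of_CS S hE hij hik ?_ hst c (by unfold rt; rw [hc1, hc3]; ring)
    (by unfold rt; rw [hc1, hc2]; norm_num) h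
  exact neg_ne_zero.mpr (mul_ne_zero (by norm_num) (pow_ne_zero _ pne))

theorem sst_left (S : Sus Γ F M) {μ : Measure (F × M)} (hE : Sys (AZ n) (F × M) μ)
    (hov : S.OvH μ) {i j k : Fin n} (hij : i ≠ j) (hki : k ≠ i) (hkj : k ≠ j)
    (hst : Sst p i j μ) : Sst p k j μ := by
  have hcomm : ∀ x w : ℚ_[p], EE hij (-x) * EE hki w * EE hij x =
      (EE hki w * EE hkj (1 * x * w) : SLn p n) := by
    intro x w
    have h1 := EE_heis (p := p) hki hij hkj w x
    have h2 : EE hij (-x) * EE hij x = (1 : SLn p n) := by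
      rw [← EE_add, neg_add_cancel]
      exact Subtype.ext (by simp [Matrix.SpecialLinearGroup.transvection_coe])
    have h3 : EE hkj (w * x) * EE hki w = (EE hki w * EE hkj (w * x) : SLn p n) :=
      (EE_comm_left hki hkj w (w * x)).symm ▸ rfl
    rw [mul_assoc, h1, ← mul_assoc, ← mul_assoc, h2, one_mul]
    congr 2
    ring
  obtain ⟨b, hb1, hb2, hb3⟩ := exists_three hki hij hkj (-1) (-1) 2 (by norm_num)
  obtain ⟨c, hc1, hc2, hc3⟩ := exists_three hki hij hkj 1 (-2) 1 (by norm_num)
  have h := CS_of S hE hov hij hki hkj 1 (Or.inl rfl) hcomm b (by unfold rt; rw [hb1, hb2]; ring)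
    3 (by norm_num) (by unfold rt; rw [hb2, hb3]; norm_num)
    (by unfold rt; rw [hb1, hb3]; norm_num) hst
  refine sst_of_CS S hE hij hkj ?_ hst c (by unfold rt; rw [hc1, hc3]; ring)
    (by unfold rt; rw [hc2, hc3]; norm_num) h
  exact neg_ne_zero.mpr (mul_ne_zero (by norm_num) (pow_ne_zero _ pne))

theorem sst_all (hn : 3 ≤ n) (S : Sus Γ F M) {μ : Measure (F × M)}
    (hE : Sys (AZ n) (F × M) μ) (hov : S.OvH μ) {i j : Fin n} (hij : i ≠ j)
    (hst : Sst p i j μ) (k l : Fin n) (hkl : k ≠ l) : Sst p k l μ := by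
  have key : ∀ b : Fin n, b ≠ i → ∀ a : Fin n, a ≠ b → Sst p a b μ := by
    intro b hb a hab
    have h1 : Sst p i b μ := by
      by_cases hbj : b = j
      · rw [hbj]; exact hst
      · exact sst_right S hE hov hij (Ne.symm hbj) hb.symm hst
    by_cases hai : a = i
    · rw [hai]; exact h1
    · exact sst_left S hE hov hb.symm hai hab h1
  by_cases hli : l = i
  · obtain ⟨m, hm1, hm2⟩ : ∃ m : Fin n, m ≠ i ∧ m ≠ k := by
      by_contra hcon
      push Not at hcon
      have h3 : (Finset.univ : Finset (Fin n)) ⊆ {i, k} := by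
        intro m _
        rw [Finset.mem_insert, Finset.mem_singleton]
        by_cases hm : m = i
        · exact Or.inl hm
        · exact Or.inr (hcon m hm)
      have h4 := (Finset.card_le_card h3).trans Finset.card_le_two
      rw [Finset.card_univ, Fintype.card_fin] at h4
      omega
    have h1 : Sst p k m μ := key m hm1 k hm2.symm
    have hki : k ≠ i := by rw [← hli]; exact hkl
    rw [hli]
    exact sst_right S hE hov hm2.symm hm1 hki h1
  · exact key l hli k hkl

end Pool.Agent.H67.LX
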