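import Mathlib
import Pool.Agent.H67.LX.PStar
import Pool.Agent.H67.LX.GInv
import Pool.Agent.H67.LX.OvHaar
import Pool.Agent.H67.LX.Erg
import Pool.Agent.H67.LX.Bas

/-!
PART assembly (helper67).  Paper (S1): a measure invariant under a Borel subgroup has `κ ≤ 0`.
-/

set_option linter.unusedSectionVars false

open MeasureTheory Filter Matrix
open scoped Topology
open Pool.Agent.H73.PZ
open Pool.Agent.H23.DM

namespace Pool.Agent.H67.LX

variable {p : ℕ} [Fact p.Prime] {n : ℕ} {Γ : Subgroup (SLn p n)} {F M : Type}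
    [TopologicalSpace F] [CompactSpace F] [T2Space F] [SecondCountableTopology F]
    [MeasurableSpace F] [BorelSpace F] [MulAction (SLn p n) F]
    [TopologicalSpace M] [CompactSpace M] [T2Space M] [SecondCountableTopology M]
    [MeasurableSpace M] [BorelSpace M] [MulAction Γ M]
    [MulAction (SLn p n) (F × M)] [MulAction (AZ n) (F × M)]

/-- A measure invariant under `A` and under `U^(i,j)`, `i ∈ I`, `j ∉ I`, is over the invariant
measure. -/
theorem ovh_of_UI (hn : 2 ≤ n) (S : Sus Γ F M) {μ : Measure (F × M)} [IsProbabilityMeasure μ]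
    (hA : S.AInv μ) (I : Set (Fin n)) (hI : I.Nonempty) (hI' : Iᶜ.Nonempty)
    (hU : ∀ i ∈ I, ∀ j ∉ I, UInv p i j μ) : S.OvH μ := by
  haveI := Sus.prob_fst (F := F) (M := M) (μ := μ)
  exact over_haar hn S.B (μ.map Prod.fst) I hI hI' (fun a => S.inv_fst (hA a))
    fun i hi j hj hij x => S.inv_fst (hU i hi j hj hij x)

theorem borel_NG (hn : 3 ≤ n) (S : Sus Γ F M) (ρ : Fin n → ℕ) (hρ : Function.Injective ρ)
    {μ : Measure (F × M)} [IsProbabilityMeasure μ] (hA : S.AInv μ)
    (hU : ∀ i j, ρ i < ρ j → UInv p i j μ) (a : AZ n) : S.NG μ a := by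
  intro c hc hg
  obtain ⟨μ', hE, hA', hU', hg'⟩ := exists_ergodic S {q : Fin n × Fin n | ρ q.1 < ρ q.2} hA
    (fun q hq => ⟨fun h => by
      have h1 : ρ q.1 < ρ q.2 := hq
      rw [h] at h1
      exact lt_irrefl _ h1, hU q.1 q.2 hq⟩) hc hg
  haveI := hE.prob
  have hU'' : ∀ i j, ρ i < ρ j → UInv p i j μ' := fun i j h => hU' (i, j) h
  haveI : Nonempty (Fin n) := ⟨⟨0, by omega⟩⟩
  obtain ⟨i, hi⟩ : ∃ i : Fin n, ∀ j, ρ i ≤ ρ j := by
    obtain ⟨i, -, hi⟩ := Finset.exists_min_image (Finset.univ : Finset (Fin n)) ρ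
      Finset.univ_nonempty
    exact ⟨i, fun j => hi j (Finset.mem_univ j)⟩
  obtain ⟨j, hj⟩ : ∃ j : Fin n, ∀ k, ρ k ≤ ρ j := by
    obtain ⟨j, -, hj⟩ := Finset.exists_max_image (Finset.univ : Finset (Fin n)) ρ
      Finset.univ_nonempty
    exact ⟨j, fun k => hj k (Finset.mem_univ k)⟩
  obtain ⟨k, hki, hkj⟩ : ∃ k : Fin n, k ≠ i ∧ k ≠ j := by
    by_contra hcon
    push Not at hcon
    have h3 : (Finset.univ : Finset (Fin n)) ⊆ {i, j} := by
      intro m _
      rw [Finset.mem_insert, Finset.mem_singleton]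
      by_cases hm : m = i
      · exact Or.inl hm
      · exact Or.inr (hcon m hm)
    have h4 := (Finset.card_le_card h3).trans Finset.card_le_two
    rw [Finset.card_univ, Fintype.card_fin] at h4
    omega
  have hik : ρ i < ρ k := lt_of_le_of_ne (hi k) fun h => hki (hρ h).symm
  have hkj' : ρ k < ρ j := lt_of_le_of_ne (hj k) fun h => hkj (hρ h)
  have hij : i ≠ j := fun h => by rw [h] at hik; exact lt_asymm hik hkj'
  have hov : S.OvH μ' := ovh_of_UI (by omega) S hA' {i} ⟨i, rfl⟩ ⟨k, hki⟩ fun i' hi' l hl => by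
    rw [Set.mem_singleton_iff] at hi' hl
    rw [hi']
    exact hU'' i l (lt_of_le_of_ne (hi l) fun h => hl (hρ h).symm)
  have hst : Sst p i j μ' := by
    refine ⟨hU'' i j (hik.trans hkj'), fun E hE' hEa hij' x => ?_⟩
    obtain ⟨c', hc1, hc2, hc3⟩ := exists_three hki.symm hkj hij 1 (-2) 1 (by norm_num)
    have h0 : SInv μ' (dgh p n c') E := hEa c' (by unfold rt; rw [hc1, hc3]; ring)
    refine S.sinv_comm hki.symm hkj (hU'' i k hik) (hU'' k j hkj') (fun y => ?_) (fun y => ?_)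
      hij' x
    · exact mautner S (hU'' i k hik) (hA' c') (by unfold rt; rw [hc1, hc2]; norm_num) hE' h0 _ y
    · exact mautner S (hU'' k j hkj') (hA' c') (by unfold rt; rw [hc2, hc3]; norm_num) hE' h0 _ y
  exact ginv_NG hn S hE (fun k l hkl => sst_all hn S hE hov hij hst k l hkl) a c hc hg'

end Pool.Agent.H67.LX
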