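import Mathlib
import Pool.Agent.H67.LX.AvgA
import Pool.Agent.H73.LX.Sg

/-!
PART averages (proved by helper73).  From an `A`-invariant measure with growth to one which is in
addition invariant under the unipotent radical `U_I` of a maximal parabolic subgroup.

`(P, N)` are disjoint nonempty sets such that all `U^(i,j)`, `i ∈ P`, `j ∈ N` preserve the measure.  If
`l ∉ P ∪ N`, one adds roots `(l, j)`, `j ∈ N`, and `(i, l)`, `i ∈ P`, one after the other: two of them
are not proportional, so that a power of `b` is a product of elements of the two kernels, one of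
which has growth; average over this root group.  At the end `l` joins `P` or `N`.
-/

set_option linter.unusedSectionVars false

open MeasureTheory Filter Matrix
open scoped Topology
open Pool.Agent.H73.PZ
open Pool.Agent.H23.DM

namespace Pool.Agent.H67.LX

variable {p : ℕ} [Fact p.Prime] {n : ℕ} {Γ : Subgroup (SLn p n)} {F M : Type}
    [TopologicalSpace F] [CompactSpace F] [T2Space F] [SecondCountableTopology F]
    [MeasurableSpace F] [BorelSpace F] [MulAction (SLn p n) F]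
    [TopologicalSpace M] [CompactSpace M] [T2Space M] [SecondCountableTopology M]
    [MeasurableSpace M] [BorelSpace M] [MulAction Γ M]
    [MulAction (SLn p n) (F × M)] [MulAction (AZ n) (F × M)]

namespace Sus

theorem s_inv_pow (S : Sus Γ F M) {μ : Measure (F × M)} (hA : S.AInv μ) (a : AZ n) (T : ℕ) :
    Inv (dgh p n a ^ T) μ := by
  rw [← map_pow]
  exact hA (a ^ T)

theorem s_int_comp (S : Sus Γ F M) {μ : Measure (F × M)} {g : SLn p n} (hg : Inv g μ)
    (h : SLn p n) : ∫ x, S.L h (g • x) ∂μ = ∫ x, S.L h x ∂μ := by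
  have h1 : ∫ x, S.L h (g • x) ∂μ = ∫ y, S.L h y ∂(μ.map fun x : F × M => g • x) :=
    (integral_map hg.measurable.aemeasurable (S.s_L_cont h).aestronglyMeasurable).symm
  rw [h1, hg.map_eq]

theorem s_int_mul_le (S : Sus Γ F M) {μ : Measure (F × M)} [IsProbabilityMeasure μ]
    (g h : SLn p n) (hh : Inv h μ) :
    ∫ x, S.L (g * h) x ∂μ ≤ ∫ x, S.L g x ∂μ + ∫ x, S.L h x ∂μ := by
  have hi : Integrable (fun x => S.L g (h • x)) μ := by
    have h2 : Integrable (S.L g) (μ.map fun x : F × M => h • x) := by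
      rw [hh.map_eq]
      exact S.s_L_int g μ
    exact h2.comp_measurable hh.measurable
  calc ∫ x, S.L (g * h) x ∂μ ≤ ∫ x, (S.L g (h • x) + S.L h x) ∂μ :=
        integral_mono (S.s_L_int _ μ) (hi.add (S.s_L_int h μ)) fun x => S.s_L_mul g h x
    _ = ∫ x, S.L g (h • x) ∂μ + ∫ x, S.L h x ∂μ := integral_add hi (S.s_L_int h μ)
    _ = _ := by rw [S.s_int_comp hh]

theorem s_int_nsmul_le (S : Sus Γ F M) {μ : Measure (F × M)} [IsProbabilityMeasure μ]
    (hA : S.AInv μ) (a : AZ n) (T k : ℕ) :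
    ∫ x, S.L (dgh p n a ^ (T * (k + 1))) x ∂μ ≤ (k + 1) * ∫ x, S.L (dgh p n a ^ T) x ∂μ := by
  induction k with
  | zero => simp
  | succ k ih =>
    have h1 : dgh p n a ^ (T * (k + 1 + 1)) = dgh p n a ^ T * dgh p n a ^ (T * (k + 1)) := by
      rw [← pow_add]
      congr 1
      ring
    rw [h1]
    have h2 := S.s_int_mul_le (μ := μ) (dgh p n a ^ T) (dgh p n a ^ (T * (k + 1)))
      (S.s_inv_pow hA a _)
    push_cast
    linarith

theorem s_int_one_nonneg (S : Sus Γ F M) {μ : Measure (F × M)} : 0 ≤ ∫ x, S.L 1 x ∂μ :=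
  integral_nonneg fun x => S.s_L_one x

theorem s_GB_pow (S : Sus Γ F M) {μ : Measure (F × M)} {a : AZ n} {c : ℝ} (h : S.GB μ a c)
    (k : ℕ) : S.GB μ (a ^ k) (k * c) := by
  intro T
  have h1 := h (k * T)
  rw [map_pow, ← pow_mul]
  push_cast at h1
  calc (k : ℝ) * c * T = c * (k * T) := by ring
    _ ≤ _ := h1

end Sus

/-- `GB` for a product: if `κ_{ab} > 0` then `κ_a > 0` or `κ_b > 0`. -/
theorem GB_mul (S : Sus Γ F M) {μ : Measure (F × M)} [IsProbabilityMeasure μ]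
    (hA : S.AInv μ) {a b : AZ n} {c : ℝ} (hc : 0 < c) (h : S.GB μ (a * b) c) :
    ∃ c' : ℝ, 0 < c' ∧ (S.GB μ a c' ∨ S.GB μ b c') := by
  refine ⟨c / 2, by positivity, ?_⟩
  by_contra hcon
  push Not at hcon
  obtain ⟨h1, h2⟩ := hcon
  unfold Sus.GB at h1 h2
  push Not at h1 h2
  obtain ⟨s, hs⟩ := h1
  obtain ⟨t, ht⟩ := h2
  have hs0 : s ≠ 0 := by
    rintro rfl
    have h3 := S.s_int_one_nonneg (μ := μ)
    rw [pow_zero] at hs
    simp at hs
    linarith
  have ht0 : t ≠ 0 := by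
    rintro rfl
    have h3 := S.s_int_one_nonneg (μ := μ)
    rw [pow_zero] at ht
    simp at ht
    linarith
  obtain ⟨s', rfl⟩ := Nat.exists_eq_succ_of_ne_zero hs0
  obtain ⟨t', rfl⟩ := Nat.exists_eq_succ_of_ne_zero ht0
  have h3 := S.s_int_nsmul_le hA a (s'.succ) t'
  have h4 := S.s_int_nsmul_le hA b (t'.succ) s'
  have h5 := h (s'.succ * t'.succ)
  have h6 : dgh p n (a * b) ^ (s'.succ * t'.succ) =
      dgh p n a ^ (s'.succ * (t' + 1)) * dgh p n b ^ (t'.succ * (s' + 1)) := by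
    have h6' : t'.succ * (s' + 1) = s'.succ * t'.succ := by
      rw [Nat.succ_eq_add_one, Nat.succ_eq_add_one]
      ring
    rw [h6', ← map_pow, mul_pow, map_mul, map_pow, map_pow]
  rw [h6] at h5
  have h7 := S.s_int_mul_le (μ := μ) (dgh p n a ^ (s'.succ * (t' + 1)))
    (dgh p n b ^ (t'.succ * (s' + 1))) (S.s_inv_pow hA b _)
  push_cast at h5 hs ht
  have hs1 : (0 : ℝ) < (s' : ℝ) + 1 := by positivity
  have ht1 : (0 : ℝ) < (t' : ℝ) + 1 := by positivity
  have h8 := mul_lt_mul_of_pos_left hs ht1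
  have h9 := mul_lt_mul_of_pos_left ht hs1
  nlinarith

private theorem caseI_three {i j k : Fin n} (hij : i ≠ j) (hjk : j ≠ k) (hik : i ≠ k) (x y z : ℤ)
    (h : x + y + z = 0) : ∃ b : AZ n, ex b i = x ∧ ex b j = y ∧ ex b k = z := by
  refine ⟨mkA (fun l => (if l = i then x else 0) + (if l = j then y else 0) +
    (if l = k then z else 0)) ?_, ?_, ?_, ?_⟩
  · rw [Finset.sum_add_distrib, Finset.sum_add_distrib]
    simp [h]
  · rw [ex_mkA]
    simp [hij, hik]
  · rw [ex_mkA]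
    simp [hij.symm, hjk]
  · rw [ex_mkA]
    simp [hik.symm, hjk.symm]

/-- Non-proportional roots: a power of `b` is a product of elements of the kernels. -/
theorem caseI_split {i j l : Fin n} (hij : i ≠ j) (hil : i ≠ l) (hjl : j ≠ l) (b : AZ n) :
    ∃ b₁ b₂ : AZ n, b ^ 3 = b₁ * b₂ ∧ rt l j b₁ = 0 ∧ rt i l b₂ = 0 := by
  obtain ⟨b₁, h1, h2, h3⟩ := caseI_three hij hjl hil (-2 * rt i l b) (rt i l b) (rt i l b) (by ring)
  refine ⟨b₁, b₁⁻¹ * b ^ 3, by group, ?_, ?_⟩
  · unfold rt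
    unfold rt at h2 h3
    rw [h2, h3]
    ring
  · rw [rt_mul, rt_inv, rt_pow]
    have h4 : rt i l b₁ = 3 * rt i l b := by
      conv_lhs => unfold rt
      rw [h3, h1]
      ring
    rw [h4]
    push_cast
    ring

/-- The statement of the induction. -/
def CaseIGood (S : Sus Γ F M) (Q : Set (Fin n × Fin n)) : Prop :=
  ∃ μ : Measure (F × M), IsProbabilityMeasure μ ∧ S.AInv μ ∧ (∀ q ∈ Q, UInv p q.1 q.2 μ) ∧
    ∃ (b : AZ n) (c : ℝ), 0 < c ∧ S.GB μ b c

theorem CaseIGood.mono {S : Sus Γ F M} {Q Q' : Set (Fin n × Fin n)} (h : CaseIGood S Q) (hQ : Q' ⊆ Q) :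
    CaseIGood S Q' := by
  obtain ⟨μ, h1, h2, h3, h4⟩ := h
  exact ⟨μ, h1, h2, fun q hq => h3 q (hQ hq), h4⟩

theorem CaseIGood.add {S : Sus Γ F M} {Q : Set (Fin n × Fin n)} (h : CaseIGood S Q) {i j l : Fin n}
    (hij : i ≠ j) (hil : i ≠ l) (hjl : j ≠ l)
    (a1 : (j, l) ∉ Q) (a2 : ∀ m, (j, m) ∈ Q → (l, m) ∈ Q) (a3 : ∀ k, (k, l) ∈ Q → (k, j) ∈ Q)
    (b1 : (l, i) ∉ Q) (b2 : ∀ m, (l, m) ∈ Q → (i, m) ∈ Q) (b3 : ∀ k, (k, i) ∈ Q → (k, l) ∈ Q) :
    CaseIGood S (insert (l, j) Q) ∨ CaseIGood S (insert (i, l) Q) := by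
  obtain ⟨μ, h1, h2, h3, b, c, hc, hg⟩ := h
  obtain ⟨w₁, w₂, hw, hw1, hw2⟩ := caseI_split hij hil hjl b
  have hg3 := S.s_GB_pow hg 3
  rw [hw] at hg3
  obtain ⟨c', hc', hg4⟩ := GB_mul S h2 (by positivity) hg3
  rcases hg4 with hg4 | hg4
  · left
    obtain ⟨μ', k1, k2, k3, k4, k5⟩ := average_root S h2 hg4 (Ne.symm hjl) hw1 Q h3 a1 a2 a3
    refine ⟨μ', k1, k2, ?_, w₁, c', hc', k3⟩
    intro q hq
    rcases Set.mem_insert_iff.1 hq with rfl | hq
    · exact k4
    · exact k5 q hq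
  · right
    obtain ⟨μ', k1, k2, k3, k4, k5⟩ := average_root S h2 hg4 hil hw2 Q h3 b1 b2 b3
    refine ⟨μ', k1, k2, ?_, w₂, c', hc', k3⟩
    intro q hq
    rcases Set.mem_insert_iff.1 hq with rfl | hq
    · exact k4
    · exact k5 q hq

/-- The set of roots of the intermediate steps. -/
def CaseIQ (P N P' N' : Finset (Fin n)) (l : Fin n) : Set (Fin n × Fin n) :=
  {q | (q.1 ∈ P ∧ q.2 ∈ N) ∨ (q.1 = l ∧ q.2 ∈ N') ∨ (q.1 ∈ P' ∧ q.2 = l)}

theorem caseI_inner (S : Sus Γ F M) {P N : Finset (Fin n)} (hPN : Disjoint P N) {l : Fin n}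
    (hlP : l ∉ P) (hlN : l ∉ N) : ∀ (k : ℕ) (P' N' : Finset (Fin n)), P' ⊆ P → N' ⊆ N →
    (P \ P').card + (N \ N').card = k → CaseIGood S (CaseIQ P N P' N' l) →
    CaseIGood S {q | q.1 ∈ insert l P ∧ q.2 ∈ N} ∨ CaseIGood S {q | q.1 ∈ P ∧ q.2 ∈ insert l N} := by
  intro k
  induction k using Nat.strong_induction_on with
  | _ k ih =>
    intro P' N' hP' hN' hk hG
    by_cases hN : N ⊆ N'
    · left
      refine hG.mono ?_
      rintro ⟨x, y⟩ ⟨hx, hy⟩
      rcases Finset.mem_insert.1 hx with hx | hx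
      · exact Or.inr (Or.inl ⟨hx, hN hy⟩)
      · exact Or.inl ⟨hx, hy⟩
    by_cases hP : P ⊆ P'
    · right
      refine hG.mono ?_
      rintro ⟨x, y⟩ ⟨hx, hy⟩
      rcases Finset.mem_insert.1 hy with hy | hy
      · exact Or.inr (Or.inr ⟨hP hx, hy⟩)
      · exact Or.inl ⟨hx, hy⟩
    obtain ⟨j, hj, hj'⟩ := Finset.not_subset.1 hN
    obtain ⟨i, hi, hi'⟩ := Finset.not_subset.1 hP
    have hjP : j ∉ P := fun h => Finset.disjoint_left.1 hPN h hj
    have hiN : i ∉ N := fun h => Finset.disjoint_left.1 hPN hi h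
    have hij : i ≠ j := fun h => hjP (h ▸ hi)
    have hil : i ≠ l := fun h => hlP (h ▸ hi)
    have hjl : j ≠ l := fun h => hlN (h ▸ hj)
    have hlP' : l ∉ P' := fun h => hlP (hP' h)
    have hlN' : l ∉ N' := fun h => hlN (hN' h)
    have hjP' : j ∉ P' := fun h => hjP (hP' h)
    have hiN' : i ∉ N' := fun h => hiN (hN' h)
    have hadd := hG.add (i := i) (j := j) (l := l) hij hil hjl ?_ ?_ ?_ ?_ ?_ ?_
    · rcases hadd with h | h
      · refine ih (k - 1) ?_ P' (insert j N') hP' (Finset.insert_subset hj hN') ?_ (h.mono ?_)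
        · have h1 : 0 < (N \ N').card := Finset.card_pos.2 ⟨j, Finset.mem_sdiff.2 ⟨hj, hj'⟩⟩
          omega
        · have h1 : N \ insert j N' = (N \ N').erase j := by
            ext x
            simp only [Finset.mem_sdiff, Finset.mem_insert, Finset.mem_erase]
            tauto
          have h2 : j ∈ N \ N' := Finset.mem_sdiff.2 ⟨hj, hj'⟩
          have h3 : 0 < (N \ N').card := Finset.card_pos.2 ⟨j, h2⟩
          rw [h1, Finset.card_erase_of_mem h2]
          omega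
        · rintro ⟨x, y⟩ (hq | ⟨hq1, hq2⟩ | hq)
          · exact Or.inr (Or.inl hq)
          · change x = l at hq1
            change y ∈ insert j N' at hq2
            rcases Finset.mem_insert.1 hq2 with hq2 | hq2
            · left
              rw [hq1, hq2]
            · exact Or.inr (Or.inr (Or.inl ⟨hq1, hq2⟩))
          · exact Or.inr (Or.inr (Or.inr hq))
      · refine ih (k - 1) ?_ (insert i P') N' (Finset.insert_subset hi hP') hN' ?_ (h.mono ?_)
        · have h1 : 0 < (P \ P').card := Finset.card_pos.2 ⟨i, Finset.mem_sdiff.2 ⟨hi, hi'⟩⟩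
          omega
        · have h1 : P \ insert i P' = (P \ P').erase i := by
            ext x
            simp only [Finset.mem_sdiff, Finset.mem_insert, Finset.mem_erase]
            tauto
          have h2 : i ∈ P \ P' := Finset.mem_sdiff.2 ⟨hi, hi'⟩
          have h3 : 0 < (P \ P').card := Finset.card_pos.2 ⟨i, h2⟩
          rw [h1, Finset.card_erase_of_mem h2]
          omega
        · rintro ⟨x, y⟩ (hq | hq | ⟨hq1, hq2⟩)
          · exact Or.inr (Or.inl hq)
          · exact Or.inr (Or.inr (Or.inl hq))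
          · change x ∈ insert i P' at hq1
            change y = l at hq2
            rcases Finset.mem_insert.1 hq1 with hq1 | hq1
            · left
              rw [hq1, hq2]
            · exact Or.inr (Or.inr (Or.inr ⟨hq1, hq2⟩))
    · rintro (⟨h, -⟩ | ⟨h, -⟩ | ⟨h, -⟩)
      · exact hjP h
      · exact hjl h
      · exact hjP' h
    · rintro m (⟨h, -⟩ | ⟨h, -⟩ | ⟨h, -⟩)
      · exact (hjP h).elim
      · exact (hjl h).elim
      · exact (hjP' h).elim
    · rintro k (⟨-, h⟩ | ⟨-, h⟩ | ⟨h, -⟩)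
      · exact (hlN h).elim
      · exact (hlN' h).elim
      · exact Or.inl ⟨hP' h, hj⟩
    · rintro (⟨h, -⟩ | ⟨-, h⟩ | ⟨h, -⟩)
      · exact hlP h
      · exact hiN' h
      · exact hlP' h
    · rintro m (⟨h, -⟩ | ⟨-, h⟩ | ⟨h, -⟩)
      · exact (hlP h).elim
      · exact Or.inl ⟨hi, hN' h⟩
      · exact (hlP' h).elim
    · rintro k (⟨-, h⟩ | ⟨-, h⟩ | ⟨-, h⟩)
      · exact (hiN h).elim
      · exact (hiN' h).elim
      · exact (hil h).elim

theorem caseI_outer (S : Sus Γ F M) : ∀ (k : ℕ) (P N : Finset (Fin n)), Disjoint P N → P.Nonempty →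
    N.Nonempty → ((P ∪ N)ᶜ).card = k → CaseIGood S {q | q.1 ∈ P ∧ q.2 ∈ N} →
    ∃ I : Finset (Fin n), I.Nonempty ∧ Iᶜ.Nonempty ∧ CaseIGood S {q | q.1 ∈ I ∧ q.2 ∉ I} := by
  intro k
  induction k with
  | zero =>
    intro P N hPN hP hN hk hG
    have h1 : ∀ x, x ∉ P → x ∈ N := by
      intro x hx
      by_contra hx'
      have h2 : x ∈ (P ∪ N)ᶜ := by
        simp [hx, hx']
      rw [Finset.card_eq_zero.1 hk] at h2
      simp at h2
    refine ⟨P, hP, ?_, hG.mono ?_⟩
    · obtain ⟨x, hx⟩ := hN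
      exact ⟨x, Finset.mem_compl.2 fun h => Finset.disjoint_left.1 hPN h hx⟩
    · rintro ⟨x, y⟩ ⟨hx, hy⟩
      exact ⟨hx, h1 y hy⟩
  | succ k ih =>
    intro P N hPN hP hN hk hG
    obtain ⟨l, hl⟩ : ((P ∪ N)ᶜ).Nonempty := Finset.card_pos.1 (by omega)
    have hlP : l ∉ P := fun h => by simp [h] at hl
    have hlN : l ∉ N := fun h => by simp [h] at hl
    have hG2 : CaseIGood S (CaseIQ P N ∅ ∅ l) := by
      refine hG.mono ?_
      rintro ⟨x, y⟩ (h | ⟨-, h⟩ | ⟨h, -⟩)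
      · exact h
      · simp at h
      · simp at h
    rcases caseI_inner S hPN hlP hlN _ ∅ ∅ (Finset.empty_subset _) (Finset.empty_subset _) rfl hG2 with
      h | h
    · refine ih (insert l P) N ?_ (Finset.insert_nonempty _ _) hN ?_ h
      · rw [Finset.disjoint_insert_left]
        exact ⟨hlN, hPN⟩
      · have h1 : (insert l P ∪ N)ᶜ = ((P ∪ N)ᶜ).erase l := by
          ext x
          simp only [Finset.mem_compl, Finset.mem_union, Finset.mem_insert, Finset.mem_erase]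
          tauto
        rw [h1, Finset.card_erase_of_mem hl, hk]
        rfl
    · refine ih P (insert l N) ?_ hP (Finset.insert_nonempty _ _) ?_ h
      · rw [Finset.disjoint_insert_right]
        exact ⟨hlP, hPN⟩
      · have h1 : (P ∪ insert l N)ᶜ = ((P ∪ N)ᶜ).erase l := by
          ext x
          simp only [Finset.mem_compl, Finset.mem_union, Finset.mem_insert, Finset.mem_erase]
          tauto
        rw [h1, Finset.card_erase_of_mem hl, hk]
        rfl

theorem exists_UI (hn : 3 ≤ n) (S : Sus Γ F M) {μ : Measure (F × M)} [IsProbabilityMeasure μ]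
    (hA : S.AInv μ) {a : AZ n} {c : ℝ} (hc : 0 < c) (h : S.GB μ a c) :
    ∃ I : Set (Fin n), I.Nonempty ∧ Iᶜ.Nonempty ∧ ∃ μ' : Measure (F × M),
      IsProbabilityMeasure μ' ∧ S.AInv μ' ∧ (∀ i ∈ I, ∀ j ∉ I, UInv p i j μ') ∧
      ∃ (b : AZ n) (c' : ℝ), 0 < c' ∧ S.GB μ' b c' := by
  have hG : CaseIGood S ∅ := ⟨μ, inferInstance, hA, fun q hq => (Set.notMem_empty q hq).elim, a, c, hc, h⟩
  let i : Fin n := ⟨0, by omega⟩
  let j : Fin n := ⟨1, by omega⟩
  let l : Fin n := ⟨2, by omega⟩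
  have hij : i ≠ j := by simp [i, j, Fin.ext_iff]
  have hil : i ≠ l := by simp [i, l, Fin.ext_iff]
  have hjl : j ≠ l := by simp [j, l, Fin.ext_iff]
  have h0 : ∀ q : Fin n × Fin n, q ∉ (∅ : Set (Fin n × Fin n)) := Set.notMem_empty
  have h1 := hG.add hij hil hjl (h0 _) (fun m hm => (h0 _ hm).elim) (fun m hm => (h0 _ hm).elim)
    (h0 _) (fun m hm => (h0 _ hm).elim) (fun m hm => (h0 _ hm).elim)
  have h2 : ∃ x y : Fin n, x ≠ y ∧ CaseIGood S {q | q.1 ∈ ({x} : Finset (Fin n)) ∧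
      q.2 ∈ ({y} : Finset (Fin n))} := by
    rcases h1 with h1 | h1
    · refine ⟨l, j, Ne.symm hjl, h1.mono ?_⟩
      rintro ⟨x, y⟩ ⟨hx, hy⟩
      left
      exact Prod.ext (Finset.mem_singleton.1 hx) (Finset.mem_singleton.1 hy)
    · refine ⟨i, l, hil, h1.mono ?_⟩
      rintro ⟨x, y⟩ ⟨hx, hy⟩
      left
      exact Prod.ext (Finset.mem_singleton.1 hx) (Finset.mem_singleton.1 hy)
  obtain ⟨x, y, hxy, h3⟩ := h2
  obtain ⟨I, hI, hI', μ', k1, k2, k3, k4⟩ := caseI_outer S _ {x} {y}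
    (Finset.disjoint_singleton.2 hxy) (Finset.singleton_nonempty _) (Finset.singleton_nonempty _)
    rfl h3
  refine ⟨(I : Set (Fin n)), hI, ?_, μ', k1, k2, fun i hi j hj => k3 (i, j) ⟨hi, hj⟩, k4⟩
  obtain ⟨z, hz⟩ := hI'
  exact ⟨z, fun h => (Finset.mem_compl.1 hz) h⟩

end Pool.Agent.H67.LX
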