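import Mathlib
import Pool.Agent.H67.LX.Defs
import Pool.Agent.H73.PZ.Z4
import Pool.Agent.H73.LX.Mi

/-!
PART fibre (helper73, helper56).  Existence of the fibre data of a smooth action on a closed manifold, and the growth
criterion (theorem DerivativeGrowthGap of helper73).
-/

set_option linter.unusedSectionVars false

open MeasureTheory Filter Matrix
open scoped Topology
open Pool.Agent.H73.PZ
open Pool.Agent.H23.DM

namespace Pool.Agent.H67.LX

open scoped Manifold ContDiff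

theorem exists_fib {p : ℕ} [Fact p.Prime] {n : ℕ} (hn : 3 ≤ n) {Γ : Subgroup (SLn p n)}
    (hΓ : IsLattice Γ) {d : ℕ} (hd : 1 ≤ d) {M : Type} [TopologicalSpace M]
    [ChartedSpace (EuclideanSpace ℝ (Fin d)) M] [IsManifold (𝓡 d) ∞ M] [CompactSpace M]
    [T2Space M] [MeasurableSpace M] [BorelSpace M] [MulAction Γ M]
    (hs : SmoothAction (𝓡 d) M Γ) :
    ∃ V : Fib Γ M, ∀ s : ℝ, 0 < s → s < 1 / (7 * (d : ℝ) + 12) →
      (∃ C : ℝ, ∀ (γ : Γ) (m : M), fn (V.J γ m) ≤ C * size (γ : SLn p n) ^ s) →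
      IsometricAction (𝓡 d) M Γ :=
  Pool.Agent.H73.LX.exists_fib hn hΓ hd hs

end Pool.Agent.H67.LX
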