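import Mathlib
import Pool.Agent.H67.LX.Defs
import Pool.Agent.H73.PZ.G4

/-!
PART fibre (helper73).  Paper h23 1.1: if the growth of `J` is not at most `C (size γ)^s` then some `t_ij` has exponential
growth.
-/

set_option linter.unusedSectionVars false

open MeasureTheory Filter Matrix
open scoped Topology
open Pool.Agent.H73.PZ
open Pool.Agent.H23.DM

namespace Pool.Agent.H67.LX

variable {p : ℕ} [Fact p.Prime] {n : ℕ} {Γ : Subgroup (SLn p n)} {F M : Type}
    [TopologicalSpace F] [CompactSpace F] [T2Space F] [SecondCountableTopology F]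
    [MeasurableSpace F] [BorelSpace F] [MulAction (SLn p n) F]
    [TopologicalSpace M] [CompactSpace M] [T2Space M] [SecondCountableTopology M]
    [MeasurableSpace M] [BorelSpace M] [MulAction Γ M]
    [MulAction (SLn p n) (F × M)] [MulAction (AZ n) (F × M)]

/-- `fn (C g x) ≤ K` everywhere. -/
private def growBd (S : Sus Γ F M) (g : SLn p n) (K : ℝ) : Prop := ∀ x : F × M, fn (S.C g x) ≤ K

private theorem grow_C_mul (S : Sus Γ F M) (g h : SLn p n) (x : F × M) :
    S.C (g * h) x = S.C g (h • x) * S.C h x := by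
  unfold Sus.C
  rw [S.B.al_mul, S.V.J_mul, S.smul_def]

private theorem grow_mul {S : Sus Γ F M} {g h : SLn p n} {K K' : ℝ} (hK : 0 ≤ K)
    (hg : growBd S g K) (hh : growBd S h K') : growBd S (g * h) (K * K') := by
  intro x
  rw [grow_C_mul]
  exact (fn_mul_le _ _).trans (mul_le_mul (hg _) (hh _) (fn_nonneg _) hK)

private theorem grow_mono {S : Sus Γ F M} {g : SLn p n} {K K' : ℝ} (h : K ≤ K')
    (hg : growBd S g K) : growBd S g K' := fun x => (hg x).trans h

private theorem grow_J (S : Sus Γ F M) (γ : Γ) : ∃ K : ℝ, ∀ m : M, fn (S.V.J γ m) ≤ K := by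
  have h1 : Continuous fun m : M => fn (S.V.J γ m) := by
    unfold fn
    refine Real.continuous_sqrt.comp ?_
    exact continuous_finsetSum _ fun i _ => continuous_finsetSum _ fun j _ =>
      (S.V.J_cont γ i j).pow 2
  obtain ⟨K, hK⟩ := (isCompact_range h1).bddAbove
  exact ⟨K, fun m => hK ⟨m, rfl⟩⟩

private theorem grow_each (S : Sus Γ F M) (g : SLn p n) : ∃ K : ℝ, 1 ≤ K ∧ growBd S g K := by
  choose k hk using grow_J S
  have hfin : (Set.range (S.B.al g)).Finite := (S.B.al_lc g).range_finite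
  obtain ⟨K, hK⟩ := (hfin.image k).bddAbove
  refine ⟨max K 1, le_max_right _ _, fun x => ?_⟩
  unfold Sus.C
  refine (hk _ _).trans (le_trans (hK ?_) (le_max_left _ _))
  exact ⟨S.B.al g x.1, ⟨x.1, rfl⟩, rfl⟩

private theorem grow_KK (S : Sus Γ F M) : ∃ K : ℝ, 1 ≤ K ∧ ∀ g ∈ KK p n, growBd S g K := by
  obtain ⟨T, -, hT⟩ := KM_finite (p := p) (n := n) 2
  choose k hk1 hk2 using grow_each S
  obtain ⟨K, hK⟩ := (T.finite_toSet.image k).bddAbove
  refine ⟨k 1 * max K 1, ?_, fun g hg => ?_⟩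
  · exact one_le_mul_of_one_le_of_one_le (hk1 1) (le_max_right _ _)
  · obtain ⟨s, hs, u, hu, rfl⟩ := hT g hg
    have hu1 : growBd S u (k 1) := by
      intro x
      have h1 : S.C u x = S.C 1 x := by
        unfold Sus.C
        rw [S.B.al_K u hu, S.B.al_K 1 (one_mem _)]
      rw [h1]
      exact hk2 1 x
    refine grow_mul (le_trans zero_le_one (hk1 1)) hu1 (grow_mono ?_ (hk2 s))
    exact le_trans (hK ⟨s, hs, rfl⟩) (le_max_left _ _)

private theorem grow_pow {S : Sus Γ F M} {g : SLn p n} {K K₁ : ℝ} (hK1 : 0 ≤ K₁)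
    (h1 : growBd S 1 K₁) (hK : 0 ≤ K) (hg : growBd S g K) (N : ℕ) :
    growBd S (g ^ N) (K₁ * K ^ N) := by
  induction N with
  | zero => simpa using h1
  | succ N ih =>
    rw [pow_succ, pow_succ, ← mul_assoc]
    exact grow_mul (by positivity) ih hg

private theorem grow_sub (S : Sus Γ F M) (t : SLn p n) {c : ℝ} (hc : 0 < c) {T : ℕ} (hT : 0 < T)
    (h : growBd S (t ^ T) (Real.exp (c * T))) :
    ∃ K : ℝ, 1 ≤ K ∧ ∀ N : ℕ, growBd S (t ^ N) (K * Real.exp (c * N)) := by
  choose k hk1 hk2 using grow_each S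
  have hs : ∀ r ∈ Finset.range T, k (t ^ r) ≤ ∑ r ∈ Finset.range T, k (t ^ r) := fun r hr =>
    Finset.single_le_sum (f := fun r => k (t ^ r)) (fun i _ => le_trans zero_le_one (hk1 _)) hr
  have hs1 : 1 ≤ ∑ r ∈ Finset.range T, k (t ^ r) :=
    (hk1 (t ^ 0)).trans (hs 0 (Finset.mem_range.2 hT))
  refine ⟨k 1 * ∑ r ∈ Finset.range T, k (t ^ r),
    one_le_mul_of_one_le_of_one_le (hk1 1) hs1, fun N => ?_⟩
  have e1 : t ^ N = (t ^ T) ^ (N / T) * t ^ (N % T) := by
    rw [← pow_mul, ← pow_add, Nat.div_add_mod]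
  have h01 : (0 : ℝ) ≤ k 1 := le_trans zero_le_one (hk1 1)
  rw [e1]
  have h2 := grow_mul (mul_nonneg h01 (pow_nonneg (Real.exp_pos _).le (N / T)))
    (grow_pow h01 (hk2 1) (Real.exp_pos _).le h (N / T))
    (grow_mono (hs (N % T) (Finset.mem_range.2 (Nat.mod_lt _ hT))) (hk2 (t ^ (N % T))))
  refine grow_mono ?_ h2
  have h3 : Real.exp (c * T) ^ (N / T) ≤ Real.exp (c * N) := by
    rw [← Real.exp_nat_mul]
    refine Real.exp_le_exp.2 ?_
    have h4 : ((N / T : ℕ) : ℝ) * T ≤ N := by exact_mod_cast Nat.div_mul_le_self N T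
    calc ((N / T : ℕ) : ℝ) * (c * T) = c * (((N / T : ℕ) : ℝ) * T) := by ring
      _ ≤ c * N := mul_le_mul_of_nonneg_left h4 hc.le
  calc k 1 * Real.exp (c * T) ^ (N / T) * ∑ r ∈ Finset.range T, k (t ^ r)
      ≤ k 1 * Real.exp (c * N) * ∑ r ∈ Finset.range T, k (t ^ r) :=
        mul_le_mul_of_nonneg_right (mul_le_mul_of_nonneg_left h3 h01) (le_trans zero_le_one hs1)
    _ = _ := by ring

private theorem grow_ex_prod (s : Finset (Fin n)) (f : Fin n → AZ n) (k : Fin n) :
    ex (∏ i ∈ s, f i) k = ∑ i ∈ s, ex (f i) k := by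
  classical
  induction s using Finset.induction_on with
  | empty => simp [ex_one]
  | insert i s hi ih =>
    rw [Finset.prod_insert hi, Finset.sum_insert hi, ex_mul]
    change ex (f i) k + ex (∏ x ∈ s, f x) k = _
    rw [ih]

private theorem grow_ex_zpow (a : AZ n) (z : ℤ) (k : Fin n) : ex (a ^ z) k = z * ex a k := by
  unfold ex
  rw [toAdd_zpow]
  simp

private theorem grow_ex_tA (i j k : Fin n) :
    ex (tA i j) k = (Pi.single j 1 : Fin n → ℤ) k - (Pi.single i 1 : Fin n → ℤ) k := rfl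

private theorem grow_tA_inv (i j : Fin n) : (tA i j)⁻¹ = tA j i := by
  refine ex_ext fun k => ?_
  rw [ex_inv, grow_ex_tA]
  change -ex (tA i j) k = _
  rw [grow_ex_tA]
  ring

private theorem grow_dec (i0 : Fin n) (a : AZ n) :
    a = ∏ i ∈ Finset.univ.erase i0, (tA i0 i) ^ (ex a i) := by
  classical
  refine ex_ext fun k => ?_
  rw [grow_ex_prod]
  have h1 : ∀ i ∈ Finset.univ.erase i0, ex ((tA i0 i) ^ (ex a i)) k =
      ex a i * ((Pi.single i 1 : Fin n → ℤ) k - (Pi.single i0 1 : Fin n → ℤ) k) := fun i _ => by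
    rw [grow_ex_zpow, grow_ex_tA]
  rw [Finset.sum_congr rfl h1]
  have hsum := ex_sum a
  rw [← Finset.add_sum_erase _ _ (Finset.mem_univ i0)] at hsum
  by_cases hk : k = i0
  · subst hk
    have h2 : ∀ i ∈ Finset.univ.erase k,
        ex a i * ((Pi.single i 1 : Fin n → ℤ) k - (Pi.single k 1 : Fin n → ℤ) k) = -ex a i := by
      intro i hi
      have hik : k ≠ i := (Finset.ne_of_mem_erase hi).symm
      rw [Pi.single_eq_of_ne hik, Pi.single_eq_same]
      ring
    rw [Finset.sum_congr rfl h2, Finset.sum_neg_distrib]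
    linarith
  · have h2 : ∀ i ∈ Finset.univ.erase i0,
        ex a i * ((Pi.single i 1 : Fin n → ℤ) k - (Pi.single i0 1 : Fin n → ℤ) k) =
          if i = k then ex a k else 0 := by
      intro i hi
      by_cases hik : i = k
      · subst hik
        rw [Pi.single_eq_same, Pi.single_eq_of_ne hk, if_pos rfl]
        ring
      · rw [Pi.single_eq_of_ne (Ne.symm hik), Pi.single_eq_of_ne hk, if_neg hik]
        ring
    rw [Finset.sum_congr rfl h2, Finset.sum_ite_eq', if_pos (Finset.mem_erase.2 ⟨hk, Finset.mem_univ _⟩)]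

private theorem grow_prod (S : Sus Γ F M) {K₁ B : ℝ} (hK1 : 0 ≤ K₁) (h1 : growBd S 1 K₁)
    (hB : 0 ≤ B) (s : Finset (Fin n)) (f : Fin n → AZ n)
    (hf : ∀ i ∈ s, growBd S (dgh p n (f i)) B) :
    growBd S (dgh p n (∏ i ∈ s, f i)) (K₁ * B ^ s.card) := by
  classical
  induction s using Finset.induction_on with
  | empty => simpa using h1
  | insert i s hi ih =>
    rw [Finset.prod_insert hi, Finset.card_insert_of_notMem hi, mul_comm (f i), map_mul, pow_succ,
      ← mul_assoc]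
    exact grow_mul (by positivity) (ih fun j hj => hf j (Finset.mem_insert_of_mem hj))
      (hf i (Finset.mem_insert_self _ _))

private theorem grow_size_dg {a : Fin n → ℤ} (ha : ∑ i, a i = 0) (i : Fin n) :
    (p : ℝ) ^ |a i| ≤ size (dg p a) := by
  rcases le_total 0 (a i) with h | h
  · rw [abs_of_nonneg h]
    have h1 := norm_inv_le_size (dg p a) i i
    have h2 : ((dg p a)⁻¹ : SLn p n).1 i i = (p : ℚ_[p]) ^ (-a i) := by
      rw [← dg_neg ha, dg_coe (by rw [Finset.sum_neg_distrib, ha, neg_zero]),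
        Matrix.diagonal_apply_eq]
    rw [h2, norm_p_zpow, neg_neg] at h1
    exact h1
  · rw [abs_of_nonpos h]
    have h1 := norm_le_size (dg p a) i i
    rw [dg_coe ha, Matrix.diagonal_apply_eq, norm_p_zpow] at h1
    exact h1

private theorem grow_main (hn : 2 ≤ n) (S : Sus Γ F M) {s : ℝ} (hs : 0 < s)
    (h : ∀ i j : Fin n, i ≠ j → ∀ c : ℝ, 0 < c → ∃ K : ℝ, 1 ≤ K ∧ ∀ N : ℕ,
      growBd S (dgh p n (tA i j) ^ N) (K * Real.exp (c * N))) :
    ∃ K : ℝ, 1 ≤ K ∧ ∀ g : SLn p n, growBd S g (K * size g ^ s) := by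
  classical
  have hn0 : 0 < n := by omega
  have hnR : (0 : ℝ) < n := by exact_mod_cast hn0
  have hp1 : (1 : ℝ) < p := by exact_mod_cast (Fact.out : p.Prime).one_lt
  have hp0 : (0 : ℝ) < p := by linarith
  have hlog : 0 < Real.log p := Real.log_pos hp1
  set c : ℝ := s / n * Real.log p with hc
  have hc0 : 0 < c := by positivity
  set i0 : Fin n := ⟨0, hn0⟩ with hi0
  have hall : ∀ i j : Fin n, ∃ K : ℝ, 1 ≤ K ∧ (i ≠ j → ∀ N : ℕ,
      growBd S (dgh p n (tA i j) ^ N) (K * Real.exp (c * N))) := by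
    intro i j
    by_cases hij : i = j
    · exact ⟨1, le_rfl, fun h => absurd hij h⟩
    · obtain ⟨K, hK, hK'⟩ := h i j hij c hc0
      exact ⟨K, hK, fun _ => hK'⟩
  choose k hk1 hk2 using hall
  obtain ⟨K₀, hK0, hK0'⟩ := grow_KK S
  obtain ⟨K₁, hK1, hK1'⟩ := grow_each S 1
  set Q : ℝ := ∑ i : Fin n, ∑ j : Fin n, k i j with hQ
  have hkQ : ∀ i j : Fin n, k i j ≤ Q := by
    intro i j
    have e1 : k i j ≤ ∑ j : Fin n, k i j :=
      Finset.single_le_sum (f := fun j => k i j) (fun l _ => le_trans zero_le_one (hk1 i l))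
        (Finset.mem_univ j)
    have e2 : ∑ j : Fin n, k i j ≤ Q :=
      Finset.single_le_sum (f := fun i => ∑ j : Fin n, k i j)
        (fun l _ => Finset.sum_nonneg fun l' _ => le_trans zero_le_one (hk1 l l'))
        (Finset.mem_univ i)
    exact e1.trans e2
  have hQ1 : 1 ≤ Q := (hk1 i0 i0).trans (hkQ i0 i0)
  have hQ0 : 0 ≤ Q := le_trans zero_le_one hQ1
  refine ⟨K₀ * (K₁ * Q ^ n) * K₀, ?_, fun g => ?_⟩
  · have e1 : 1 ≤ Q ^ n := one_le_pow₀ hQ1
    have e2 : 1 ≤ K₁ * Q ^ n := one_le_mul_of_one_le_of_one_le hK1 e1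
    exact one_le_mul_of_one_le_of_one_le (one_le_mul_of_one_le_of_one_le hK0 e2) hK0
  · obtain ⟨u, hu, u', hu', a, ha, hg⟩ := cartan hn0 g
    have hg1 : 1 ≤ size g := one_le_size hn0 g
    have hg0 : 0 < size g := by linarith
    -- the size of the diagonal part
    have hsz : size (dg p a) ≤ size g := by
      have e1 : dg p a = u⁻¹ * g * u'⁻¹ := by rw [hg]; group
      rw [e1]
      have hu1 : size u⁻¹ ≤ 1 := inv_mem hu
      have hu2 : size u'⁻¹ ≤ 1 := inv_mem hu'
      refine (size_mul_le _ _).trans ?_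
      have e2 : size (u⁻¹ * g) ≤ size g := by
        refine (size_mul_le _ _).trans ?_
        nlinarith
      have e3 := size_nonneg (u⁻¹ * g)
      have e4 := size_nonneg u'⁻¹
      nlinarith
    set Z : ℝ := size g ^ (s / n) with hZ
    have hZ1 : 1 ≤ Z := Real.one_le_rpow hg1 (by positivity)
    have hZ0 : 0 ≤ Z := le_trans zero_le_one hZ1
    have hexp : ∀ i : Fin n, Real.exp (c * |(a i : ℝ)|) ≤ Z := by
      intro i
      have e1 : (p : ℝ) ^ |a i| ≤ size g := (grow_size_dg ha i).trans hsz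
      have e2 : Real.exp (c * |(a i : ℝ)|) = ((p : ℝ) ^ |a i|) ^ (s / n) := by
        rw [← Real.rpow_intCast, ← Real.rpow_mul hp0.le, Real.rpow_def_of_pos hp0, hc]
        congr 1
        push_cast
        ring
      rw [e2]
      exact Real.rpow_le_rpow (by positivity) e1 (by positivity)
    set b : AZ n := mkA a ha with hb
    have hbd : ∀ i ∈ Finset.univ.erase i0,
        growBd S (dgh p n ((tA i0 i) ^ (ex b i))) (Q * Z) := by
      intro i hi
      have hne : i0 ≠ i := (Finset.ne_of_mem_erase hi).symm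
      have hexi : ex b i = a i := rfl
      rw [hexi]
      rcases le_total 0 (a i) with h0 | h0
      · obtain ⟨N, hN⟩ := Int.eq_ofNat_of_zero_le h0
        rw [hN, zpow_natCast, map_pow]
        refine grow_mono ?_ (hk2 i0 i hne N)
        have e1 := hexp i
        rw [hN] at e1
        push_cast at e1
        rw [abs_of_nonneg (Nat.cast_nonneg N)] at e1
        exact mul_le_mul (hkQ i0 i) e1 (Real.exp_pos _).le hQ0
      · obtain ⟨N, hN⟩ := Int.eq_ofNat_of_zero_le (neg_nonneg.2 h0)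
        have hN' : a i = -(N : ℤ) := by linarith
        rw [hN', _root_.zpow_neg, zpow_natCast, ← inv_pow, grow_tA_inv, map_pow]
        refine grow_mono ?_ (hk2 i i0 hne.symm N)
        have e1 := hexp i
        rw [hN'] at e1
        push_cast at e1
        rw [abs_neg, abs_of_nonneg (Nat.cast_nonneg N)] at e1
        exact mul_le_mul (hkQ i i0) e1 (Real.exp_pos _).le hQ0
    have hprod := grow_prod S (le_trans zero_le_one hK1) hK1' (mul_nonneg hQ0 hZ0)
      (Finset.univ.erase i0) (fun i => (tA i0 i) ^ (ex b i)) hbd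
    rw [← grow_dec i0 b] at hprod
    have hdgb : dgh p n b = dg p a := rfl
    rw [hdgb] at hprod
    have hQZ : 1 ≤ Q * Z := one_le_mul_of_one_le_of_one_le hQ1 hZ1
    have hcard : (Finset.univ.erase i0).card ≤ n := by
      refine (Finset.card_erase_le).trans ?_
      rw [Finset.card_univ, Fintype.card_fin]
    have hpow : (Q * Z) ^ (Finset.univ.erase i0).card ≤ Q ^ n * size g ^ s := by
      refine (pow_le_pow_right₀ hQZ hcard).trans (le_of_eq ?_)
      rw [mul_pow, hZ, ← Real.rpow_natCast, ← Real.rpow_natCast, ← Real.rpow_mul hg0.le]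
      congr 2
      field_simp
    have hdg : growBd S (dg p a) (K₁ * (Q ^ n * size g ^ s)) :=
      grow_mono (mul_le_mul_of_nonneg_left hpow (le_trans zero_le_one hK1)) hprod
    have hss : 0 ≤ size g ^ s := Real.rpow_nonneg hg0.le _
    have hK0n : 0 ≤ K₀ := le_trans zero_le_one hK0
    have hK1n : 0 ≤ K₁ := le_trans zero_le_one hK1
    have hfin : growBd S (u * dg p a * u') (K₀ * (K₁ * (Q ^ n * size g ^ s)) * K₀) :=
      grow_mul (by positivity) (grow_mul hK0n (hK0' u hu) hdg) (hK0' u' hu')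
    rw [← hg] at hfin
    refine grow_mono (le_of_eq ?_) hfin
    ring

theorem exists_growth (hn : 2 ≤ n) (S : Sus Γ F M) {s : ℝ} (hs : 0 < s)
    (h : ¬ ∃ C : ℝ, ∀ (γ : Γ) (m : M), fn (S.V.J γ m) ≤ C * size (γ : SLn p n) ^ s) :
    ∃ i j : Fin n, i ≠ j ∧ ∃ c : ℝ, 0 < c ∧ ∀ T : ℕ, ∃ x : F × M,
      c * T ≤ S.L (dgh p n (tA i j) ^ T) x := by
  by_contra hcon
  push Not at hcon
  apply h
  have hn0 : 0 < n := by omega
  rcases isEmpty_or_nonempty M with hM | ⟨⟨m0⟩⟩
  · exact ⟨0, fun γ m => (hM.false m).elim⟩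
  obtain ⟨f0, CB, hpt⟩ := S.B.pt
  have hL0 : ∀ x : F × M, 0 ≤ S.L 1 x := by
    intro x
    unfold Sus.L
    refine Real.log_nonneg ?_
    have e1 : S.C 1 x = S.V.J 1 x.2 := by
      unfold Sus.C
      rw [S.B.al_K 1 (one_mem _)]
    have e2 : S.V.J 1 x.2 = S.V.J 1 x.2 * S.V.J 1 x.2 := by
      have := S.V.J_mul 1 1 x.2
      rwa [one_mul, one_smul] at this
    rw [e1]
    have e3 : 0 < fn (S.V.J 1 x.2) :=
      lt_of_le_of_ne (fn_nonneg _) fun h0 => S.V.J_one x.2 (fn_eq_zero.1 h0.symm)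
    have e4 : fn (S.V.J 1 x.2) ≤ fn (S.V.J 1 x.2) * fn (S.V.J 1 x.2) := by
      conv_lhs => rw [e2]
      exact fn_mul_le _ _
    by_contra h1
    push Not at h1
    nlinarith
  obtain ⟨K, hK1, hK⟩ := grow_main hn S hs (by
    intro i j hij c hc
    obtain ⟨T, hT⟩ := hcon i j hij c hc
    have hTpos : 0 < T := by
      rcases Nat.eq_zero_or_pos T with h0 | h0
      · exfalso
        have e1 := hT (f0, m0)
        rw [h0, pow_zero, Nat.cast_zero, mul_zero] at e1
        exact absurd (hL0 (f0, m0)) (not_le.2 e1)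
      · exact h0
    refine grow_sub S _ hc hTpos fun x => ?_
    have e1 : Real.log (fn (S.C (dgh p n (tA i j) ^ T) x)) < c * T := hT x
    rcases (fn_nonneg (S.C (dgh p n (tA i j) ^ T) x)).eq_or_lt with h0 | h0
    · rw [← h0]
      exact (Real.exp_pos _).le
    · exact ((Real.log_lt_iff_lt_exp h0).1 e1).le)
  refine ⟨K * max CB 1 ^ s, fun γ m => ?_⟩
  obtain ⟨g, hg1, hg2, hg3⟩ := hpt γ
  have h1 := hK g (f0, m)
  have h2 : S.C g (f0, m) = S.V.J γ m := by
    unfold Sus.C
    rw [hg2]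
  rw [h2] at h1
  refine h1.trans ?_
  have hm1 : (0 : ℝ) ≤ max CB 1 := le_trans zero_le_one (le_max_right _ _)
  have h3 : size g ≤ max CB 1 * size (γ : SLn p n) :=
    hg3.trans (mul_le_mul_of_nonneg_right (le_max_left _ _) (size_nonneg _))
  have h4 : size g ^ s ≤ max CB 1 ^ s * size (γ : SLn p n) ^ s := by
    rw [← Real.mul_rpow hm1 (size_nonneg _)]
    exact Real.rpow_le_rpow (size_nonneg _) h3 hs.le
  calc K * size g ^ s ≤ K * (max CB 1 ^ s * size (γ : SLn p n) ^ s) :=
        mul_le_mul_of_nonneg_left h4 (le_trans zero_le_one hK1)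
    _ = _ := by ring

end Pool.Agent.H67.LX
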