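import Mathlib
import Pool.Agent.H67.LX.Mau
import Pool.Agent.H53.IV.Prin

/-!
PART invariance principle (statement helper67, proof helper53 in `Pool/Agent/H53/IV`).  Paper (S4).
-/

set_option linter.unusedSectionVars false

open MeasureTheory Filter Matrix
open scoped Topology
open Pool.Agent.H73.PZ
open Pool.Agent.H23.DM

namespace Pool.Agent.H67.LX

variable {p : ℕ} [Fact p.Prime] {n : ℕ} {Γ : Subgroup (SLn p n)} {F M : Type}
    [TopologicalSpace F] [CompactSpace F] [T2Space F] [SecondCountableTopology F]
    [MeasurableSpace F] [BorelSpace F] [MulAction (SLn p n) F]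
    [TopologicalSpace M] [CompactSpace M] [T2Space M] [SecondCountableTopology M]
    [MeasurableSpace M] [BorelSpace M] [MulAction Γ M]
    [MulAction (SLn p n) (F × M)] [MulAction (AZ n) (F × M)]

theorem uinv_of_upp (S : Sus Γ F M) {μ : Measure (F × M)} [IsProbabilityMeasure μ]
    (hA : S.AInv μ) (hov : S.OvH μ) {w : AZ n} (hu : S.Upp μ w) {i j : Fin n}
    (hr : 0 < rt i j w) : UInv p i j μ :=
  Pool.Agent.H53.IV.uinv_main S hA hov hu hr

end Pool.Agent.H67.LX
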