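import Mathlib
import Pool.Agent.H67.LX.Bor
import Pool.Agent.H67.LX.AvgA

/-!
PART averages (helper23).  Paper (S3): average over the root groups of the Levi subgroup in the order of decreasing height
(`average_root`), then `borel_NG`.  (Proof: helper69.)
-/

set_option linter.unusedSectionVars false

open MeasureTheory Filter Matrix
open scoped Topology
open Pool.Agent.H73.PZ
open Pool.Agent.H23.DM

namespace Pool.Agent.H67.LX

variable {p : ℕ} [Fact p.Prime] {n : ℕ} {Γ : Subgroup (SLn p n)} {F M : Type}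
    [TopologicalSpace F] [CompactSpace F] [T2Space F] [SecondCountableTopology F]
    [MeasurableSpace F] [BorelSpace F] [MulAction (SLn p n) F]
    [TopologicalSpace M] [CompactSpace M] [T2Space M] [SecondCountableTopology M]
    [MeasurableSpace M] [BorelSpace M] [MulAction Γ M]
    [MulAction (SLn p n) (F × M)] [MulAction (AZ n) (F × M)]

/-- Paper (S3): `κ_w(μ) ≤ 0` for `w` central in the Levi subgroup of `I`. -/
theorem levi_NG (hn : 3 ≤ n) (S : Sus Γ F M) {μ : Measure (F × M)} [IsProbabilityMeasure μ]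
    (hA : S.AInv μ) (I : Set (Fin n)) (hU : ∀ i ∈ I, ∀ j ∉ I, UInv p i j μ) (w : AZ n)
    (hw : ∀ i ∈ I, ∀ j ∈ I, rt i j w = 0) (hw' : ∀ i ∉ I, ∀ j ∉ I, rt i j w = 0) :
    S.NG μ w := by
  classical
  intro c hc hg
  -- the positive roots of the Levi subgroup
  let P : Finset (Fin n × Fin n) := Finset.univ.filter fun q => (q.1 ∈ I ↔ q.2 ∈ I) ∧ q.1 < q.2
  have hP : ∀ q : Fin n × Fin n, q ∈ P ↔ ((q.1 ∈ I ↔ q.2 ∈ I) ∧ q.1 < q.2) := fun q => by
    simp only [P, Finset.mem_filter, Finset.mem_univ, true_and]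
  let f : Fin n × Fin n → ℤ := fun q => (q.2.1 : ℤ) - (q.1.1 : ℤ)
  have hf : ∀ i j : Fin n, f (i, j) = (j.1 : ℤ) - (i.1 : ℤ) := fun i j => rfl
  have key : ∀ s : Finset (Fin n × Fin n), s ⊆ P →
      (∀ x ∈ s, ∀ y ∈ P, f x < f y → y ∈ s) →
      ∃ μ' : Measure (F × M), IsProbabilityMeasure μ' ∧ S.AInv μ' ∧ S.GB μ' w c ∧
        (∀ i ∈ I, ∀ j ∉ I, UInv p i j μ') ∧ ∀ q ∈ s, UInv p q.1 q.2 μ' := by
    intro s
    induction s using Finset.induction_on_min_value f with
    | empty =>
      intro _ _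
      exact ⟨μ, inferInstance, hA, hg, hU, fun q hq => absurd hq (Finset.notMem_empty q)⟩
    | insert a s ha hmin ih =>
      intro hsub hup
      obtain ⟨i, j⟩ := a
      have haP : (i, j) ∈ P := hsub (Finset.mem_insert_self _ _)
      have haP' := (hP _).1 haP
      have hside : i ∈ I ↔ j ∈ I := haP'.1
      have hlt : i < j := haP'.2
      have hlt' : (i.1 : ℤ) < (j.1 : ℤ) := by exact_mod_cast hlt
      have hup1 : ∀ x ∈ s, ∀ y ∈ P, f x < f y → y ∈ s := by
        intro x hx y hy hxy
        rcases Finset.mem_insert.1 (hup x (Finset.mem_insert_of_mem hx) y hy hxy) with h | h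
        · exfalso
          have h1 := hmin x hx
          rw [h] at hxy
          linarith
        · exact h
      have hup2 : ∀ y ∈ P, f (i, j) < f y → y ∈ s := by
        intro y hy hxy
        rcases Finset.mem_insert.1 (hup _ (Finset.mem_insert_self _ _) y hy hxy) with h | h
        · exfalso
          rw [h] at hxy
          exact lt_irrefl _ hxy
        · exact h
      obtain ⟨μ₁, hp₁, hA₁, hg₁, hU₁, hs₁⟩ :=
        ih (fun q hq => hsub (Finset.mem_insert_of_mem hq)) hup1
      have hwij : rt i j w = 0 := by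
        by_cases hi : i ∈ I
        · exact hw i hi j (hside.1 hi)
        · exact hw' i hi j (fun h => hi (hside.2 h))
      obtain ⟨μ₂, hp₂, hA₂, hg₂, hij₂, hQ₂⟩ := average_root S hA₁ hg₁ (ne_of_lt hlt) hwij
        {q : Fin n × Fin n | (q.1 ∈ I ∧ q.2 ∉ I) ∨ q ∈ s} (by
          rintro q (hq | hq)
          · exact hU₁ q.1 hq.1 q.2 hq.2
          · exact hs₁ q hq) (by
          rintro (hq | hq)
          · exact hq.2 (hside.2 hq.1)
          · have h1 := ((hP _).1 (hsub (Finset.mem_insert_of_mem hq))).2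
            exact lt_asymm hlt h1) (by
          rintro l (hq | hq)
          · exact Or.inl ⟨hside.2 hq.1, hq.2⟩
          · have h1 := (hP _).1 (hsub (Finset.mem_insert_of_mem hq))
            have h2 : j < l := h1.2
            have h2' : (j.1 : ℤ) < (l.1 : ℤ) := by exact_mod_cast h2
            refine Or.inr (hup2 (i, l) ((hP _).2 ⟨hside.trans h1.1, hlt.trans h2⟩) ?_)
            rw [hf, hf]
            linarith) (by
          rintro k (hq | hq)
          · exact Or.inl ⟨hq.1, fun h => hq.2 (hside.2 h)⟩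
          · have h1 := (hP _).1 (hsub (Finset.mem_insert_of_mem hq))
            have h2 : k < i := h1.2
            have h2' : (k.1 : ℤ) < (i.1 : ℤ) := by exact_mod_cast h2
            refine Or.inr (hup2 (k, j) ((hP _).2 ⟨h1.1.trans hside, h2.trans hlt⟩) ?_)
            rw [hf, hf]
            linarith)
      refine ⟨μ₂, hp₂, hA₂, hg₂, fun k hk l hl => hQ₂ (k, l) (Or.inl ⟨hk, hl⟩), ?_⟩
      intro q hq
      rcases Finset.mem_insert.1 hq with h | h
      · rw [h]
        exact hij₂
      · exact hQ₂ q (Or.inr h)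
  obtain ⟨μ', hp', hA', hg', hU', hs'⟩ := key P (Finset.Subset.refl _) fun _ _ y hy _ => hy
  obtain ⟨ρ, hρ1, hρ2⟩ : ∃ ρ : Fin n → ℕ, (∀ i ∈ I, ρ i = i.1) ∧ ∀ i ∉ I, ρ i = n + i.1 :=
    ⟨fun i => if i ∈ I then i.1 else n + i.1, fun i hi => by simp only [hi, if_true],
      fun i hi => by simp only [hi, if_false]⟩
  refine borel_NG hn S ρ ?_ hA' ?_ w c hc hg'
  · intro i j h
    by_cases hi : i ∈ I
    · by_cases hj : j ∈ I
      · rw [hρ1 i hi, hρ1 j hj] at h
        exact Fin.ext h
      · rw [hρ1 i hi, hρ2 j hj] at h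
        have := i.2
        omega
    · by_cases hj : j ∈ I
      · rw [hρ2 i hi, hρ1 j hj] at h
        have := j.2
        omega
      · rw [hρ2 i hi, hρ2 j hj] at h
        exact Fin.ext (by omega)
  · intro i j h
    by_cases hi : i ∈ I
    · by_cases hj : j ∈ I
      · rw [hρ1 i hi, hρ1 j hj] at h
        exact hs' (i, j) ((hP _).2 ⟨⟨fun _ => hj, fun _ => hi⟩, h⟩)
      · exact hU' i hi j hj
    · by_cases hj : j ∈ I
      · rw [hρ2 i hi, hρ1 j hj] at h
        have := j.2
        omega
      · rw [hρ2 i hi, hρ2 j hj] at h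
        exact hs' (i, j) ((hP _).2 ⟨⟨fun h' => absurd h' hi, fun h' => absurd h' hj⟩, by
          have : i.1 < j.1 := by omega
          exact this⟩)

end Pool.Agent.H67.LX
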