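import Mathlib
import Pool.Agent.H73.PZ.Z4
import Pool.Agent.H73.LX.Zero

/-!
PART fibre (helper73).  Dimension zero.
-/

set_option linter.unusedSectionVars false

open MeasureTheory Filter Matrix
open scoped Topology
open Pool.Agent.H73.PZ


namespace Pool.Agent.H67.LX

open scoped Manifold ContDiff

/-- Dimension zero. -/
theorem isometric_zero {p : ℕ} [Fact p.Prime] {n : ℕ} (hn : 3 ≤ n) {Γ : Subgroup (SLn p n)}
    (hΓ : IsLattice Γ) {M : Type} [TopologicalSpace M]
    [ChartedSpace (EuclideanSpace ℝ (Fin 0)) M] [IsManifold (𝓡 0) ∞ M] [CompactSpace M]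
    [T2Space M] [MulAction Γ M] (hs : SmoothAction (𝓡 0) M Γ) :
    IsometricAction (𝓡 0) M Γ :=
  Pool.Agent.H73.LX.isometric_zero hn hΓ hs

end Pool.Agent.H67.LX
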