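import Mathlib
import Pool.Agent.H67.LX.Levi
import Pool.Agent.H67.LX.Zero
import Pool.Agent.H67.LX.CaseI
import Pool.Agent.H67.LX.UppNG
import Pool.Agent.H67.LX.InvP
import Pool.Agent.H67.LX.Grow
import Pool.Agent.H67.LX.Base1
import Pool.Agent.H67.LX.FibE

/-!
MAIN (helper67): every smooth action of a lattice of `SL_n(ℚ_p)`, `n ≥ 3`, on a closed manifold is isometric.
-/

set_option linter.unusedSectionVars false

open MeasureTheory Filter Matrix
open scoped Topology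
open Pool.Agent.H73.PZ
open Pool.Agent.H23.DM

namespace Pool.Agent.H67.LX

open scoped Manifold ContDiff

section Dyn

variable {p : ℕ} [Fact p.Prime] {n : ℕ} {Γ : Subgroup (SLn p n)} {F M : Type}
    [TopologicalSpace F] [CompactSpace F] [T2Space F] [SecondCountableTopology F]
    [MeasurableSpace F] [BorelSpace F] [MulAction (SLn p n) F]
    [TopologicalSpace M] [CompactSpace M] [T2Space M] [SecondCountableTopology M]
    [MeasurableSpace M] [BorelSpace M] [MulAction Γ M]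
    [MulAction (SLn p n) (F × M)] [MulAction (AZ n) (F × M)]

/-- The element of `A` with exponents `-|Iᶜ|` on `I` and `|I|` off `I`. -/
theorem exists_w (I : Set (Fin n)) : ∃ w : AZ n,
    (∀ i ∈ I, ∀ j ∉ I, 0 < rt i j w) ∧ (∀ i ∈ I, ∀ j ∈ I, rt i j w = 0) ∧
      ∀ i ∉ I, ∀ j ∉ I, rt i j w = 0 := by
  classical
  refine ⟨mkA (fun i => if i ∈ I then -((Finset.univ.filter fun j => j ∉ I).card : ℤ) else
    ((Finset.univ.filter fun j => j ∈ I).card : ℤ)) ?_, ?_, ?_, ?_⟩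
  · rw [Finset.sum_ite]
    simp only [Finset.sum_const, nsmul_eq_mul]
    ring
  · intro i hi j hj
    unfold rt
    rw [ex_mkA]
    simp only [hi, hj, if_true, if_false]
    have h1 : 0 < (Finset.univ.filter fun j => j ∈ I).card :=
      Finset.card_pos.2 ⟨i, by simp [hi]⟩
    have h2 : 0 < (Finset.univ.filter fun j => j ∉ I).card :=
      Finset.card_pos.2 ⟨j, by simp [hj]⟩
    omega
  · intro i hi j hj
    unfold rt
    rw [ex_mkA]
    simp only [hi, hj, if_true]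
    ring
  · intro i hi j hj
    unfold rt
    rw [ex_mkA]
    simp only [hi, hj, if_false]
    ring

/-- Paper (S5): there is no growth at all. -/
theorem no_growth (hn : 3 ≤ n) (S : Sus Γ F M) {μ : Measure (F × M)} [IsProbabilityMeasure μ]
    (hA : S.AInv μ) (a : AZ n) : S.NG μ a := by
  intro c hc hg
  obtain ⟨I, hI, hI', μ₁, hp₁, hA₁, hU₁, b, c₁, hc₁, hg₁⟩ := exists_UI hn S hA hc hg
  obtain ⟨μ₂, hE, hA₂, hU₂, hg₂⟩ := exists_ergodic S {q : Fin n × Fin n | q.1 ∈ I ∧ q.2 ∉ I} hA₁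
    (fun q hq => ⟨fun h => hq.2 (h ▸ hq.1), hU₁ q.1 hq.1 q.2 hq.2⟩) hc₁ hg₁
  have hp₂ := hE.prob
  have hU₂' : ∀ i ∈ I, ∀ j ∉ I, UInv p i j μ₂ := fun i hi j hj => hU₂ (i, j) ⟨hi, hj⟩
  have hov : S.OvH μ₂ := ovh_of_UI (by omega) S hA₂ I hI hI' hU₂'
  obtain ⟨w, hw1, hw2, hw3⟩ := exists_w I
  have hk1 : S.NG μ₂ w := levi_NG hn S hA₂ I hU₂' w hw2 hw3
  have hk2 : S.NG μ₂ w⁻¹ := levi_NG hn S hA₂ I hU₂' w⁻¹
    (fun i hi j hj => by rw [rt_inv, hw2 i hi j hj, neg_zero])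
    (fun i hi j hj => by rw [rt_inv, hw3 i hi j hj, neg_zero])
  have hu2 : S.Upp μ₂ w⁻¹ := upp_of_NG S hE hk2
  have hV : ∀ i ∈ I, ∀ j ∉ I, UInv p j i μ₂ := fun i hi j hj =>
    uinv_of_upp S hA₂ hov hu2 (by rw [rt_inv, rt_swap]; have := hw1 i hi j hj; omega)
  obtain ⟨i₀, hi₀⟩ := hI
  obtain ⟨j₀, hj₀⟩ := hI'
  have hall : ∀ i j : Fin n, i ≠ j → UInv p i j μ₂ := by
    intro i j hij
    by_cases hi : i ∈ I
    · by_cases hj : j ∈ I
      · exact S.uinv_comm (k := j₀) (fun h => hj₀ (h ▸ hi)) (fun h => hj₀ (h ▸ hj))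
          (hU₂' i hi j₀ hj₀) (hV j hj j₀ hj₀)
      · exact hU₂' i hi j hj
    · by_cases hj : j ∈ I
      · exact hV j hj i hi
      · exact S.uinv_comm (k := i₀) (fun h => hi (h ▸ hi₀)) (fun h => hj (h ▸ hi₀))
          (hV i₀ hi₀ i hi) (hU₂' i₀ hi₀ j hj)
  exact borel_NG hn S (fun i => i.1) Fin.val_injective hA₂
    (fun i j h => hall i j (fun h' => by rw [h'] at h; exact lt_irrefl _ h)) b c₁ hc₁ hg₂

end Dyn

theorem main {p : ℕ} [Fact p.Prime] {n : ℕ} (hn : 3 ≤ n) {Γ : Subgroup (SLn p n)}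
    (hΓ : IsLattice Γ) {d : ℕ} {M : Type} [TopologicalSpace M]
    [ChartedSpace (EuclideanSpace ℝ (Fin d)) M] [IsManifold (𝓡 d) ∞ M] [CompactSpace M]
    [T2Space M] [MulAction Γ M] (hs : SmoothAction (𝓡 d) M Γ) :
    IsometricAction (𝓡 d) M Γ := by
  rcases Nat.eq_zero_or_pos d with hd | hd
  · subst hd
    exact isometric_zero hn hΓ hs
  by_contra hiso
  letI : MeasurableSpace M := borel M
  haveI : BorelSpace M := ⟨rfl⟩
  haveI : SecondCountableTopology M :=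
    ChartedSpace.secondCountable_of_sigmaCompact (EuclideanSpace ℝ (Fin d)) M
  obtain ⟨V, hV⟩ := exists_fib hn hΓ hd hs
  obtain ⟨F, i1, i2, i3, i4, i5, i6, i7, ⟨B⟩⟩ := exists_base (by omega : 2 ≤ n) hΓ
  have h1 : ∀ f : F, B.al 1 f = 1 := fun f => B.al_K 1 (one_mem _) f
  letI : MulAction (SLn p n) (F × M) :=
    { smul := fun g x => (g • x.1, B.al g x.1 • x.2)
      one_smul := fun x => by
        change ((1 : SLn p n) • x.1, B.al 1 x.1 • x.2) = x
        rw [h1, one_smul, one_smul]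
      mul_smul := fun g h x => by
        change ((g * h) • x.1, B.al (g * h) x.1 • x.2) =
          (g • h • x.1, B.al g (h • x.1) • B.al h x.1 • x.2)
        rw [B.al_mul, mul_smul, mul_smul] }
  letI : MulAction (AZ n) (F × M) := MulAction.compHom (F × M) (dgh p n)
  let S : Sus Γ F M := ⟨B, V, fun g x => rfl, fun a x => rfl⟩
  have hs0 : (0 : ℝ) < 1 / (7 * (d : ℝ) + 12) := by positivity
  have hgr : ¬ ∃ C : ℝ, ∀ (γ : Γ) (m : M),
      fn (S.V.J γ m) ≤ C * size (γ : SLn p n) ^ (1 / (7 * (d : ℝ) + 12) / 2) := fun h =>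
    hiso (hV _ (by linarith) (by linarith) h)
  obtain ⟨i, j, hij, c, hc, hx⟩ := exists_growth (by omega : 2 ≤ n) S (by linarith) hgr
  obtain ⟨μ, hp, hA, hg⟩ := exists_ainv S (tA i j) hc hx
  exact no_growth hn S hA (tA i j) c hc hg

end Pool.Agent.H67.LX
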